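import Mathlib

/-!
# Infinite products with factors close to one; holomorphy of their limits in several variables

Owner helper9.
-/

set_option autoImplicit false
set_option linter.unusedSectionVars false

open Filter Topology Finset

namespace Pool.Agent.T6.H9.MV

section prod

variable {P : Type*} {f : P → ℂ} {β : P → ℝ}

lemma beta_nonneg (h : ∀ v, ‖f v - 1‖ ≤ β v) (v : P) : 0 ≤ β v := (norm_nonneg _).trans (h v)

lemma summable_norm_sub (hβ : Summable β) (h : ∀ v, ‖f v - 1‖ ≤ β v) :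
    Summable fun v => ‖f v - 1‖ :=
  hβ.of_nonneg_of_le (fun _ => norm_nonneg _) h

lemma multipliable_of_bound (hβ : Summable β) (h : ∀ v, ‖f v - 1‖ ≤ β v) : Multipliable f := by
  have h1 := multipliable_one_add_of_summable (f := fun v => f v - 1) (summable_norm_sub hβ h)
  simpa using h1

lemma norm_prod_le_exp (h : ∀ v, ‖f v - 1‖ ≤ β v) (D : Finset P) :
    ‖∏ v ∈ D, f v‖ ≤ Real.exp (∑ v ∈ D, β v) := by
  rw [Real.exp_sum]
  refine (Finset.norm_prod_le _ _).trans ?_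
  refine Finset.prod_le_prod (fun _ _ => norm_nonneg _) fun v _ => ?_
  have h1 : ‖f v‖ ≤ 1 + ‖f v - 1‖ := by
    calc ‖f v‖ = ‖1 + (f v - 1)‖ := by ring_nf
      _ ≤ ‖(1 : ℂ)‖ + ‖f v - 1‖ := norm_add_le _ _
      _ = _ := by rw [norm_one]
  calc ‖f v‖ ≤ 1 + β v := h1.trans (by linarith [h v])
    _ ≤ Real.exp (β v) := by linarith [Real.add_one_le_exp (β v)]

/-- the error term -/
noncomputable def errP (β : P → ℝ) (D : Finset P) : ℝ :=
  Real.exp (∑' v, β v) * (Real.exp (∑' v, β v - ∑ v ∈ D, β v) - 1)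

lemma norm_prod_sub_prod_le (hβ : Summable β) (h : ∀ v, ‖f v - 1‖ ≤ β v) {D t : Finset P}
    (hDt : D ⊆ t) : ‖∏ v ∈ t, f v - ∏ v ∈ D, f v‖ ≤ errP β D := by
  classical
  have h0 := beta_nonneg h
  have h1 : ∏ v ∈ t, f v - ∏ v ∈ D, f v = (∏ v ∈ D, f v) * (∏ v ∈ t \ D, (1 + (f v - 1)) - 1) := by
    rw [← Finset.prod_sdiff hDt]
    simp only [add_sub_cancel]
    ring
  have h2 : ∑ v ∈ t \ D, ‖f v - 1‖ ≤ ∑' v, β v - ∑ v ∈ D, β v := by
    have h3 : ∑ v ∈ t \ D, β v + ∑ v ∈ D, β v = ∑ v ∈ t, β v := Finset.sum_sdiff hDt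
    have h4 : ∑ v ∈ t, β v ≤ ∑' v, β v := hβ.sum_le_tsum _ fun _ _ => h0 _
    have h5 : ∑ v ∈ t \ D, ‖f v - 1‖ ≤ ∑ v ∈ t \ D, β v := Finset.sum_le_sum fun v _ => h v
    linarith
  have h3 : ‖∏ v ∈ D, f v‖ ≤ Real.exp (∑' v, β v) :=
    (norm_prod_le_exp h D).trans (Real.exp_le_exp.2 (hβ.sum_le_tsum _ fun _ _ => h0 _))
  rw [h1, norm_mul]
  unfold errP
  refine mul_le_mul h3 ?_ (norm_nonneg _) (Real.exp_nonneg _)
  refine (Finset.norm_prod_one_add_sub_one_le _ _).trans ?_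
  have := Real.exp_le_exp.2 h2
  linarith

lemma norm_tprod_sub_prod_le (hβ : Summable β) (h : ∀ v, ‖f v - 1‖ ≤ β v) (D : Finset P) :
    ‖∏' v, f v - ∏ v ∈ D, f v‖ ≤ errP β D := by
  have h1 := (multipliable_of_bound hβ h).hasProd
  have h2 : Tendsto (fun t : Finset P => ‖∏ v ∈ t, f v - ∏ v ∈ D, f v‖) atTop
      (𝓝 ‖∏' v, f v - ∏ v ∈ D, f v‖) := (h1.sub_const _).norm
  exact le_of_tendsto h2 ((eventually_ge_atTop D).mono fun t ht => norm_prod_sub_prod_le hβ h ht)

lemma norm_prod_le (hβ : Summable β) (h : ∀ v, ‖f v - 1‖ ≤ β v) (D : Finset P) :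
    ‖∏ v ∈ D, f v‖ ≤ Real.exp (∑' v, β v) :=
  (norm_prod_le_exp h D).trans
    (Real.exp_le_exp.2 (hβ.sum_le_tsum _ fun _ _ => beta_nonneg h _))

lemma norm_tprod_le (hβ : Summable β) (h : ∀ v, ‖f v - 1‖ ≤ β v) :
    ‖∏' v, f v‖ ≤ Real.exp (∑' v, β v) := by
  have h1 := (multipliable_of_bound hβ h).hasProd
  have h2 : Tendsto (fun t : Finset P => ‖∏ v ∈ t, f v‖) atTop (𝓝 ‖∏' v, f v‖) :=
    (continuous_norm.tendsto _).comp h1
  exact le_of_tendsto h2 (Eventually.of_forall fun t => norm_prod_le hβ h t)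

lemma tendsto_errP (hβ : Summable β) : Tendsto (errP β) atTop (𝓝 0) := by
  have h1 : Tendsto (fun D : Finset P => ∑' v, β v - ∑ v ∈ D, β v) atTop (𝓝 0) := by
    have := hβ.hasSum.const_sub (∑' v, β v)
    simpa using this
  have h2 : Tendsto (fun D : Finset P => Real.exp (∑' v, β v - ∑ v ∈ D, β v)) atTop (𝓝 1) := by
    have := (Real.continuous_exp.tendsto 0).comp h1
    rw [Real.exp_zero] at this
    exact this
  have h3 := (h2.sub_const 1).const_mul (Real.exp (∑' v, β v))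
  rw [sub_self, mul_zero] at h3
  exact h3

lemma tprod_ne_zero' (hβ : Summable β) (h : ∀ v, ‖f v - 1‖ ≤ β v) (h0 : ∀ v, f v ≠ 0) :
    ∏' v, f v ≠ 0 := by
  have h1 := tprod_one_add_ne_zero_of_summable (f := fun v => f v - 1) (fun v => by
    simpa using h0 v) (summable_norm_sub hβ h)
  simpa using h1

/-- uniform convergence of an infinite product of functions -/
theorem tendstoUniformlyOn_prod {X : Type*} {S : Set X} {f : P → X → ℂ} (hβ : Summable β)
    (h : ∀ v, ∀ x ∈ S, ‖f v x - 1‖ ≤ β v) :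
    TendstoUniformlyOn (fun (D : Finset P) x => ∏ v ∈ D, f v x) (fun x => ∏' v, f v x) atTop S := by
  rw [Metric.tendstoUniformlyOn_iff]
  intro ε hε
  filter_upwards [(tendsto_errP hβ).eventually (gt_mem_nhds hε)] with D hD x hx
  rw [dist_eq_norm]
  exact (norm_tprod_sub_prod_le hβ (fun v => h v x hx) D).trans_lt hD

end prod

section several

variable {E : Type*} [NormedAddCommGroup E] [NormedSpace ℂ E]

/-- Cauchy's estimate for the Fréchet derivative -/
lemma norm_fderiv_le {f : E → ℂ} {x : E} {δ M : ℝ} (hδ : 0 < δ)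
    (hf : DifferentiableOn ℂ f (Metric.ball x δ)) (hM : ∀ y ∈ Metric.ball x δ, ‖f y‖ ≤ M) :
    ‖fderiv ℂ f x‖ ≤ 2 * M / δ := by
  have hx : x ∈ Metric.ball x δ := Metric.mem_ball_self hδ
  have hM0 : 0 ≤ M := (norm_nonneg _).trans (hM x hx)
  have hfx : DifferentiableAt ℂ f x := (hf x hx).differentiableAt (Metric.ball_mem_nhds x hδ)
  refine ContinuousLinearMap.opNorm_le_bound _ (by positivity) fun v => ?_
  by_cases hv : v = 0
  · subst hv; simp
  have hv' : 0 < ‖v‖ := norm_pos_iff.2 hv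
  set R : ℝ := δ / (2 * ‖v‖) with hR
  have hR0 : 0 < R := by positivity
  set φ : ℂ → E := fun w => x + w • v with hφ
  have hmem : ∀ w : ℂ, ‖w‖ ≤ R → φ w ∈ Metric.ball x δ := by
    intro w hw
    rw [Metric.mem_ball, dist_eq_norm, hφ]
    simp only [add_sub_cancel_left]
    rw [norm_smul]
    calc ‖w‖ * ‖v‖ ≤ R * ‖v‖ := by gcongr
      _ = δ / 2 := by rw [hR]; field_simp
      _ < δ := by linarith
  have hφd : ∀ w, HasDerivAt φ v w := by
    intro w
    have h1 : HasDerivAt (fun w : ℂ => w • v) ((1 : ℂ) • v) w := (hasDerivAt_id w).smul_const v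
    rw [one_smul] at h1
    exact h1.const_add x
  have hφ0 : φ 0 = x := by simp [hφ]
  have h1 : HasDerivAt (fun w => f (φ w)) (fderiv ℂ f x v) 0 := by
    have h2 : HasFDerivAt f (fderiv ℂ f x) (φ 0) := by rw [hφ0]; exact hfx.hasFDerivAt
    exact h2.comp_hasDerivAt 0 (hφd 0)
  have h2 : DiffContOnCl ℂ (fun w => f (φ w)) (Metric.ball 0 R) := by
    refine DifferentiableOn.diffContOnCl ?_
    rw [closure_ball _ hR0.ne']
    intro w hw
    have hw' : ‖w‖ ≤ R := by simpa using hw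
    have h3 := (hf (φ w) (hmem w hw')).differentiableAt (Metric.isOpen_ball.mem_nhds (hmem w hw'))
    exact (h3.comp w (hφd w).differentiableAt).differentiableWithinAt
  have h3 := Complex.norm_deriv_le_of_forall_mem_sphere_norm_le hR0 h2 (C := M) fun z hz =>
    hM _ (hmem z (by simpa using (le_of_eq (by simpa using hz : ‖z‖ = R))))
  rw [h1.deriv] at h3
  refine h3.trans (le_of_eq ?_)
  rw [hR]
  field_simp

/-- uniform limits of Fréchet-holomorphic functions are Fréchet-holomorphic -/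
theorem differentiableOn_of_tendstoUniformlyOn {ι : Type*} {l : Filter ι} [NeBot l]
    {F : ι → E → ℂ} {f : E → ℂ} {U V : Set E} {δ : ℝ} (hδ : 0 < δ) (hV : IsOpen V)
    (hVU : ∀ x ∈ V, Metric.ball x δ ⊆ U) (hF : ∀ i, DifferentiableOn ℂ (F i) U)
    (h : TendstoUniformlyOn F f l U) : DifferentiableOn ℂ f V := by
  have hxU : ∀ x ∈ V, U ∈ 𝓝 x := fun x hx =>
    Filter.mem_of_superset (Metric.ball_mem_nhds x hδ) (hVU x hx)
  have hsub : V ⊆ U := fun x hx => hVU x hx (Metric.mem_ball_self hδ)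
  have hFd : ∀ i, ∀ x ∈ V, HasFDerivAt (F i) (fderiv ℂ (F i) x) x := fun i x hx =>
    ((hF i x (hsub hx)).differentiableAt (hxU x hx)).hasFDerivAt
  have hc : UniformCauchySeqOn (fun i x => fderiv ℂ (F i) x) l V := by
    have h1 := h.uniformCauchySeqOn
    intro u hu
    obtain ⟨ε, hε, hεu⟩ := Metric.mem_uniformity_dist.1 hu
    have h2 := h1 {p : ℂ × ℂ | dist p.1 p.2 < ε * δ / 4}
      (Metric.dist_mem_uniformity (by positivity))
    filter_upwards [h2] with ij hij x hx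
    apply hεu
    rw [dist_eq_norm]
    have hd : DifferentiableOn ℂ (fun y => F ij.1 y - F ij.2 y) (Metric.ball x δ) :=
      ((hF ij.1).mono (hVU x hx)).sub ((hF ij.2).mono (hVU x hx))
    have h3 := norm_fderiv_le (M := ε * δ / 4) hδ hd fun y hy => by
      have := hij y (hVU x hx hy)
      have h5 : dist (F ij.1 y) (F ij.2 y) < ε * δ / 4 := this
      rw [dist_eq_norm] at h5
      exact h5.le
    have h4 : fderiv ℂ (fun y => F ij.1 y - F ij.2 y) x =
        fderiv ℂ (F ij.1) x - fderiv ℂ (F ij.2) x :=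
      ((hFd ij.1 x hx).sub (hFd ij.2 x hx)).fderiv
    rw [h4] at h3
    refine h3.trans_lt ?_
    have : 2 * (ε * δ / 4) / δ = ε / 2 := by field_simp; ring
    rw [this]
    linarith
  have hlim : ∀ x ∈ V, ∃ G : E →L[ℂ] ℂ, Tendsto (fun i => fderiv ℂ (F i) x) l (𝓝 G) := by
    intro x hx
    exact cauchy_map_iff_exists_tendsto.1 (hc.cauchy_map hx)
  classical
  let G : E → (E →L[ℂ] ℂ) := fun x => if hx : x ∈ V then (hlim x hx).choose else 0
  have hG : ∀ x ∈ V, Tendsto (fun i => fderiv ℂ (F i) x) l (𝓝 (G x)) := by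
    intro x hx
    simp only [G, dif_pos hx]
    exact (hlim x hx).choose_spec
  have hu := hc.tendstoUniformlyOn_of_tendsto hG
  intro x hx
  exact (hasFDerivAt_of_tendstoUniformlyOn hV hu hFd
    (fun y hy => h.tendsto_at (hsub hy)) hx).differentiableAt.differentiableWithinAt

end several

section limits

/-- exchange of limits -/
theorem tendsto_of_approx {ι α : Type*} {l : Filter α} {F : α → ℂ} {FD : Finset ι → α → ℂ}
    {L : Finset ι → ℂ} {ℓ : ℂ}
    (h1 : ∀ ε > 0, ∀ᶠ D in atTop, ∀ᶠ n in l, ‖F n - FD D n‖ ≤ ε)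
    (h2 : ∀ D, Tendsto (FD D) l (𝓝 (L D))) (h3 : Tendsto L atTop (𝓝 ℓ)) :
    Tendsto F l (𝓝 ℓ) := by
  rw [Metric.tendsto_nhds]
  intro ε hε
  have h4 := h1 (ε / 4) (by positivity)
  have h5 := (Metric.tendsto_nhds.1 h3) (ε / 4) (by positivity)
  obtain ⟨D, hD1, hD2⟩ := (h4.and h5).exists
  have h6 := (Metric.tendsto_nhds.1 (h2 D)) (ε / 4) (by positivity)
  filter_upwards [hD1, h6] with n hn1 hn2
  have h7 : dist (F n) (FD D n) ≤ ε / 4 := by rw [dist_eq_norm]; exact hn1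
  calc dist (F n) ℓ ≤ dist (F n) (FD D n) + dist (FD D n) (L D) + dist (L D) ℓ :=
        dist_triangle4 _ _ _ _
    _ < ε := by linarith

end limits

end Pool.Agent.T6.H9.MV
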