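import Pool.Agent.T6.H9.MV.Box
import Pool.Agent.H691R3.PrimeSum

/-!
# Integers of a number field with bounded coordinates in a prime ideal

Owner helper9.
-/

set_option autoImplicit false
set_option linter.unusedSectionVars false
set_option linter.unusedVariables false

open Filter Topology Finset NumberField IsDedekindDomain

namespace Pool.Agent.T6.H9.MV

section

variable {K : Type} [Field K] [NumberField K]

/-- the norm of a prime -/
noncomputable abbrev qv (v : HeightOneSpectrum (𝓞 K)) : ℕ := Ideal.absNorm v.asIdeal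

lemma qv_ne_zero (v : HeightOneSpectrum (𝓞 K)) : qv v ≠ 0 := by
  rw [qv, Ne, Ideal.absNorm_eq_zero_iff]
  exact v.ne_bot

lemma two_le_qv (v : HeightOneSpectrum (𝓞 K)) : 2 ≤ qv v := by
  have h0 := qv_ne_zero v
  have h1 : qv v ≠ 1 := by
    rw [qv, Ne, Ideal.absNorm_eq_one_iff]
    exact v.isPrime.ne_top
  omega

lemma summable_qv {x : ℝ} (hx : 1 < x) :
    Summable (fun v : HeightOneSpectrum (𝓞 K) => (qv v : ℝ) ^ (-x)) :=
  Pool.Agent.H691R3.nm_summable hx

/-- a nonzero element of a prime has absolute norm at least the norm of the prime -/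
lemma qv_le_norm {v : HeightOneSpectrum (𝓞 K)} {a : 𝓞 K} (ha : a ∈ v.asIdeal) (h0 : a ≠ 0) :
    qv v ≤ Ideal.absNorm (Ideal.span {a}) := by
  refine Nat.le_of_dvd (Nat.pos_of_ne_zero ?_) (Ideal.absNorm_dvd_absNorm_of_le ?_)
  · rw [Ne, Ideal.absNorm_eq_zero_iff, Ideal.span_singleton_eq_bot]
    exact h0
  · rw [Ideal.span_singleton_le_iff_mem]
    exact ha

variable {ι : Type} [Fintype ι] [DecidableEq ι]

lemma card_eq_finrank (ω : Module.Basis ι ℤ (𝓞 K)) :
    Fintype.card ι = Module.finrank ℚ K := by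
  rw [← Module.finrank_eq_card_basis ω, RingOfIntegers.rank]

/-- the element with given coordinates -/
noncomputable abbrev el (ω : Module.Basis ι ℤ (𝓞 K)) (x : ι → ℤ) : 𝓞 K := ω.equivFun.symm x

/-- bound for the norm in terms of the coordinates -/
lemma exists_norm_bound (ω : Module.Basis ι ℤ (𝓞 K)) :
    ∃ C : ℕ, 1 ≤ C ∧ ∀ (X : ℕ) (x : ι → ℤ), (∀ i, |x i| ≤ X) →
      Ideal.absNorm (Ideal.span {el ω x}) ≤ C * X ^ Fintype.card ι := by
  classical
  -- bound for the embeddings of the basis elements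
  obtain ⟨M, hM⟩ : ∃ M : ℝ, ∀ (σ : K →+* ℂ) (i : ι), ‖σ (ω i : K)‖ ≤ M := by
    refine ⟨∑ σ : K →+* ℂ, ∑ i, ‖σ (ω i : K)‖, fun σ i => ?_⟩
    calc ‖σ (ω i : K)‖ ≤ ∑ i, ‖σ (ω i : K)‖ :=
          Finset.single_le_sum (f := fun i => ‖σ (ω i : K)‖) (fun _ _ => norm_nonneg _)
            (Finset.mem_univ i)
      _ ≤ _ := Finset.single_le_sum (f := fun σ : K →+* ℂ => ∑ i, ‖σ (ω i : K)‖)
            (fun _ _ => Finset.sum_nonneg fun _ _ => norm_nonneg _) (Finset.mem_univ σ)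
  set d := Fintype.card ι with hd
  set M' : ℝ := d * max M 0 with hM'
  have hM'0 : 0 ≤ M' := by positivity
  obtain ⟨C, hC⟩ := exists_nat_ge (M' ^ d)
  refine ⟨C + 1, by omega, fun X x hx => ?_⟩
  have h1 : ((Ideal.absNorm (Ideal.span {el ω x}) : ℕ) : ℝ) =
      ‖((Algebra.norm ℚ ((el ω x : 𝓞 K) : K) : ℚ) : ℂ)‖ := by
    rw [Ideal.absNorm_span_singleton]
    have h2 : (Algebra.norm ℚ ((el ω x : 𝓞 K) : K)) = ((Algebra.norm ℤ (el ω x) : ℤ) : ℚ) :=
      (Algebra.coe_norm_int _).symm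
    rw [h2]
    rw [Rat.cast_intCast, Complex.norm_intCast, Nat.cast_natAbs]
    push_cast
    rfl
  have h2 : ((Algebra.norm ℚ ((el ω x : 𝓞 K) : K) : ℚ) : ℂ) =
      ∏ σ : K →ₐ[ℚ] ℂ, σ ((el ω x : 𝓞 K) : K) := by
    have := Algebra.norm_eq_prod_embeddings ℚ ℂ ((el ω x : 𝓞 K) : K)
    simpa using this
  have h3 : ∀ σ : K →ₐ[ℚ] ℂ, ‖σ ((el ω x : 𝓞 K) : K)‖ ≤ M' * X := by
    intro σ
    have h4 : ((el ω x : 𝓞 K) : K) = ∑ i, (x i : K) * (ω i : K) := by
      rw [el, Module.Basis.equivFun_symm_apply]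
      change algebraMap (𝓞 K) K (∑ i, x i • ω i) = _
      rw [map_sum]
      refine Finset.sum_congr rfl fun i _ => ?_
      rw [zsmul_eq_mul, map_mul, map_intCast]
    rw [h4, map_sum]
    refine (norm_sum_le _ _).trans ?_
    have h5 : ∀ i ∈ (Finset.univ : Finset ι), ‖σ ((x i : K) * (ω i : K))‖ ≤ max M 0 * X := by
      intro i _
      rw [map_mul, norm_mul, map_intCast, Complex.norm_intCast, mul_comm]
      have h6 : |(x i : ℝ)| ≤ X := by exact_mod_cast hx i
      have h7 : ‖σ (ω i : K)‖ ≤ max M 0 := (hM (σ : K →+* ℂ) i).trans (le_max_left _ _)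
      exact mul_le_mul h7 h6 (abs_nonneg _) (le_max_right _ _)
    refine (Finset.sum_le_sum h5).trans (le_of_eq ?_)
    rw [Finset.sum_const, Finset.card_univ, nsmul_eq_mul, hM', ← hd]
    ring
  have h4 : ((Ideal.absNorm (Ideal.span {el ω x}) : ℕ) : ℝ) ≤ (M' * X) ^ d := by
    rw [h1, h2, norm_prod]
    have h5 : Fintype.card (K →ₐ[ℚ] ℂ) = d := by
      rw [AlgHom.card, hd, card_eq_finrank ω]
    refine (Finset.prod_le_prod (fun _ _ => norm_nonneg _) fun σ _ => h3 σ).trans (le_of_eq ?_)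
    rw [Finset.prod_const, Finset.card_univ, h5]
  have h5 : ((Ideal.absNorm (Ideal.span {el ω x}) : ℕ) : ℝ) ≤ ((C + 1 : ℕ) : ℝ) * X ^ d := by
    refine h4.trans ?_
    rw [mul_pow]
    have : M' ^ d ≤ ((C + 1 : ℕ) : ℝ) := by
      push_cast
      linarith
    gcongr
  exact_mod_cast h5

/-- the number of elements of a prime ideal in a box -/
noncomputable def cntv (ω : Module.Basis ι ℤ (𝓞 K)) (X : ℕ) (v : HeightOneSpectrum (𝓞 K)) : ℕ :=
  open Classical in ((box (fun _ : ι => X)).filter fun x => el ω x ∈ v.asIdeal).card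

lemma cntv_le (ω : Module.Basis ι ℤ (𝓞 K)) {C : ℕ} (hC : 1 ≤ C)
    (hb : ∀ (X : ℕ) (x : ι → ℤ), (∀ i, |x i| ≤ X) →
      Ideal.absNorm (Ideal.span {el ω x}) ≤ C * X ^ Fintype.card ι)
    {X : ℕ} {v : HeightOneSpectrum (𝓞 K)} (hX : qv v ≤ C * X ^ Fintype.card ι) :
    qv v * cntv ω X v ≤ C * (4 * X) ^ Fintype.card ι := by
  classical
  set d := Fintype.card ι with hd
  have hd0 : 0 < d := by
    rw [hd, card_eq_finrank ω]
    exact Module.finrank_pos
  have hex : ∃ m, qv v ≤ C * m ^ d := ⟨X, hX⟩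
  set m := Nat.find hex with hm
  have hm1 : qv v ≤ C * m ^ d := Nat.find_spec hex
  have hmX : m ≤ X := Nat.find_min' hex hX
  have hm0 : 0 < m := by
    rcases Nat.eq_zero_or_pos m with h | h
    · rw [h, zero_pow hd0.ne', mul_zero] at hm1
      have := two_le_qv v
      omega
    · exact h
  have hm2 : C * (m - 1) ^ d < qv v := by
    have := Nat.find_min hex (m := m - 1) (by omega)
    omega
  -- the map to small cubes is injective
  set S := (box (fun _ : ι => X)).filter fun x => el ω x ∈ v.asIdeal with hS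
  have hm0' : (0 : ℤ) < m := by exact_mod_cast hm0
  have hinj : Set.InjOn (fun (x : ι → ℤ) => fun i => x i / (m : ℤ)) (S : Set (ι → ℤ)) := by
    intro x hx y hy hxy
    by_contra hne
    have hx' := (Finset.mem_filter.1 (Finset.mem_coe.1 hx)).2
    have hy' := (Finset.mem_filter.1 (Finset.mem_coe.1 hy)).2
    have h1 : el ω (x - y) ∈ v.asIdeal := by
      rw [el, map_sub]
      exact v.asIdeal.sub_mem hx' hy'
    have h2 : el ω (x - y) ≠ 0 := by
      rw [Ne, el, LinearEquiv.map_eq_zero_iff, sub_eq_zero]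
      exact hne
    have h3 := qv_le_norm h1 h2
    have h4 : ∀ i, |(x - y) i| ≤ ((m - 1 : ℕ) : ℤ) := by
      intro i
      have h5 : x i / (m : ℤ) = y i / (m : ℤ) := congrFun hxy i
      have h6 := Int.mul_ediv_add_emod (x i) m
      have h7 := Int.mul_ediv_add_emod (y i) m
      have h8 := Int.emod_nonneg (x i) hm0'.ne'
      have h9 := Int.emod_nonneg (y i) hm0'.ne'
      have h10 := Int.emod_lt_of_pos (x i) hm0'
      have h11 := Int.emod_lt_of_pos (y i) hm0'
      rw [h5] at h6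
      have h12 : ((m - 1 : ℕ) : ℤ) = (m : ℤ) - 1 := by
        rw [Nat.cast_sub (by omega)]
        push_cast
        rfl
      rw [Pi.sub_apply, abs_le, h12]
      constructor <;> linarith
    have h5 := hb (m - 1) (x - y) h4
    omega
  have himg : S.image (fun (x : ι → ℤ) => fun i => x i / (m : ℤ)) ⊆
      Fintype.piFinset fun _ : ι => Finset.Icc ((-(X : ℤ)) / m) ((X : ℤ) / m) := by
    intro t ht
    rw [Finset.mem_image] at ht
    obtain ⟨x, hx, rfl⟩ := ht
    rw [Fintype.mem_piFinset]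
    intro i
    have h1 := mem_box.1 (Finset.mem_filter.1 hx).1 i
    rw [abs_le] at h1
    rw [Finset.mem_Icc]
    exact ⟨Int.ediv_le_ediv hm0' h1.1, Int.ediv_le_ediv hm0' h1.2⟩
  have hcard : S.card ≤ (Finset.Icc ((-(X : ℤ)) / m) ((X : ℤ) / m)).card ^ d := by
    rw [← Finset.card_image_of_injOn hinj]
    refine (Finset.card_le_card himg).trans (le_of_eq ?_)
    rw [Fintype.card_piFinset, Finset.prod_const, Finset.card_univ, ← hd]
  have hside : m * (Finset.Icc ((-(X : ℤ)) / m) ((X : ℤ) / m)).card ≤ 4 * X := by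
    rw [Int.card_Icc]
    have h6 := Int.mul_ediv_add_emod (X : ℤ) m
    have h7 := Int.mul_ediv_add_emod (-(X : ℤ)) m
    have h8 := Int.emod_nonneg (X : ℤ) hm0'.ne'
    have h11 := Int.emod_lt_of_pos (-(X : ℤ)) hm0'
    have h12 : (0 : ℤ) ≤ (X : ℤ) / m - (-(X : ℤ)) / m := by
      have : (-(X : ℤ)) / m ≤ (X : ℤ) / m := Int.ediv_le_ediv hm0' (by
        have : (0 : ℤ) ≤ X := by positivity
        linarith)
      linarith
    have h13 : (((X : ℤ) / m + 1 - (-(X : ℤ)) / m).toNat : ℤ) =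
        (X : ℤ) / m + 1 - (-(X : ℤ)) / m := Int.toNat_of_nonneg (by linarith)
    have h14 : ((m * ((X : ℤ) / m + 1 - (-(X : ℤ)) / m).toNat : ℕ) : ℤ) ≤ ((4 * X : ℕ) : ℤ) := by
      rw [Nat.cast_mul, h13]
      push_cast
      have h15 : (m : ℤ) ≤ X := by exact_mod_cast hmX
      nlinarith
    exact_mod_cast h14
  have hfin : qv v * S.card ≤ C * (4 * X) ^ d := by
    calc qv v * S.card ≤ (C * m ^ d) *
          (Finset.Icc ((-(X : ℤ)) / m) ((X : ℤ) / m)).card ^ d := Nat.mul_le_mul hm1 hcard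
      _ = C * (m * (Finset.Icc ((-(X : ℤ)) / m) ((X : ℤ) / m)).card) ^ d := by
        rw [mul_pow]; ring
      _ ≤ C * (4 * X) ^ d := by gcongr
  have h1 : cntv ω X v = S.card := by
    unfold cntv
    rw [hS]
  rw [h1]
  exact hfin

/-- nonzero elements of `v` with coordinates at most `X` exist only if `q_v ≤ C X^d` -/
lemma qv_le_of_mem (ω : Module.Basis ι ℤ (𝓞 K)) {C : ℕ}
    (hb : ∀ (X : ℕ) (x : ι → ℤ), (∀ i, |x i| ≤ X) →
      Ideal.absNorm (Ideal.span {el ω x}) ≤ C * X ^ Fintype.card ι)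
    {X : ℕ} {v : HeightOneSpectrum (𝓞 K)} {x : ι → ℤ} (hx : ∀ i, |x i| ≤ X)
    (hx0 : x ≠ 0) (hv : el ω x ∈ v.asIdeal) : qv v ≤ C * X ^ Fintype.card ι := by
  refine (qv_le_norm hv ?_).trans (hb X x hx)
  rw [Ne, el, LinearEquiv.map_eq_zero_iff]
  exact hx0

end

end Pool.Agent.T6.H9.MV
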