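import Mathlib

/-!
# Cauchy estimates for even functions with prescribed Taylor polynomial; two-jets

Owner helper9.
-/

set_option autoImplicit false
set_option linter.unusedSectionVars false

open Filter Topology Finset Asymptotics

namespace Pool.Agent.T6.H9.MV

lemma taylor_tail {G : ℂ → ℂ} {R M : ℝ} (hR : 1 < R) (hG : DiffContOnCl ℂ G (Metric.ball 0 R))
    (hM : ∀ z ∈ Metric.sphere (0 : ℂ) R, ‖G z‖ ≤ M) (N : ℕ)
    (h0 : ∀ m < N, iteratedDeriv m G 0 = 0) : ‖G 1‖ ≤ M * (1 / R) ^ N / (1 - 1 / R) := by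
  have hR0 : 0 < R := by linarith
  have h1 : (1 : ℂ) ∈ Metric.ball (0 : ℂ) R := by simpa using hR
  have h2 := Complex.hasSum_taylorSeries_on_ball hG.differentiableOn h1
  have h3 : ∀ m, ‖((m.factorial : ℂ))⁻¹ • ((1 : ℂ) - 0) ^ m • iteratedDeriv m G 0‖ ≤
      M * (1 / R) ^ m := by
    intro m
    have h4 := Complex.norm_iteratedDeriv_le_of_forall_mem_sphere_norm_le m hR0 hG hM
    rw [sub_zero, one_pow, one_smul, norm_smul, norm_inv, Complex.norm_natCast]
    have h5 : (0 : ℝ) < (m.factorial : ℝ) := by exact_mod_cast m.factorial_pos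
    calc ((m.factorial : ℝ))⁻¹ * ‖iteratedDeriv m G 0‖
        ≤ ((m.factorial : ℝ))⁻¹ * (m.factorial * M / R ^ m) := by gcongr
      _ = M * (1 / R) ^ m := by
        rw [one_div, inv_pow]
        field_simp
  set a : ℕ → ℂ := fun m => ((m.factorial : ℂ))⁻¹ • ((1 : ℂ) - 0) ^ m • iteratedDeriv m G 0 with ha
  have h4 : HasSum (fun m => a (m + N)) (G 1) := by
    rw [hasSum_nat_add_iff N]
    have h5 : ∑ m ∈ range N, a m = 0 := by
      refine Finset.sum_eq_zero fun m hm => ?_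
      rw [ha]
      simp only
      rw [h0 m (Finset.mem_range.1 hm)]
      simp
    rw [h5, add_zero]
    exact h2
  have hr0 : 0 ≤ 1 / R := by positivity
  have hr1 : 1 / R < 1 := by rw [div_lt_one hR0]; exact hR
  have h5 : HasSum (fun m : ℕ => M * (1 / R) ^ (m + N)) (M * (1 / R) ^ N / (1 - 1 / R)) := by
    have := (hasSum_geometric_of_lt_one hr0 hr1).mul_left (M * (1 / R) ^ N)
    rw [← div_eq_mul_inv] at this
    refine this.congr_fun fun m => ?_
    rw [pow_add]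
    ring
  rw [← h4.tsum_eq, ← h5.tsum_eq]
  exact (norm_tsum_le_tsum_norm (h5.summable.of_nonneg_of_le (fun _ => norm_nonneg _)
    fun m => h3 (m + N))).trans (Summable.tsum_le_tsum (fun m => h3 (m + N))
      (h5.summable.of_nonneg_of_le (fun _ => norm_nonneg _) fun m => h3 (m + N)) h5.summable)

lemma iteratedDeriv_odd_of_even {G : ℂ → ℂ} (hev : ∀ z, G (-z) = G z) {m : ℕ} (hm : Odd m) :
    iteratedDeriv m G 0 = 0 := by
  have h1 := iteratedDeriv_comp_neg m G 0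
  have h2 : (fun x => G (-x)) = G := funext hev
  rw [h2, neg_zero, hm.neg_one_pow, neg_one_smul] at h1
  exact self_eq_neg.1 h1

lemma iteratedDeriv_of_isBigO {G : ℂ → ℂ} {R : ℝ} (hR : 0 < R)
    (hG : DiffContOnCl ℂ G (Metric.ball 0 R)) {N : ℕ} (hO : G =O[𝓝 0] fun w => w ^ N) {m : ℕ}
    (hm : m < N) : iteratedDeriv m G 0 = 0 := by
  obtain ⟨C, hC⟩ := hO.bound
  obtain ⟨ε, hε, hεC⟩ := Metric.eventually_nhds_iff.1 hC
  have h1 : ∀ r : ℝ, 0 < r → r < ε → r < R → ‖iteratedDeriv m G 0‖ ≤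
      m.factorial * C * r ^ (N - m) := by
    intro r hr0 hrε hrR
    have h2 : DiffContOnCl ℂ G (Metric.ball 0 r) := hG.mono (Metric.ball_subset_ball hrR.le)
    have h3 := Complex.norm_iteratedDeriv_le_of_forall_mem_sphere_norm_le m hr0 h2
      (C := C * r ^ N) fun z hz => by
        have hz' : ‖z‖ = r := by simpa using hz
        have := hεC (y := z) (by rw [dist_zero_right, hz']; exact hrε)
        rwa [norm_pow, hz'] at this
    refine h3.trans (le_of_eq ?_)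
    have h4 : r ^ N = r ^ (N - m) * r ^ m := by rw [← pow_add, Nat.sub_add_cancel hm.le]
    rw [h4]
    field_simp
  have h2 : Tendsto (fun r : ℝ => m.factorial * C * r ^ (N - m)) (𝓝[>] 0) (𝓝 0) := by
    have h3 : Tendsto (fun r : ℝ => m.factorial * C * r ^ (N - m)) (𝓝 0)
        (𝓝 (m.factorial * C * 0 ^ (N - m))) := by
      apply Continuous.tendsto
      fun_prop
    rw [zero_pow (by omega), mul_zero] at h3
    exact h3.mono_left nhdsWithin_le_nhds
  have h3 : ‖iteratedDeriv m G 0‖ ≤ 0 := by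
    refine ge_of_tendsto h2 ?_
    have h4 : ∀ᶠ r : ℝ in 𝓝[>] 0, r < min ε R :=
      (gt_mem_nhds (lt_min hε hR)).filter_mono nhdsWithin_le_nhds
    filter_upwards [h4, self_mem_nhdsWithin] with r hr hr0
    exact h1 r hr0 (hr.trans_le (min_le_left _ _)) (hr.trans_le (min_le_right _ _))
  exact norm_le_zero_iff.1 h3

/-- the estimate for even functions vanishing to third order -/
lemma even_est {G : ℂ → ℂ} {R M : ℝ} (hR : 1 < R) (hG : DiffContOnCl ℂ G (Metric.ball 0 R))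
    (hM : ∀ z ∈ Metric.sphere (0 : ℂ) R, ‖G z‖ ≤ M) (hev : ∀ z, G (-z) = G z)
    (hO : G =O[𝓝 0] fun w => w ^ 3) : ‖G 1‖ ≤ M * (1 / R) ^ 4 / (1 - 1 / R) := by
  refine taylor_tail hR hG hM 4 fun m hm => ?_
  by_cases h3 : m = 3
  · subst h3
    exact iteratedDeriv_odd_of_even hev (by decide)
  · exact iteratedDeriv_of_isBigO (by linarith) hG hO (by omega)

/-- the function `f` has the expansion `1 + A w + (A²/2 + B) w² + O(w³)` at `0` -/
def Jet (f : ℂ → ℂ) (A B : ℂ) : Prop :=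
  (fun w => f w - (1 + A * w + (A ^ 2 / 2 + B) * w ^ 2)) =O[𝓝 0] fun w => w ^ 3

lemma isBigO_poly {p : ℂ → ℂ} (hp : Continuous p) :
    (fun w => w ^ 3 * p w) =O[𝓝 (0 : ℂ)] fun w : ℂ => w ^ 3 := by
  have h1 : p =O[𝓝 0] fun _ => (1 : ℂ) := (hp.tendsto 0).isBigO_one ℂ
  have h2 : (fun w : ℂ => w ^ 3) =O[𝓝 (0 : ℂ)] fun w : ℂ => w ^ 3 := isBigO_refl _ _
  simpa using h2.mul h1

lemma Jet.isBigO_one {f : ℂ → ℂ} {A B : ℂ} (h : Jet f A B) : f =O[𝓝 0] fun _ => (1 : ℂ) := by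
  have h1 : (fun w : ℂ => w ^ 3) =O[𝓝 0] fun _ => (1 : ℂ) := by
    have : Continuous fun w : ℂ => w ^ 3 := by fun_prop
    exact (this.tendsto 0).isBigO_one ℂ
  have h2 : (fun w : ℂ => 1 + A * w + (A ^ 2 / 2 + B) * w ^ 2) =O[𝓝 0] fun _ => (1 : ℂ) := by
    have : Continuous fun w : ℂ => 1 + A * w + (A ^ 2 / 2 + B) * w ^ 2 := by fun_prop
    exact (this.tendsto 0).isBigO_one ℂ
  have h3 := (h.trans h1).add h2
  simpa using h3

lemma Jet.mul {f g : ℂ → ℂ} {A B A' B' : ℂ} (hf : Jet f A B) (hg : Jet g A' B') :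
    Jet (fun w => f w * g w) (A + A') (B + B') := by
  unfold Jet at *
  have h1 := hf.mul (Jet.isBigO_one hg)
  have h2 : (fun w : ℂ => 1 + A * w + (A ^ 2 / 2 + B) * w ^ 2) =O[𝓝 0] fun _ => (1 : ℂ) := by
    have : Continuous fun w : ℂ => 1 + A * w + (A ^ 2 / 2 + B) * w ^ 2 := by fun_prop
    exact (this.tendsto 0).isBigO_one ℂ
  have h3 := hg.mul h2
  have h4 := isBigO_poly (p := fun w => A * (A' ^ 2 / 2 + B') + A' * (A ^ 2 / 2 + B) +
    (A ^ 2 / 2 + B) * (A' ^ 2 / 2 + B') * w) (by fun_prop)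
  simp only [mul_one] at h1 h3
  refine ((h1.add h3).add h4).congr_left fun w => ?_
  ring

lemma Jet.inv {f : ℂ → ℂ} {A B : ℂ} (hf : Jet f A B) (hc : Tendsto f (𝓝 0) (𝓝 1)) :
    Jet (fun w => (f w)⁻¹) (-A) (-B) := by
  have h1 : Jet (fun w => 1 + (-A) * w + ((-A) ^ 2 / 2 + (-B)) * w ^ 2) (-A) (-B) := by
    unfold Jet
    simp only [sub_self]
    exact isBigO_zero _ _
  have h2 := hf.mul h1
  have h3 : (fun w => f w * (1 + (-A) * w + ((-A) ^ 2 / 2 + (-B)) * w ^ 2) - 1) =O[𝓝 0]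
      fun w => w ^ 3 := by
    refine IsBigO.congr_left h2 fun w => ?_
    ring
  have h4 : (fun w => (f w)⁻¹) =O[𝓝 0] fun _ => (1 : ℂ) := by
    have := hc.inv₀ one_ne_zero
    exact this.isBigO_one ℂ
  have h5 := (h3.mul h4).neg_left
  simp only [mul_one] at h5
  unfold Jet
  refine h5.congr' ?_ EventuallyEq.rfl
  have h6 : ∀ᶠ w in 𝓝 (0 : ℂ), f w ≠ 0 := hc.eventually_ne one_ne_zero
  filter_upwards [h6] with w hw
  field_simp
  ring

lemma Jet.one : Jet (fun _ => 1) 0 0 := by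
  unfold Jet
  simp only [zero_mul, add_zero, ne_eq, OfNat.ofNat_ne_zero, not_false_eq_true, zero_pow, zero_div,
    sub_self]
  exact isBigO_zero _ _

lemma Jet.npow {f : ℂ → ℂ} {A B : ℂ} (hf : Jet f A B) (n : ℕ) :
    Jet (fun w => f w ^ n) (n * A) (n * B) := by
  induction n with
  | zero => simpa using Jet.one
  | succ n ih =>
    have h := ih.mul hf
    have h1 : ((n + 1 : ℕ) : ℂ) * A = n * A + A := by push_cast; ring
    have h2 : ((n + 1 : ℕ) : ℂ) * B = n * B + B := by push_cast; ring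
    rw [h1, h2]
    simpa only [pow_succ] using h

lemma Jet.zpow {f : ℂ → ℂ} {A B : ℂ} (hf : Jet f A B) (hc : Tendsto f (𝓝 0) (𝓝 1)) (n : ℤ) :
    Jet (fun w => f w ^ n) (n * A) (n * B) := by
  cases n with
  | ofNat n =>
    have := hf.npow n
    simpa using this
  | negSucc n =>
    have h1 := (hf.npow (n + 1)).inv (by simpa using hc.pow (n + 1))
    have h2 : ((Int.negSucc n : ℤ) : ℂ) * A = -(((n + 1 : ℕ) : ℂ) * A) := by
      rw [Int.negSucc_eq]; push_cast; ring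
    have h3 : ((Int.negSucc n : ℤ) : ℂ) * B = -(((n + 1 : ℕ) : ℂ) * B) := by
      rw [Int.negSucc_eq]; push_cast; ring
    rw [h2, h3]
    simpa only [zpow_negSucc] using h1

lemma Jet.prod {ι : Type*} (s : Finset ι) {f : ι → ℂ → ℂ} {A B : ι → ℂ}
    (h : ∀ i ∈ s, Jet (f i) (A i) (B i)) :
    Jet (fun w => ∏ i ∈ s, f i w) (∑ i ∈ s, A i) (∑ i ∈ s, B i) := by
  classical
  induction s using Finset.induction_on with
  | empty => simpa using Jet.one
  | insert i s hi ih =>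
    simp only [Finset.prod_insert hi, Finset.sum_insert hi]
    exact (h i (Finset.mem_insert_self _ _)).mul
      (ih fun j hj => h j (Finset.mem_insert_of_mem hj))

lemma Jet.quad (a b : ℂ) : Jet (fun w => 1 - a * w + b * w ^ 2) (-a) (b - a ^ 2 / 2) := by
  unfold Jet
  have h : (fun w : ℂ => 1 - a * w + b * w ^ 2 -
      (1 + -a * w + ((-a) ^ 2 / 2 + (b - a ^ 2 / 2)) * w ^ 2)) = fun _ => 0 := by
    funext w
    ring
  rw [h]
  exact isBigO_zero _ _

end Pool.Agent.T6.H9.MV
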