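import Mathlib

/-!
# Means over boxes of functions which factor through finite groups

Owner helper9.
-/

set_option autoImplicit false
set_option linter.unusedSectionVars false
set_option linter.style.haveILetI false

open Filter Topology Finset

namespace Pool.Agent.T6.H9.MV

section

variable {J : Type*} [Fintype J] [DecidableEq J]

/-- the box `∏ [-B_j, B_j]` in `ℤ^J` -/
noncomputable def box (B : J → ℕ) : Finset (J → ℤ) :=
  Fintype.piFinset fun j => Finset.Icc (-(B j : ℤ)) (B j)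

/-- the mean of a function over a finite set -/
noncomputable def avg {α : Type*} (s : Finset α) (F : α → ℂ) : ℂ := (∑ x ∈ s, F x) / (s.card : ℂ)

lemma mem_box {B : J → ℕ} {x : J → ℤ} : x ∈ box B ↔ ∀ j, |x j| ≤ (B j : ℤ) := by
  unfold box
  rw [Fintype.mem_piFinset]
  refine forall_congr' fun j => ?_
  rw [Finset.mem_Icc, abs_le]

lemma card_box_nat (B : J → ℕ) : (box B).card = ∏ j, (2 * B j + 1) := by
  unfold box
  rw [Fintype.card_piFinset]
  refine Finset.prod_congr rfl fun j _ => ?_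
  rw [Int.card_Icc]
  omega

lemma card_box (B : J → ℕ) : ((box B).card : ℂ) = ∏ j, (2 * (B j : ℂ) + 1) := by
  rw [card_box_nat]
  push_cast
  rfl

lemma card_box_pos (B : J → ℕ) : 0 < (box B).card := by
  rw [card_box_nat]
  exact Finset.prod_pos fun j _ => by omega

/-- number of integers in `[-B, B]` in a residue class -/
noncomputable def cnt (m : ℕ) (B : ℕ) (r : ZMod m) : ℕ :=
  ((Finset.Icc (-(B : ℤ)) B).filter (fun x : ℤ => (x : ZMod m) = r)).card

lemma cnt_bound (m : ℕ) [NeZero m] (B : ℕ) (r : ZMod m) :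
    |(cnt m B r : ℝ) - (2 * B + 1) / m| ≤ 1 := by
  have hm : (0 : ℤ) < (m : ℤ) := by exact_mod_cast Nat.pos_of_ne_zero (NeZero.ne m)
  have hm' : (0 : ℚ) < (m : ℚ) := by exact_mod_cast Nat.pos_of_ne_zero (NeZero.ne m)
  have h1 : (Finset.Icc (-(B : ℤ)) B).filter (fun x : ℤ => (x : ZMod m) = r) =
      (Finset.Ico (-(B : ℤ)) (B + 1)).filter (fun x : ℤ => x ≡ (r.val : ℤ) [ZMOD (m : ℤ)]) := by
    ext x
    simp only [Finset.mem_filter, Finset.mem_Icc, Finset.mem_Ico]
    have h2 : ((x : ZMod m) = r) ↔ x ≡ (r.val : ℤ) [ZMOD (m : ℤ)] := by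
      rw [← ZMod.intCast_eq_intCast_iff]
      simp
    rw [h2]
    constructor
    · rintro ⟨⟨h3, h4⟩, h5⟩; exact ⟨⟨h3, by omega⟩, h5⟩
    · rintro ⟨⟨h3, h4⟩, h5⟩; exact ⟨⟨h3, by omega⟩, h5⟩
  have h2 := Int.Ico_filter_modEq_card (-(B : ℤ)) (B + 1) hm (r.val : ℤ)
  rw [← h1] at h2
  have h3 : ((cnt m B r : ℕ) : ℤ) = max (⌈(((B + 1 : ℤ) : ℚ) - (r.val : ℤ)) / ((m : ℤ) : ℚ)⌉ -
      ⌈(((-(B : ℤ)) : ℤ) - ((r.val : ℤ) : ℚ)) / ((m : ℤ) : ℚ)⌉) 0 := by
    unfold cnt
    rw [h2]
  set u : ℚ := (((B + 1 : ℤ) : ℚ) - (r.val : ℤ)) / ((m : ℤ) : ℚ) with hu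
  set w : ℚ := (((-(B : ℤ)) : ℤ) - ((r.val : ℤ) : ℚ)) / ((m : ℤ) : ℚ) with hw
  have h4 : u - w = (2 * B + 1) / m := by
    rw [hu, hw]
    push_cast
    rw [← sub_div]
    congr 1
    ring
  have h5 : w ≤ u := by
    have : 0 ≤ u - w := by rw [h4]; positivity
    linarith
  have h6 : ⌈w⌉ ≤ ⌈u⌉ := Int.ceil_mono h5
  rw [max_eq_left (by linarith)] at h3
  have h7 : ((cnt m B r : ℕ) : ℚ) = (⌈u⌉ : ℚ) - ⌈w⌉ := by exact_mod_cast h3
  have h8 : |((cnt m B r : ℕ) : ℚ) - (2 * B + 1) / m| ≤ 1 := by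
    rw [h7, ← h4, abs_le]
    have a1 := Int.le_ceil u
    have a2 := Int.ceil_lt_add_one u
    have a3 := Int.le_ceil w
    have a4 := Int.ceil_lt_add_one w
    constructor <;> linarith
  have h9 : ((|((cnt m B r : ℕ) : ℚ) - (2 * B + 1) / m| : ℚ) : ℝ) ≤ ((1 : ℚ) : ℝ) := by
    exact_mod_cast h8
  push_cast at h9
  exact h9

lemma tendsto_two_mul_add_one : Tendsto (fun B : ℕ => (2 * (B : ℝ) + 1)) atTop atTop :=
  tendsto_atTop_add_const_right _ _ (tendsto_natCast_atTop_atTop.const_mul_atTop (by norm_num))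

lemma tendsto_cnt_real (m : ℕ) [NeZero m] (r : ZMod m) :
    Tendsto (fun B : ℕ => (cnt m B r : ℝ) / (2 * B + 1)) atTop (𝓝 (1 / m)) := by
  have h1 : Tendsto (fun B : ℕ => (1 : ℝ) / (2 * B + 1)) atTop (𝓝 0) :=
    tendsto_const_nhds.div_atTop tendsto_two_mul_add_one
  have h2 : Tendsto (fun B : ℕ => (cnt m B r : ℝ) / (2 * B + 1) - 1 / m) atTop (𝓝 0) := by
    refine squeeze_zero_norm (fun B => ?_) h1
    have h3 : (0 : ℝ) < 2 * B + 1 := by positivity
    have hm : (m : ℝ) ≠ 0 := by exact_mod_cast NeZero.ne m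
    have h4 : (cnt m B r : ℝ) / (2 * B + 1) - 1 / m =
        ((cnt m B r : ℝ) - (2 * B + 1) / m) / (2 * B + 1) := by
      field_simp
    rw [h4, Real.norm_eq_abs, abs_div, abs_of_pos h3]
    exact div_le_div_of_nonneg_right (cnt_bound m B r) h3.le
  have h5 := h2.add_const ((1 : ℝ) / m)
  simpa using h5

lemma tendsto_cnt (m : ℕ) [NeZero m] (r : ZMod m) :
    Tendsto (fun B : ℕ => (cnt m B r : ℂ) / (2 * B + 1)) atTop (𝓝 (1 / m)) := by
  have h1 := (Complex.continuous_ofReal.tendsto _).comp (tendsto_cnt_real m r)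
  have h2 : ((1 / m : ℝ) : ℂ) = 1 / m := by push_cast; rfl
  rw [h2] at h1
  refine h1.congr fun B => ?_
  simp

lemma tendsto_eval (j : J) : Tendsto (fun B : J → ℕ => B j) atTop atTop :=
  tendsto_atTop.2 fun n => (eventually_ge_atTop (fun _ : J => n)).mono fun _ h => h j

theorem tendsto_avg_zmod (m : ℕ) [NeZero m] (G : (J → ZMod m) → ℂ) :
    Tendsto (fun B : J → ℕ => avg (box B) (fun x => G (fun j => (x j : ZMod m)))) atTop
      (𝓝 ((∑ r, G r) / (Fintype.card (J → ZMod m) : ℂ))) := by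
  have h1 : ∀ B : J → ℕ, avg (box B) (fun x => G (fun j => (x j : ZMod m))) =
      ∑ r : J → ZMod m, G r * ∏ j, ((cnt m (B j) (r j) : ℂ) / (2 * (B j : ℂ) + 1)) := by
    intro B
    unfold avg
    have h2 : ∑ x ∈ box B, G (fun j => (x j : ZMod m)) =
        ∑ r : J → ZMod m, G r * ∏ j, (cnt m (B j) (r j) : ℂ) := by
      rw [← Finset.sum_fiberwise (box B) (fun x => (fun j => (x j : ZMod m) : J → ZMod m))]
      refine Finset.sum_congr rfl fun r _ => ?_
      have h3 : ∑ x ∈ (box B).filter (fun x => (fun j => (x j : ZMod m)) = r),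
          G (fun j => (x j : ZMod m)) =
          ∑ x ∈ (box B).filter (fun x => (fun j => (x j : ZMod m)) = r), G r := by
        refine Finset.sum_congr rfl fun x hx => ?_
        rw [(Finset.mem_filter.1 hx).2]
      rw [h3, Finset.sum_const, nsmul_eq_mul, mul_comm]
      congr 1
      have h4 : (box B).filter (fun x => (fun j => (x j : ZMod m)) = r) =
          Fintype.piFinset fun j =>
            (Finset.Icc (-(B j : ℤ)) (B j)).filter (fun x : ℤ => (x : ZMod m) = r j) := by
        ext x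
        simp only [Finset.mem_filter, Fintype.mem_piFinset, box]
        constructor
        · rintro ⟨h5, h6⟩ j
          exact ⟨h5 j, congrFun h6 j⟩
        · intro h5
          exact ⟨fun j => (h5 j).1, funext fun j => (h5 j).2⟩
      rw [h4, Fintype.card_piFinset]
      push_cast
      rfl
    rw [h2, card_box, Finset.sum_div]
    refine Finset.sum_congr rfl fun r _ => ?_
    rw [Finset.prod_div_distrib, mul_div_assoc]
  have h2 : (∑ r, G r) / (Fintype.card (J → ZMod m) : ℂ) =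
      ∑ r : J → ZMod m, G r * ∏ _j : J, (1 / (m : ℂ)) := by
    rw [Finset.sum_div]
    refine Finset.sum_congr rfl fun r _ => ?_
    rw [Finset.prod_const, Finset.card_univ, Fintype.card_fun, ZMod.card, div_eq_mul_inv]
    push_cast
    rw [one_div, inv_pow]
  rw [h2]
  refine Tendsto.congr (fun B => (h1 B).symm) ?_
  refine tendsto_finsetSum _ fun r _ => Tendsto.const_mul _ ?_
  refine tendsto_finsetProd _ fun j _ => ?_
  exact (tendsto_cnt m (r j)).comp (tendsto_eval j)

/-- shift-invariance argument: the mean over the source of a function factoring through a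
map compatible with translations is the mean over the target -/
lemma mean_eq_of_shift {Q R : Type*} [AddCommGroup Q] [Fintype Q] [AddCommGroup R] [Fintype R]
    (ψ : R → Q) (h : ∀ q : Q, ∃ y : R, ∀ r, ψ (r + y) = ψ r + q) (g : Q → ℂ) :
    (∑ r, g (ψ r)) / (Fintype.card R : ℂ) = (∑ q, g q) / (Fintype.card Q : ℂ) := by
  have hQ : (Fintype.card Q : ℂ) ≠ 0 := by exact_mod_cast Fintype.card_ne_zero
  have hR : (Fintype.card R : ℂ) ≠ 0 := by exact_mod_cast Fintype.card_ne_zero
  choose y hy using h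
  have h1 : ∀ q : Q, ∑ r, g (ψ r) = ∑ r, g (ψ r + q) := by
    intro q
    rw [← Equiv.sum_comp (Equiv.addRight (y q))]
    refine Finset.sum_congr rfl fun r _ => ?_
    rw [Equiv.coe_addRight, hy]
  have h2 : (Fintype.card Q : ℂ) * ∑ r, g (ψ r) = (Fintype.card R : ℂ) * ∑ q, g q := by
    have h3 : (Fintype.card Q : ℂ) * ∑ r, g (ψ r) = ∑ q : Q, ∑ r, g (ψ r + q) := by
      rw [← Finset.sum_congr rfl (fun q _ => h1 q), Finset.sum_const, Finset.card_univ,
        nsmul_eq_mul]
    rw [h3, Finset.sum_comm]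
    have h4 : ∀ r : R, ∑ q, g (ψ r + q) = ∑ q, g q := fun r =>
      Equiv.sum_comp (Equiv.addLeft (ψ r)) g
    rw [Finset.sum_congr rfl (fun r _ => h4 r), Finset.sum_const, Finset.card_univ,
      nsmul_eq_mul]
  rw [div_eq_div_iff hR hQ]
  linear_combination h2

/-- **Means over boxes**: the mean of a function which factors through a surjection onto a finite
group tends to the mean over that group as all sides of the box tend to infinity. -/
theorem tendsto_avg_hom {Q : Type*} [AddCommGroup Q] [Fintype Q] (φ : (J → ℤ) →+ Q)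
    (hφ : Function.Surjective φ) (g : Q → ℂ) :
    Tendsto (fun B : J → ℕ => avg (box B) (fun x => g (φ x))) atTop
      (𝓝 ((∑ q, g q) / (Fintype.card Q : ℂ))) := by
  set m := Fintype.card Q with hm
  haveI : NeZero m := ⟨Fintype.card_ne_zero⟩
  -- the map on residues
  let ψ : (J → ZMod m) → Q := fun r => φ (fun j => ((r j).val : ℤ))
  have hkill : ∀ x y : J → ℤ, (∀ j, (x j : ZMod m) = (y j : ZMod m)) → φ x = φ y := by
    intro x y hxy
    have h1 : ∀ j, ∃ c : ℤ, x j = y j + m * c := by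
      intro j
      have h2 := (ZMod.intCast_eq_intCast_iff_dvd_sub _ _ _).1 (hxy j)
      obtain ⟨c, hc⟩ := h2
      exact ⟨-c, by linarith⟩
    choose c hc using h1
    have h3 : x = y + m • c := by
      funext j
      simp [hc j]
    rw [h3, map_add, map_nsmul, hm, card_nsmul_eq_zero, add_zero]
  have hψφ : ∀ x : J → ℤ, ψ (fun j => (x j : ZMod m)) = φ x := by
    intro x
    refine hkill _ _ fun j => ?_
    simp
  have h1 := tendsto_avg_zmod (J := J) m (fun r => g (ψ r))
  have h2 : (∑ r, g (ψ r)) / (Fintype.card (J → ZMod m) : ℂ) =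
      (∑ q, g q) / (Fintype.card Q : ℂ) := by
    refine mean_eq_of_shift ψ (fun q => ?_) g
    obtain ⟨x, hx⟩ := hφ q
    refine ⟨fun j => (x j : ZMod m), fun r => ?_⟩
    rw [← hx]
    change φ _ = φ _ + φ x
    rw [← map_add]
    refine hkill _ _ fun j => ?_
    simp
  rw [h2] at h1
  refine h1.congr fun B => ?_
  unfold avg
  simp only [hψφ]

/-- the mean of a function on a finite type -/
noncomputable def fmean {α : Type*} (g : α → ℂ) : ℂ := (∑ᶠ t, g t) / (Nat.card α : ℂ)

lemma fmean_eq {α : Type*} [Fintype α] (g : α → ℂ) :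
    fmean g = (∑ t, g t) / (Fintype.card α : ℂ) := by
  unfold fmean
  rw [finsum_eq_sum_of_fintype, Nat.card_eq_fintype_card]

theorem tendsto_avg_hom' {Q : Type*} [AddCommGroup Q] [Finite Q] (φ : (J → ℤ) →+ Q)
    (hφ : Function.Surjective φ) (g : Q → ℂ) :
    Tendsto (fun B : J → ℕ => avg (box B) (fun x => g (φ x))) atTop (𝓝 (fmean g)) := by
  haveI := Fintype.ofFinite Q
  rw [fmean_eq]
  exact tendsto_avg_hom φ hφ g

lemma fmean_comp {Q R : Type*} [AddCommGroup Q] [AddCommGroup R] [Finite R] (π : R →+ Q)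
    (hπ : Function.Surjective π) (g : Q → ℂ) : fmean (fun c => g (π c)) = fmean g := by
  haveI : Finite Q := Finite.of_surjective π hπ
  haveI := Fintype.ofFinite Q
  haveI := Fintype.ofFinite R
  rw [fmean_eq, fmean_eq]
  refine mean_eq_of_shift π (fun q => ?_) g
  obtain ⟨y, hy⟩ := hπ q
  exact ⟨y, fun r => by rw [map_add, hy]⟩

lemma fmean_pi {I : Type*} [Fintype I] {Q : I → Type*} [∀ i, Finite (Q i)]
    (g : ∀ i, Q i → ℂ) :
    fmean (fun c : ∀ i, Q i => ∏ i, g i (c i)) = ∏ i, fmean (g i) := by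
  classical
  haveI : ∀ i, Fintype (Q i) := fun i => Fintype.ofFinite _
  rw [fmean_eq, Finset.prod_congr rfl fun i _ => fmean_eq (g i), Finset.prod_div_distrib,
    Finset.prod_univ_sum, Fintype.card_pi]
  push_cast
  congr 1

lemma fmean_sub {α : Type*} [Finite α] (f g : α → ℂ) :
    fmean (fun t => f t - g t) = fmean f - fmean g := by
  haveI := Fintype.ofFinite α
  rw [fmean_eq, fmean_eq, fmean_eq, Finset.sum_sub_distrib, sub_div]

open Classical in
lemma fmean_ite {α : Type*} [Finite α] (a : α) :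
    fmean (fun t => if t = a then (1 : ℂ) else 0) = 1 / (Nat.card α : ℂ) := by
  haveI := Fintype.ofFinite α
  rw [fmean_eq, Nat.card_eq_fintype_card]
  simp

lemma norm_fmean_sub_one_le {α : Type*} [Finite α] [Nonempty α] {g : α → ℂ} {β : ℝ}
    (h : ∀ t, ‖g t - 1‖ ≤ β) : ‖fmean g - 1‖ ≤ β := by
  haveI := Fintype.ofFinite α
  have hc : (0 : ℝ) < (Fintype.card α : ℝ) := by exact_mod_cast Fintype.card_pos
  have hc' : (Fintype.card α : ℂ) ≠ 0 := by exact_mod_cast hc.ne'
  have h1 : fmean g - 1 = (∑ t, (g t - 1)) / (Fintype.card α : ℂ) := by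
    rw [fmean_eq, Finset.sum_sub_distrib]
    simp only [Finset.sum_const, Finset.card_univ, nsmul_eq_mul, mul_one]
    field_simp
  rw [h1, norm_div, Complex.norm_natCast, div_le_iff₀ hc]
  refine (norm_sum_le _ _).trans ?_
  refine (Finset.sum_le_sum fun t _ => h t).trans (le_of_eq ?_)
  rw [Finset.sum_const, Finset.card_univ, nsmul_eq_mul, mul_comm]

end

end Pool.Agent.T6.H9.MV
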