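import Pool.Agent.Y773.HK.Eul
import Pool.Agent.Y772.NZ.Zeta
import Pool.Agent.T6.H9.MV.Sieve

/-!
# The Euler product of the Dedekind zeta function

Owner helper9.
-/

set_option autoImplicit false
set_option linter.unusedSectionVars false

open Filter Topology Finset NumberField IsDedekindDomain

namespace Pool.Agent.T6.H9.MV

section

variable {K : Type} [Field K] [NumberField K]

/-- the primes as prime ideals -/
def toPr : HeightOneSpectrum (𝓞 K) ≃ {𝔭 : Ideal (𝓞 K) // Prime 𝔭} where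
  toFun v := ⟨v.asIdeal, v.prime⟩
  invFun 𝔭 := ⟨𝔭.1, Ideal.isPrime_of_prime 𝔭.2, 𝔭.2.ne_zero⟩
  left_inv v := rfl
  right_inv 𝔭 := rfl

/-- **Euler product** of the Dedekind zeta function. -/
theorem hasProd_zeta {w : ℂ} (hw : 1 < w.re) :
    HasProd (fun v : HeightOneSpectrum (𝓞 K) => (1 - (qv v : ℂ) ^ (-w))⁻¹) (dedekindZeta K w) := by
  have h1 := Pool.Agent.Y773.hasSum_log (Pool.Agent.Y772.NZ.one_norm (K := K)) hw
  have h2 := h1.cexp
  rw [← Pool.Agent.Y772.DK.LI_eq_exp _ (Pool.Agent.Y772.NZ.one_norm (K := K)) hw,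
    Pool.Agent.Y772.NZ.LI_one K hw] at h2
  rw [← toPr.hasProd_iff] at h2
  refine h2.congr_fun fun v => ?_
  simp only [Function.comp_apply]
  have hz := Pool.Agent.Y773.norm_zz_lt (Pool.Agent.Y772.NZ.one_norm (K := K)) hw v.prime
  have h3 : Pool.Agent.Y773.zz (Pool.Agent.Y772.NZ.one K) w v.asIdeal = (qv v : ℂ) ^ (-w) := by
    unfold Pool.Agent.Y773.zz
    rw [Pool.Agent.Y772.NZ.one_ne K v.prime.ne_zero, one_mul]
  rw [h3] at hz
  change _ = Complex.exp (-Complex.log (1 - Pool.Agent.Y773.zz (Pool.Agent.Y772.NZ.one K) w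
    v.asIdeal))
  rw [h3]
  have hne : 1 - (qv v : ℂ) ^ (-w) ≠ 0 := by
    intro h0
    have h5 : (qv v : ℂ) ^ (-w) = 1 := (sub_eq_zero.mp h0).symm
    rw [h5, norm_one] at hz
    exact lt_irrefl _ hz
  rw [Complex.exp_neg, Complex.exp_log hne]

lemma zeta_ne_zero {w : ℂ} (hw : 1 < w.re) : dedekindZeta K w ≠ 0 := by
  have h1 := Pool.Agent.Y772.DK.LI_eq_exp _ (Pool.Agent.Y772.NZ.one_norm (K := K)) hw
  rw [Pool.Agent.Y772.NZ.LI_one K hw] at h1
  rw [h1]
  exact Complex.exp_ne_zero _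

end

/-- integer powers of convergent products with nonzero value -/
lemma hasProd_zpow {P : Type*} {f : P → ℂ} {a : ℂ} (h : HasProd f a) (ha : a ≠ 0) (n : ℤ) :
    HasProd (fun v => f v ^ n) (a ^ n) := by
  have h1 : ∀ m : ℕ, HasProd (fun v => f v ^ m) (a ^ m) := by
    intro m
    induction m with
    | zero => simp
    | succ m ih =>
      have := ih.mul h
      simpa [pow_succ] using this
  cases n with
  | ofNat m => simpa using h1 m
  | negSucc m =>
    have h2 := (h1 (m + 1)).inv₀ (pow_ne_zero _ ha)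
    simpa only [zpow_negSucc] using h2

end Pool.Agent.T6.H9.MV
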