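import Pool.Agent.T6.H9.MV.Local
import Pool.Agent.T6.H9.MV.Zeta

/-!
# Assembly: the mean value of products of L-functions over the family

Owner helper9.
-/

set_option autoImplicit false
set_option linter.unusedSectionVars false
set_option linter.unusedVariables false
set_option linter.style.haveILetI false

open Filter Topology Finset NumberField IsDedekindDomain

namespace Pool.Agent.T6.H9.MV

section

variable {K : Type} [Field K] [NumberField K] {r : ℕ}

/-! ### holomorphy -/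

/-- the region `Re s_k > c` -/
def Om (r : ℕ) (c : ℝ) : Set (Fin r → ℂ) := {s | ∀ k, c < (s k).re}

lemma isOpen_Om (r : ℕ) (c : ℝ) : IsOpen (Om r c) := by
  unfold Om
  rw [Set.setOf_forall]
  exact isOpen_iInter_of_finite fun k =>
    isOpen_lt continuous_const (Complex.continuous_re.comp (continuous_apply k))

lemma ball_Om {c δ : ℝ} {x : Fin r → ℂ} (hx : x ∈ Om r (c + δ)) : Metric.ball x δ ⊆ Om r c := by
  intro y hy k
  have h1 : ‖(y - x) k‖ ≤ ‖y - x‖ := norm_le_pi_norm (y - x) k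
  rw [Metric.mem_ball, dist_eq_norm] at hy
  have h2 : |((y - x) k).re| ≤ ‖(y - x) k‖ := Complex.abs_re_le_norm _
  have h3 : ((y - x) k).re = (y k).re - (x k).re := by simp
  rw [h3, abs_le] at h2
  have h4 := hx k
  linarith [h2.1]

lemma exists_delta {c : ℝ} {x : Fin r → ℂ} (hx : x ∈ Om r c) :
    ∃ δ : ℝ, 0 < δ ∧ x ∈ Om r (c + δ + δ) := by
  have h1 : ∀ k, ∀ᶠ δ : ℝ in 𝓝[>] 0, c + δ + δ < (x k).re := by
    intro k
    have h2 : Tendsto (fun δ : ℝ => c + δ + δ) (𝓝[>] 0) (𝓝 (c + 0 + 0)) := by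
      have : Continuous fun δ : ℝ => c + δ + δ := by fun_prop
      exact (this.tendsto 0).mono_left nhdsWithin_le_nhds
    refine h2.eventually (gt_mem_nhds ?_)
    simpa using hx k
  have h2 : ∀ᶠ δ : ℝ in 𝓝[>] 0, ∀ k, c + δ + δ < (x k).re := eventually_all.2 h1
  obtain ⟨δ, hδ1, hδ2⟩ := (h2.and self_mem_nhdsWithin).exists
  exact ⟨δ, hδ2, hδ1⟩

lemma diff_prod {E ι : Type*} [NormedAddCommGroup E] [NormedSpace ℂ E] (s : Finset ι)
    {f : ι → E → ℂ} {x : E} (h : ∀ i ∈ s, DifferentiableAt ℂ (f i) x) :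
    DifferentiableAt ℂ (fun y => ∏ i ∈ s, f i y) x := by
  classical
  induction s using Finset.induction_on with
  | empty => simp
  | insert i s hi ih =>
    simp only [Finset.prod_insert hi]
    exact (h i (Finset.mem_insert_self _ _)).mul (ih fun j hj => h j (Finset.mem_insert_of_mem hj))

lemma diff_div {E : Type*} [NormedAddCommGroup E] [NormedSpace ℂ E]
    {f : E → ℂ} {x : E} (h : DifferentiableAt ℂ f x) (c : ℂ) :
    DifferentiableAt ℂ (fun y => f y / c) x := by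
  simp only [div_eq_mul_inv]
  exact h.mul_const _

lemma diff_cpow (v : HeightOneSpectrum (𝓞 K)) (f : (Fin r → ℂ) → ℂ) {x : Fin r → ℂ}
    (hf : DifferentiableAt ℂ f x) : DifferentiableAt ℂ (fun s => (qv v : ℂ) ^ (f s)) x := by
  have h0 : (qv v : ℂ) ≠ 0 := by exact_mod_cast qv_ne_zero v
  exact hf.const_cpow (Or.inl h0)

lemma diff_loc1 (v : HeightOneSpectrum (𝓞 K)) (t : kv v × kv v) (k : Fin r) {x : Fin r → ℂ}
    (hx : 3 / 4 < (x k).re) : DifferentiableAt ℂ (fun s : Fin r → ℂ => loc1 v t (s k)) x := by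
  have hne := loc1_ne_zero v t hx.le
  unfold loc1 at hne ⊢
  split_ifs with h6
  · fun_prop
  · rw [if_neg h6] at hne
    have hne' : LD (qv v) (trv v t) (epv v t) ((qv v : ℂ) ^ (-(x k))) ≠ 0 := by
      intro h
      rw [h, inv_zero] at hne
      exact hne rfl
    have h1 : DifferentiableAt ℂ (fun s : Fin r → ℂ => (qv v : ℂ) ^ (-(s k))) x :=
      diff_cpow v _ (by fun_prop)
    have h2 : DifferentiableAt ℂ
        (fun s : Fin r → ℂ => LD (qv v) (trv v t) (epv v t) ((qv v : ℂ) ^ (-(s k)))) x := by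
      unfold LD
      fun_prop
    exact h2.inv hne'

/-- the correction factors are holomorphic -/
lemma diff_hloc (n : Fin r → ℤ) (v : HeightOneSpectrum (𝓞 K)) {x : Fin r → ℂ}
    (hx : x ∈ Om r (3 / 4)) : DifferentiableAt ℂ (fun s => hloc n s v) x := by
  have h1 : DifferentiableAt ℂ (fun s => fmean (gl n s v)) x := by
    have h2 : (fun s : Fin r → ℂ => fmean (gl n s v)) =
        fun s => (∑ t, gl n s v t) / (Fintype.card (kv v × kv v) : ℂ) := by
      funext s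
      rw [fmean_eq]
    rw [h2]
    refine diff_div (DifferentiableAt.fun_sum fun t _ => ?_) _
    unfold gl
    refine diff_prod _ fun k _ => ?_
    exact (diff_loc1 v t k (hx k)).zpow (Or.inl (loc1_ne_zero v t (hx k).le))
  have h2 : DifferentiableAt ℂ (fun s => Zl n s v) x := by
    unfold Zl
    refine diff_prod _ fun p _ => ?_
    have h3 : DifferentiableAt ℂ
        (fun s : Fin r → ℂ => 1 - (qv v : ℂ) ^ (-(s p.1 + s p.2 - 1))) x :=
      (differentiableAt_const _).sub (diff_cpow v _ (by fun_prop))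
    exact h3.zpow (Or.inl (Zl_factor_ne_zero v (hx p.1).le (hx p.2).le))
  unfold hloc
  exact (diff_div (h1.sub_const _) _).mul h2

variable (K) in
/-- the correction function -/
noncomputable def Hf (n : Fin r → ℤ) (s : Fin r → ℂ) : ℂ :=
  ∏' v : HeightOneSpectrum (𝓞 K), hloc n s v

theorem differentiableOn_Hf (n : Fin r → ℤ) : DifferentiableOn ℂ (Hf K n) (Om r (3 / 4)) := by
  intro x hx
  obtain ⟨δ, hδ, hxδ⟩ := exists_delta hx
  obtain ⟨β, hβ, hb⟩ := hloc_bound (K := K) n hδ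
  have h1 : TendstoUniformlyOn (fun (D : Finset (HeightOneSpectrum (𝓞 K))) s =>
      ∏ v ∈ D, hloc n s v) (Hf K n) atTop (Om r (3 / 4 + δ)) :=
    tendstoUniformlyOn_prod hβ fun v s hs => hb s hs v
  have h2 := differentiableOn_of_tendstoUniformlyOn (U := Om r (3 / 4 + δ))
    (V := Om r (3 / 4 + δ + δ)) hδ (isOpen_Om _ _) (fun y hy => ball_Om hy) (fun D => by
      intro y hy
      have hy' : y ∈ Om r (3 / 4) := fun k => by linarith [hy k]
      exact (diff_prod D fun v _ => diff_hloc n v hy').differentiableWithinAt) h1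
  exact ((h2 x hxδ).differentiableAt ((isOpen_Om _ _).mem_nhds hxδ)).differentiableWithinAt

/-! ### real points -/

lemma LD_real_pos {q a e ρ T : ℝ} (hq : 0 < q) (h : |a| ≤ 2 * √q)
    (he : e = 1 ∨ (e = 0 ∧ |a| ≤ √q)) (hT : √q * |T| ≤ ρ) (hρ : ρ < 1) :
    0 < 1 - a * T + e * q * T ^ 2 := by
  have hsq : 0 ≤ √q := Real.sqrt_nonneg _
  rcases he with he | ⟨he, ha⟩
  · rw [he, one_mul]
    have h1 : a * T ≤ 2 * (√q * |T|) := by
      calc a * T ≤ |a * T| := le_abs_self _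
        _ = |a| * |T| := abs_mul _ _
        _ ≤ 2 * √q * |T| := mul_le_mul_of_nonneg_right h (abs_nonneg _)
        _ = _ := by ring
    have h2 : q * T ^ 2 = (√q * |T|) ^ 2 := by
      rw [mul_pow, Real.sq_sqrt hq.le, sq_abs]
    rw [h2]
    nlinarith [sq_nonneg (1 - √q * |T|)]
  · rw [he]
    have h1 : a * T ≤ √q * |T| := by
      calc a * T ≤ |a * T| := le_abs_self _
        _ = |a| * |T| := abs_mul _ _
        _ ≤ √q * |T| := mul_le_mul_of_nonneg_right ha (abs_nonneg _)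
    linarith

lemma cpow_real (v : HeightOneSpectrum (𝓞 K)) {s : ℂ} (hs : s.im = 0) :
    (qv v : ℂ) ^ (-s) = (((qv v : ℝ) ^ (-s.re) : ℝ) : ℂ) := by
  have h0 : (0 : ℝ) ≤ qv v := (qv_pos v).le
  rw [Complex.ofReal_cpow h0]
  have h1 : ((-s.re : ℝ) : ℂ) = -s := by
    apply Complex.ext
    · simp
    · simp [hs]
  rw [h1]
  push_cast
  rfl

lemma loc1_real (v : HeightOneSpectrum (𝓞 K)) (t : kv v × kv v) {s : ℂ} (hs : 3 / 4 ≤ s.re)
    (hs0 : s.im = 0) : ∃ y : ℝ, 0 < y ∧ loc1 v t s = y := by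
  unfold loc1
  split_ifs with h6
  · exact ⟨1, one_pos, by simp⟩
  · have hG := good_v h6
    have hk := kappa_le' v hs
    rw [cpow_real v hs0] at hk ⊢
    rw [Complex.norm_real, Real.norm_eq_abs] at hk
    have h1 := LD_real_pos (qv_pos v) (hG.bound t) (hG.eps t) hk rho0_lt_one
    refine ⟨(1 - trv v t * (qv v : ℝ) ^ (-s.re) + epv v t * qv v *
      ((qv v : ℝ) ^ (-s.re)) ^ 2)⁻¹, inv_pos.2 h1, ?_⟩
    unfold LD
    push_cast
    rfl

lemma loc1_zero (v : HeightOneSpectrum (𝓞 K)) (s : ℂ) : loc1 v 0 s = 1 := by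
  unfold loc1
  split_ifs with h6
  · rfl
  · obtain ⟨h1, h2⟩ := zero_v h6
    rw [h1, h2]
    unfold LD
    simp

lemma gl_zero (n : Fin r → ℤ) (s : Fin r → ℂ) (v : HeightOneSpectrum (𝓞 K)) : gl n s v 0 = 1 := by
  unfold gl
  simp [loc1_zero]

lemma hloc_ne_zero (n : Fin r → ℤ) (v : HeightOneSpectrum (𝓞 K)) {s : Fin r → ℂ}
    (hs : s ∈ Om r (3 / 4)) (hs0 : ∀ k, (s k).im = 0) : hloc n s v ≠ 0 := by
  classical
  have h1 : ∀ t : kv v × kv v, ∃ y : ℝ, 0 < y ∧ gl n s v t = y := by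
    intro t
    choose y hy0 hy using fun k => loc1_real v t (hs k).le (hs0 k)
    refine ⟨∏ k, y k ^ n k, Finset.prod_pos fun k _ => zpow_pos (hy0 k) _, ?_⟩
    unfold gl
    push_cast
    refine Finset.prod_congr rfl fun k _ => ?_
    rw [hy k]
  choose y hy0 hy using h1
  have hcard : (Fintype.card (kv v × kv v) : ℝ) = (qv v : ℝ) ^ 2 := by
    rw [Fintype.card_prod, card_kv']
    push_cast
    ring
  have hq2 : (2 : ℝ) ≤ qv v := by exact_mod_cast two_le_qv v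
  have h2 : fmean (gl n s v) - 1 / (qv v : ℂ) ^ 10 =
      (((∑ t, y t) / (qv v : ℝ) ^ 2 - 1 / (qv v : ℝ) ^ 10 : ℝ) : ℂ) := by
    rw [fmean_eq]
    have h3 : (Fintype.card (kv v × kv v) : ℂ) = (qv v : ℂ) ^ 2 := by
      exact_mod_cast hcard
    rw [h3]
    push_cast
    simp only [hy]
  have h3 : 0 < (∑ t, y t) / (qv v : ℝ) ^ 2 - 1 / (qv v : ℝ) ^ 10 := by
    have h4 : (1 : ℝ) ≤ ∑ t, y t := by
      have h5 : y 0 = 1 := by
        have h6 := hy 0
        rw [gl_zero] at h6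
        exact_mod_cast h6.symm
      rw [← h5]
      exact Finset.single_le_sum (f := y) (fun t _ => (hy0 t).le) (Finset.mem_univ 0)
    have h5 : 1 / (qv v : ℝ) ^ 10 < 1 / (qv v : ℝ) ^ 2 := by
      apply one_div_lt_one_div_of_lt (by positivity)
      exact pow_lt_pow_right₀ (by linarith) (by norm_num)
    have h6 : 1 / (qv v : ℝ) ^ 2 ≤ (∑ t, y t) / (qv v : ℝ) ^ 2 := by gcongr
    linarith
  unfold hloc
  refine mul_ne_zero (div_ne_zero ?_ ?_) ?_
  · rw [h2]
    exact_mod_cast h3.ne'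
  · exact norm_pos_iff.1 (lt_of_lt_of_le (by norm_num) (ten_pos v))
  · unfold Zl
    refine Finset.prod_ne_zero_iff.2 fun p _ => zpow_ne_zero _ ?_
    exact Zl_factor_ne_zero v (hs p.1).le (hs p.2).le

theorem Hf_ne_zero (n : Fin r → ℤ) {s : Fin r → ℂ} (hs : s ∈ Om r (3 / 4))
    (hs0 : ∀ k, (s k).im = 0) : Hf K n s ≠ 0 := by
  obtain ⟨δ, hδ, hxδ⟩ := exists_delta hs
  obtain ⟨β, hβ, hb⟩ := hloc_bound (K := K) n hδ
  exact tprod_ne_zero' hβ (fun v => hb s (fun k => by linarith [hxδ k]) v)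
    fun v => hloc_ne_zero n v hs hs0

/-! ### the region of convergence -/

lemma loc1_sub_one (v : HeightOneSpectrum (𝓞 K)) (t : kv v × kv v) {s : ℂ} {σ : ℝ}
    (hσ : 3 / 2 < σ) (hs : σ ≤ s.re) :
    ‖loc1 v t s - 1‖ ≤ 3 * Lam rho0 * (qv v : ℝ) ^ (1 / 2 - σ) := by
  have hL := one_le_Lam rho0
  have hq1 : (1 : ℝ) ≤ qv v := by exact_mod_cast (by have := two_le_qv v; omega : 1 ≤ qv v)
  unfold loc1
  split_ifs with h6
  · rw [sub_self, norm_zero]
    positivity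
  · have hG := good_v h6
    set T : ℂ := (qv v : ℂ) ^ (-s) with hT
    have hκ : √(qv v : ℝ) * ‖T‖ ≤ (qv v : ℝ) ^ (1 / 2 - σ) := by
      rw [hT, sqrt_norm]
      exact Real.rpow_le_rpow_of_exponent_le hq1 (by linarith)
    have hκ1 : (qv v : ℝ) ^ (1 / 2 - σ) ≤ 1 := Real.rpow_le_one_of_one_le_of_nonpos hq1
      (by linarith)
    set κ : ℝ := (qv v : ℝ) ^ (1 / 2 - σ) with hκd
    have hκ0 : 0 ≤ κ := by positivity
    have hx0 : 0 ≤ √(qv v : ℝ) * ‖T‖ := by positivity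
    have h1 : ‖LD (qv v) (trv v t) (epv v t) T - 1‖ ≤ 3 * κ := by
      unfold LD
      have h2 : (1 : ℂ) - (trv v t : ℂ) * T + (epv v t : ℂ) * ((qv v : ℝ) : ℂ) * T ^ 2 - 1 =
          (epv v t : ℂ) * ((qv v : ℝ) : ℂ) * T ^ 2 - (trv v t : ℂ) * T := by ring
      rw [h2]
      refine (norm_sub_le _ _).trans ?_
      have h3 : ‖(trv v t : ℂ) * T‖ ≤ 2 * κ := by
        rw [norm_mul, Complex.norm_real, Real.norm_eq_abs]
        calc |trv v t| * ‖T‖ ≤ (2 * √(qv v : ℝ)) * ‖T‖ :=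
              mul_le_mul_of_nonneg_right (hG.bound t) (norm_nonneg _)
          _ = 2 * (√(qv v : ℝ) * ‖T‖) := by ring
          _ ≤ 2 * κ := by linarith
      have h4 : ‖(epv v t : ℂ) * ((qv v : ℝ) : ℂ) * T ^ 2‖ ≤ κ := by
        have h5 : ‖(epv v t : ℂ)‖ ≤ 1 := by
          rcases hG.eps t with h | ⟨h, _⟩ <;> rw [h] <;> simp
        have h6 : ‖((qv v : ℝ) : ℂ) * T ^ 2‖ = (√(qv v : ℝ) * ‖T‖) ^ 2 := by
          rw [norm_mul, norm_pow, mul_pow, Real.sq_sqrt (qv_pos v).le, Complex.norm_real,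
            Real.norm_eq_abs, abs_of_pos (qv_pos v)]
        rw [mul_assoc, norm_mul, h6]
        calc ‖(epv v t : ℂ)‖ * (√(qv v : ℝ) * ‖T‖) ^ 2 ≤ 1 * (√(qv v : ℝ) * ‖T‖) ^ 2 := by
              gcongr
          _ ≤ 1 * κ ^ 2 := by gcongr
          _ ≤ κ := by nlinarith
      linarith
    obtain ⟨b1, b2⟩ := loc1_bounds v t (s := s) (by linarith)
    unfold loc1 at b1 b2
    rw [if_neg h6, norm_inv] at b1 b2
    have hne : LD (qv v) (trv v t) (epv v t) T ≠ 0 := by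
      intro h
      rw [h] at b1
      simp only [norm_zero, inv_zero] at b1
      have : 0 < (Lam rho0)⁻¹ := by positivity
      linarith
    have h5 : (LD (qv v) (trv v t) (epv v t) T)⁻¹ - 1 =
        -(LD (qv v) (trv v t) (epv v t) T - 1) * (LD (qv v) (trv v t) (epv v t) T)⁻¹ := by
      field_simp
      ring
    rw [h5, norm_mul, norm_neg, norm_inv]
    calc ‖LD (qv v) (trv v t) (epv v t) T - 1‖ * ‖LD (qv v) (trv v t) (epv v t) T‖⁻¹
        ≤ (3 * κ) * Lam rho0 := mul_le_mul h1 b2 (by positivity) (by positivity)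
      _ = _ := by ring

lemma exists_sigma {s : Fin r → ℂ} (hs : s ∈ Om r (3 / 2)) :
    ∃ σ : ℝ, 3 / 2 < σ ∧ ∀ k, σ ≤ (s k).re := by
  obtain ⟨δ, hδ, h⟩ := exists_delta hs
  exact ⟨3 / 2 + δ + δ, by linarith, fun k => (h k).le⟩

lemma gl_bound (n : Fin r → ℤ) {s : Fin r → ℂ} (hs : s ∈ Om r (3 / 2)) :
    ∃ β : HeightOneSpectrum (𝓞 K) → ℝ, Summable β ∧ ∀ v t, ‖gl n s v t - 1‖ ≤ β v := by
  obtain ⟨σ, hσ, hsσ⟩ := exists_sigma hs
  obtain ⟨C, hC0, hC⟩ := exists_prod_zpow_bound n (one_le_Lam rho0)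
  refine ⟨fun v => C * (3 * Lam rho0 * (qv v : ℝ) ^ (1 / 2 - σ)), ?_, fun v t => ?_⟩
  · have h1 := summable_qv (K := K) (x := σ - 1 / 2) (by linarith)
    refine ((h1.mul_left (3 * Lam rho0)).mul_left C).congr fun v => ?_
    have : -(σ - 1 / 2) = 1 / 2 - σ := by ring
    rw [this]
  · have hL := one_le_Lam rho0
    unfold gl
    refine hC (fun k => loc1 v t (s k)) _ (by positivity) fun k => ?_
    obtain ⟨b1, b2⟩ := loc1_bounds v t (s := s k) (by linarith [hsσ k])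
    exact ⟨b1, b2, loc1_sub_one v t hσ (hsσ k)⟩

/-- the Euler product of one L-function -/
lemma hasProd_L (p : 𝓞 K × 𝓞 K) {s : ℂ} (hs : 3 / 2 < s.re) :
    HasProd (fun v => loc1 v (red v p) s) (MeanL.Lfun p s) ∧ MeanL.Lfun p s ≠ 0 := by
  have hβ : Summable fun v : HeightOneSpectrum (𝓞 K) =>
      3 * Lam rho0 * (qv v : ℝ) ^ (1 / 2 - s.re) := by
    have h1 := summable_qv (K := K) (x := s.re - 1 / 2) (by linarith)
    refine (h1.mul_left (3 * Lam rho0)).congr fun v => ?_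
    have : -(s.re - 1 / 2) = 1 / 2 - s.re := by ring
    rw [this]
  have hb : ∀ v, ‖loc1 v (red v p) s - 1‖ ≤ 3 * Lam rho0 * (qv v : ℝ) ^ (1 / 2 - s.re) :=
    fun v => loc1_sub_one v _ hs le_rfl
  have h1 : MeanL.Lfun p s = ∏' v, loc1 v (red v p) s := by
    unfold MeanL.Lfun
    exact tprod_congr fun v => factor_eq p v s
  rw [h1]
  exact ⟨(multipliable_of_bound hβ hb).hasProd,
    tprod_ne_zero' hβ hb fun v => loc1_ne_zero v _ (by linarith)⟩

lemma tprod_gl (n : Fin r → ℤ) {s : Fin r → ℂ} (hs : s ∈ Om r (3 / 2)) (p : 𝓞 K × 𝓞 K) :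
    ∏' v, gl n s v (red v p) = ∏ k, MeanL.Lfun p (s k) ^ n k := by
  have h1 : ∀ k ∈ (Finset.univ : Finset (Fin r)),
      HasProd (fun v => loc1 v (red v p) (s k) ^ n k) (MeanL.Lfun p (s k) ^ n k) := by
    intro k _
    obtain ⟨h2, h3⟩ := hasProd_L p (hs k)
    exact hasProd_zpow h2 h3 (n k)
  have h2 := hasProd_prod h1
  exact h2.tprod_eq

/-- the product of the zeta functions -/
lemma hasProd_Zl (n : Fin r → ℤ) {s : Fin r → ℂ} (hs : s ∈ Om r (3 / 2)) :
    HasProd (fun v : HeightOneSpectrum (𝓞 K) => (Zl n s v)⁻¹)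
      (∏ p ∈ prs r, dedekindZeta K (s p.1 + s p.2 - 1) ^ ex n p) := by
  have h1 : ∀ p ∈ prs r,
      HasProd (fun v : HeightOneSpectrum (𝓞 K) =>
        ((1 - (qv v : ℂ) ^ (-(s p.1 + s p.2 - 1)))⁻¹) ^ ex n p)
        (dedekindZeta K (s p.1 + s p.2 - 1) ^ ex n p) := by
    intro p _
    have hw : 1 < (s p.1 + s p.2 - 1).re := by
      have := hs p.1
      have := hs p.2
      simp only [Complex.sub_re, Complex.add_re, Complex.one_re]
      linarith
    exact hasProd_zpow (hasProd_zeta hw) (zeta_ne_zero hw) _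
  have h2 := hasProd_prod h1
  refine h2.congr_fun fun v => ?_
  unfold Zl
  rw [← Finset.prod_inv_distrib]
  refine Finset.prod_congr rfl fun p _ => ?_
  rw [inv_zpow]

/-- the product of the densities -/
lemma ten_prod : Multipliable (fun v : HeightOneSpectrum (𝓞 K) => (1 : ℂ) - 1 / (qv v : ℂ) ^ 10) ∧
    ∏' v : HeightOneSpectrum (𝓞 K), ((1 : ℂ) - 1 / (qv v : ℂ) ^ 10) ≠ 0 := by
  have hsum10 : Summable (fun v : HeightOneSpectrum (𝓞 K) => 1 / (qv v : ℝ) ^ 10) := by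
    have := summable_qv (K := K) (by norm_num : (1 : ℝ) < 10)
    refine this.congr fun v => ?_
    rw [Real.rpow_neg (qv_pos v).le, one_div]
    norm_cast
  have hb : ∀ v : HeightOneSpectrum (𝓞 K), ‖(1 : ℂ) - 1 / (qv v : ℂ) ^ 10 - 1‖ ≤
      1 / (qv v : ℝ) ^ 10 := by
    intro v
    have h1 : (1 : ℂ) - 1 / (qv v : ℂ) ^ 10 - 1 = -(1 / (qv v : ℂ) ^ 10) := by ring
    rw [h1, norm_neg, norm_div, norm_one, norm_pow, Complex.norm_natCast]
  exact ⟨multipliable_of_bound hsum10 hb, tprod_ne_zero' hsum10 hb fun v =>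
    norm_pos_iff.1 (lt_of_lt_of_le (by norm_num) (ten_pos v))⟩

/-- the factorisation of the limit -/
lemma limit_eq (n : Fin r → ℤ) {s : Fin r → ℂ} (hs : s ∈ Om r (3 / 2)) :
    ∏' v : HeightOneSpectrum (𝓞 K), (fmean (gl n s v) - 1 / (qv v : ℂ) ^ 10) =
      (∏' v : HeightOneSpectrum (𝓞 K), ((1 : ℂ) - 1 / (qv v : ℂ) ^ 10)) *
        ((∏ p ∈ prs r, dedekindZeta K (s p.1 + s p.2 - 1) ^ ex n p) * Hf K n s) := by
  obtain ⟨β, hβ, hb⟩ := hloc_bound (K := K) n (δ := 1 / 2) (by norm_num)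
  have h1 : HasProd (fun v : HeightOneSpectrum (𝓞 K) => hloc n s v) (Hf K n s) :=
    (multipliable_of_bound hβ fun v => hb s (fun k => by linarith [hs k]) v).hasProd
  have h2 := (ten_prod (K := K)).1.hasProd.mul ((hasProd_Zl (K := K) n hs).mul h1)
  rw [← h2.tprod_eq]
  refine tprod_congr fun v => ?_
  have hne : (1 : ℂ) - 1 / (qv v : ℂ) ^ 10 ≠ 0 :=
    norm_pos_iff.1 (lt_of_lt_of_le (by norm_num) (ten_pos v))
  have hZ : Zl n s v ≠ 0 := by
    unfold Zl
    refine Finset.prod_ne_zero_iff.2 fun p _ => zpow_ne_zero _ ?_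
    exact Zl_factor_ne_zero v (by linarith [hs p.1]) (by linarith [hs p.2])
  unfold hloc
  field_simp

end

end Pool.Agent.T6.H9.MV
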