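import Pool.Agent.T6.H9.MV.Place

/-!
# The correction factors and their uniform estimate

Owner helper9.
-/

set_option autoImplicit false
set_option linter.unusedSectionVars false
set_option linter.unusedVariables false
set_option linter.style.haveILetI false

open Filter Topology Finset NumberField IsDedekindDomain

namespace Pool.Agent.T6.H9.MV

section zp

variable {r : ℕ}

lemma norm_npow_sub_one {z : ℂ} {Λ x : ℝ} (hΛ : 1 ≤ Λ) (h2 : ‖z‖ ≤ Λ) (hx : ‖z - 1‖ ≤ x) (n : ℕ) :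
    ‖z ^ n - 1‖ ≤ n * Λ ^ n * x := by
  have hx0 : 0 ≤ x := (norm_nonneg _).trans hx
  induction n with
  | zero => simp
  | succ n ih =>
    have h1 : z ^ (n + 1) - 1 = (z ^ n - 1) * z + (z - 1) := by ring
    rw [h1]
    refine (norm_add_le _ _).trans ?_
    rw [norm_mul]
    have h3 : ‖z ^ n - 1‖ * ‖z‖ ≤ (n * Λ ^ n * x) * Λ :=
      mul_le_mul ih h2 (norm_nonneg _) (by positivity)
    have h4 : (1 : ℝ) ≤ Λ ^ (n + 1) := one_le_pow₀ hΛ
    push_cast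
    calc ‖z ^ n - 1‖ * ‖z‖ + ‖z - 1‖ ≤ (n * Λ ^ n * x) * Λ + 1 * x := by linarith
      _ ≤ (n * Λ ^ n * x) * Λ + Λ ^ (n + 1) * x := by gcongr
      _ = (n + 1) * Λ ^ (n + 1) * x := by ring

lemma norm_zpow_sub_one {z : ℂ} {Λ x : ℝ} (hΛ : 1 ≤ Λ) (h1 : Λ⁻¹ ≤ ‖z‖) (h2 : ‖z‖ ≤ Λ)
    (hx : ‖z - 1‖ ≤ x) (n : ℤ) :
    ‖z ^ n - 1‖ ≤ n.natAbs * Λ ^ (2 * n.natAbs) * x := by
  have hx0 : 0 ≤ x := (norm_nonneg _).trans hx
  have hz : 0 < ‖z‖ := lt_of_lt_of_le (by positivity) h1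
  cases n with
  | ofNat n =>
    simp only [Int.ofNat_eq_natCast, zpow_natCast, Int.natAbs_natCast]
    refine (norm_npow_sub_one hΛ h2 hx n).trans ?_
    have : Λ ^ n ≤ Λ ^ (2 * n) := pow_le_pow_right₀ hΛ (by omega)
    gcongr
  | negSucc n =>
    rw [zpow_negSucc, Int.natAbs_negSucc, Nat.succ_eq_add_one]
    have hz0 : z ^ (n + 1) ≠ 0 := pow_ne_zero _ (norm_pos_iff.1 hz)
    have h3 : (z ^ (n + 1))⁻¹ - 1 = -(z ^ (n + 1) - 1) * (z ^ (n + 1))⁻¹ := by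
      field_simp
      ring
    rw [h3, norm_mul, norm_neg]
    have h4 := norm_npow_sub_one hΛ h2 hx (n + 1)
    have h5 : ‖(z ^ (n + 1))⁻¹‖ ≤ Λ ^ (n + 1) := by
      rw [norm_inv, norm_pow, ← inv_pow]
      gcongr
      rw [inv_le_comm₀ hz (by linarith)]
      exact h1
    calc ‖z ^ (n + 1) - 1‖ * ‖(z ^ (n + 1))⁻¹‖ ≤
        (((n + 1 : ℕ) : ℝ) * Λ ^ (n + 1) * x) * Λ ^ (n + 1) :=
          mul_le_mul h4 h5 (norm_nonneg _) (by positivity)
      _ = ((n + 1 : ℕ) : ℝ) * Λ ^ (2 * (n + 1)) * x := by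
        rw [two_mul, pow_add]
        ring

lemma exists_prod_zpow_bound (n : Fin r → ℤ) {Λ : ℝ} (hΛ : 1 ≤ Λ) : ∃ C : ℝ, 0 ≤ C ∧
    ∀ (z : Fin r → ℂ) (x : ℝ), 0 ≤ x → (∀ k, Λ⁻¹ ≤ ‖z k‖ ∧ ‖z k‖ ≤ Λ ∧ ‖z k - 1‖ ≤ x) →
      ‖∏ k, z k ^ n k - 1‖ ≤ C * x := by
  suffices h : ∀ s : Finset (Fin r), ∃ C : ℝ, 0 ≤ C ∧
      ∀ (z : Fin r → ℂ) (x : ℝ), 0 ≤ x → (∀ k, Λ⁻¹ ≤ ‖z k‖ ∧ ‖z k‖ ≤ Λ ∧ ‖z k - 1‖ ≤ x) →
        ‖∏ k ∈ s, z k ^ n k - 1‖ ≤ C * x from h Finset.univ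
  intro s
  induction s using Finset.induction_on with
  | empty => exact ⟨0, le_rfl, fun z x hx h => by simp⟩
  | insert k s hk ih =>
    obtain ⟨C, hC0, hC⟩ := ih
    refine ⟨C * Λ ^ (n k).natAbs + (n k).natAbs * Λ ^ (2 * (n k).natAbs), by positivity,
      fun z x hx h => ?_⟩
    rw [Finset.prod_insert hk]
    have h1 : z k ^ n k * ∏ j ∈ s, z j ^ n j - 1 =
        (∏ j ∈ s, z j ^ n j - 1) * z k ^ n k + (z k ^ n k - 1) := by ring
    rw [h1]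
    refine (norm_add_le _ _).trans ?_
    rw [norm_mul]
    have h2 := hC z x hx h
    have h3 := norm_zpow_le (h k).1 (h k).2.1 hΛ (n k)
    have h4 := norm_zpow_sub_one hΛ (h k).1 (h k).2.1 (h k).2.2 (n k)
    have h5 : ‖∏ j ∈ s, z j ^ n j - 1‖ * ‖z k ^ n k‖ ≤ (C * x) * Λ ^ (n k).natAbs :=
      mul_le_mul h2 h3 (norm_nonneg _) (by positivity)
    linarith

end zp

section

variable {K : Type} [Field K] [NumberField K] {r : ℕ}

/-- the product of powers of local factors -/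
noncomputable def gl (n : Fin r → ℤ) (s : Fin r → ℂ) (v : HeightOneSpectrum (𝓞 K))
    (t : kv v × kv v) : ℂ := ∏ k, loc1 v t (s k) ^ n k

/-- the local factors of the zeta functions -/
noncomputable def Zl (n : Fin r → ℤ) (s : Fin r → ℂ) (v : HeightOneSpectrum (𝓞 K)) : ℂ :=
  ∏ p ∈ prs r, (1 - (qv v : ℂ) ^ (-(s p.1 + s p.2 - 1))) ^ ex n p

/-- the correction factor -/
noncomputable def hloc (n : Fin r → ℤ) (s : Fin r → ℂ) (v : HeightOneSpectrum (𝓞 K)) : ℂ :=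
  (fmean (gl n s v) - 1 / (qv v : ℂ) ^ 10) / (1 - 1 / (qv v : ℂ) ^ 10) * Zl n s v

/-- the constant `2^{-1/8}` -/
noncomputable def rho0 : ℝ := (2 : ℝ) ^ (-(1 / 8) : ℝ)

lemma rho0_pos : 0 < rho0 := by unfold rho0; positivity
lemma rho0_lt_one : rho0 < 1 := Real.rpow_lt_one_of_one_lt_of_neg (by norm_num) (by norm_num)
lemma rho0_sq : rho0 ^ 2 = (2 : ℝ) ^ (-(1 / 4) : ℝ) := by
  unfold rho0
  rw [← Real.rpow_natCast, ← Real.rpow_mul (by norm_num)]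
  norm_num

lemma kappa_le (v : HeightOneSpectrum (𝓞 K)) {s : ℂ} (hs : 3 / 4 ≤ s.re) :
    √(qv v : ℝ) * ‖(qv v : ℂ) ^ (-s)‖ ≤ rho0 ^ 2 := by
  rw [sqrt_norm, rho0_sq]
  have h1 : (1 : ℝ) ≤ qv v := by exact_mod_cast (by have := two_le_qv v; omega : 1 ≤ qv v)
  calc (qv v : ℝ) ^ (1 / 2 - s.re) ≤ (qv v : ℝ) ^ (-(1 / 4) : ℝ) :=
        Real.rpow_le_rpow_of_exponent_le h1 (by linarith)
    _ ≤ _ := rpow_le_two v (by norm_num)

lemma rho0_sq_le : rho0 ^ 2 ≤ rho0 := by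
  have h1 := rho0_pos
  have h2 := rho0_lt_one
  nlinarith

lemma kappa_le' (v : HeightOneSpectrum (𝓞 K)) {s : ℂ} (hs : 3 / 4 ≤ s.re) :
    √(qv v : ℝ) * ‖(qv v : ℂ) ^ (-s)‖ ≤ rho0 := (kappa_le v hs).trans rho0_sq_le

lemma qv_pos (v : HeightOneSpectrum (𝓞 K)) : (0 : ℝ) < qv v := by
  exact_mod_cast Nat.pos_of_ne_zero (qv_ne_zero v)

lemma loc1_bounds (v : HeightOneSpectrum (𝓞 K)) (t : kv v × kv v) {s : ℂ} (hs : 3 / 4 ≤ s.re) :
    (Lam rho0)⁻¹ ≤ ‖loc1 v t s‖ ∧ ‖loc1 v t s‖ ≤ Lam rho0 := by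
  have hL := one_le_Lam rho0
  have hL0 : 0 < Lam rho0 := by linarith
  unfold loc1
  split_ifs with h6
  · rw [norm_one]
    exact ⟨inv_le_one_of_one_le₀ hL, hL⟩
  · have hG := good_v h6
    obtain ⟨b1, b2⟩ := LD_Lam (qv_pos v) (hG.bound t) (hG.eps t) (kappa_le' v hs) rho0_lt_one
    rw [norm_inv]
    have hpos : 0 < ‖LD (qv v) (trv v t) (epv v t) ((qv v : ℂ) ^ (-s))‖ :=
      lt_of_lt_of_le (by positivity) b1
    constructor
    · exact inv_anti₀ hpos b2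
    · rw [inv_le_comm₀ hpos hL0]
      exact b1

lemma loc1_ne_zero (v : HeightOneSpectrum (𝓞 K)) (t : kv v × kv v) {s : ℂ} (hs : 3 / 4 ≤ s.re) :
    loc1 v t s ≠ 0 := by
  have h := (loc1_bounds v t hs).1
  have hL := one_le_Lam rho0
  exact norm_pos_iff.1 (lt_of_lt_of_le (by positivity) h)

lemma Zl_factor_bounds (v : HeightOneSpectrum (𝓞 K)) {s s' : ℂ} (hs : 3 / 4 ≤ s.re)
    (hs' : 3 / 4 ≤ s'.re) :
    (Lam rho0)⁻¹ ≤ ‖1 - (qv v : ℂ) ^ (-(s + s' - 1))‖ ∧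
      ‖1 - (qv v : ℂ) ^ (-(s + s' - 1))‖ ≤ Lam rho0 := by
  rw [← cpow_two v s s']
  have := pair_Lam (q := (qv v : ℝ)) (T := (qv v : ℂ) ^ (-s)) (T' := (qv v : ℂ) ^ (-s'))
    (qv_pos v) (kappa_le' v hs) (kappa_le' v hs') rho0_lt_one
  simpa using this

lemma Zl_factor_ne_zero (v : HeightOneSpectrum (𝓞 K)) {s s' : ℂ} (hs : 3 / 4 ≤ s.re)
    (hs' : 3 / 4 ≤ s'.re) : 1 - (qv v : ℂ) ^ (-(s + s' - 1)) ≠ 0 := by
  have h := (Zl_factor_bounds v hs hs').1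
  have hL := one_le_Lam rho0
  exact norm_pos_iff.1 (lt_of_lt_of_le (by positivity) h)

lemma norm_Zl_le (n : Fin r → ℤ) (v : HeightOneSpectrum (𝓞 K)) {s : Fin r → ℂ}
    (hs : ∀ k, 3 / 4 ≤ (s k).re) : ‖Zl n s v‖ ≤ Lam rho0 ^ Np n := by
  unfold Zl
  rw [norm_prod, Np, ← Finset.prod_pow_eq_pow_sum]
  refine Finset.prod_le_prod (fun _ _ => norm_nonneg _) fun p _ => ?_
  obtain ⟨b1, b2⟩ := Zl_factor_bounds v (hs p.1) (hs p.2)
  exact norm_zpow_le b1 b2 (one_le_Lam _) _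

/-- the connection with the function of the local estimate -/
lemma fmean_mul_Zl (n : Fin r → ℤ) (s : Fin r → ℂ) {v : HeightOneSpectrum (𝓞 K)}
    (h6 : (6 : 𝓞 K) ∉ v.asIdeal) :
    fmean (gl n s v) * Zl n s v =
      EPhi n (qv v) (trv v) (epv v) (fun k => (qv v : ℂ) ^ (-(s k))) := by
  classical
  rw [fmean_eq, EPhi, div_mul_eq_mul_div, Finset.sum_mul]
  congr 1
  refine Finset.sum_congr rfl fun t _ => ?_
  unfold gl Phi Zl
  congr 1
  · refine Finset.prod_congr rfl fun k _ => ?_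
    unfold loc1
    rw [if_neg h6, zpow_neg, inv_zpow]
  · refine Finset.prod_congr rfl fun p _ => ?_
    rw [← cpow_two v (s p.1) (s p.2)]
    push_cast
    rfl

lemma gl_six (n : Fin r → ℤ) (s : Fin r → ℂ) {v : HeightOneSpectrum (𝓞 K)}
    (h6 : (6 : 𝓞 K) ∈ v.asIdeal) (t : kv v × kv v) : gl n s v t = 1 := by
  unfold gl loc1
  simp [h6]

lemma fmean_one {α : Type*} [Finite α] [Nonempty α] : fmean (fun _ : α => (1 : ℂ)) = 1 := by
  haveI := Fintype.ofFinite α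
  rw [fmean_eq]
  simp

lemma ten_pos (v : HeightOneSpectrum (𝓞 K)) : (1 : ℝ) / 2 ≤ ‖1 - 1 / (qv v : ℂ) ^ 10‖ := by
  have h2 : (2 : ℝ) ≤ qv v := by exact_mod_cast two_le_qv v
  have h1 : ‖(1 : ℂ) / (qv v : ℂ) ^ 10‖ ≤ 1 / 2 := by
    rw [norm_div, norm_one, norm_pow, Complex.norm_natCast]
    rw [div_le_div_iff₀ (by positivity) (by norm_num), one_mul, one_mul]
    calc (2 : ℝ) ≤ qv v := h2
      _ ≤ (qv v : ℝ) ^ 10 := le_self_pow₀ (by linarith) (by norm_num)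
  have := (one_sub_bounds h1).1
  linarith

lemma finite_six : {v : HeightOneSpectrum (𝓞 K) | (6 : 𝓞 K) ∈ v.asIdeal}.Finite := by
  have h := Ideal.finite_factors (R := 𝓞 K) (I := Ideal.span {(6 : 𝓞 K)}) (by
    rw [Ne, Ideal.zero_eq_bot, Ideal.span_singleton_eq_bot]
    norm_num)
  refine h.subset fun v hv => ?_
  change v.asIdeal ∣ Ideal.span {(6 : 𝓞 K)}
  rw [Ideal.dvd_span_singleton]
  exact hv

/-- **Uniform estimate** of the correction factors in `Re s > 3/4 + δ`. -/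
theorem hloc_bound (n : Fin r → ℤ) {δ : ℝ} (hδ : 0 < δ) :
    ∃ β : HeightOneSpectrum (𝓞 K) → ℝ, Summable β ∧
      ∀ s : Fin r → ℂ, (∀ k, 3 / 4 + δ < (s k).re) → ∀ v, ‖hloc n s v - 1‖ ≤ β v := by
  classical
  obtain ⟨C, hC0, hC⟩ := local_estimate n rho0_pos rho0_lt_one
  set M : ℝ := Lam rho0 ^ Np n + 1 with hM
  have hL := one_le_Lam rho0
  have hM0 : 0 ≤ M := by positivity
  refine ⟨fun v => 2 * (C * ((qv v : ℝ) ^ (-(3 / 2 + 2 * δ)) + (qv v : ℝ) ^ (-(1 + 4 * δ))) +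
    (qv v : ℝ) ^ (-10 : ℝ) * M) + (if (6 : 𝓞 K) ∈ v.asIdeal then M else 0), ?_, ?_⟩
  · refine Summable.add ?_ ?_
    · refine Summable.mul_left _ (Summable.add (Summable.mul_left _ (Summable.add ?_ ?_))
        (Summable.mul_right _ ?_))
      · exact summable_qv (by linarith)
      · exact summable_qv (by linarith)
      · exact summable_qv (by norm_num)
    · refine summable_of_hasFiniteSupport (finite_six (K := K) |>.subset fun v hv => ?_)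
      rw [Function.mem_support] at hv
      by_contra h
      exact hv (if_neg h)
  · intro s hs v
    have hs' : ∀ k, 3 / 4 ≤ (s k).re := fun k => by linarith [hs k]
    have hZ : ‖Zl n s v - 1‖ ≤ M := by
      refine (norm_sub_le _ _).trans ?_
      rw [norm_one]
      exact add_le_add (norm_Zl_le n v hs') le_rfl
    have hq0 := qv_pos v
    beta_reduce
    by_cases h6 : (6 : 𝓞 K) ∈ v.asIdeal
    · rw [if_pos h6]
      have h1 : fmean (gl n s v) = 1 := by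
        have : gl n s v = fun _ => 1 := funext fun t => gl_six n s h6 t
        rw [this, fmean_one]
      have hne : (1 : ℂ) - 1 / (qv v : ℂ) ^ 10 ≠ 0 :=
        norm_pos_iff.1 (lt_of_lt_of_le (by norm_num) (ten_pos v))
      have h2 : hloc n s v = Zl n s v := by
        unfold hloc
        rw [h1, div_self hne, one_mul]
      rw [h2]
      have h3 : 0 ≤ 2 * (C * ((qv v : ℝ) ^ (-(3 / 2 + 2 * δ)) + (qv v : ℝ) ^ (-(1 + 4 * δ))) +
        (qv v : ℝ) ^ (-10 : ℝ) * M) := by positivity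
      linarith
    · rw [if_neg h6, add_zero]
      set κ : ℝ := (qv v : ℝ) ^ (-(1 / 4) - δ) with hκ
      have hκ0 : 0 < κ := by positivity
      have hq1 : (1 : ℝ) ≤ qv v := by
        exact_mod_cast (by have := two_le_qv v; omega : 1 ≤ qv v)
      have hκρ : κ ≤ rho0 ^ 2 := by
        rw [rho0_sq, hκ]
        calc (qv v : ℝ) ^ (-(1 / 4) - δ) ≤ (qv v : ℝ) ^ (-(1 / 4) : ℝ) :=
              Real.rpow_le_rpow_of_exponent_le hq1 (by linarith)
          _ ≤ _ := rpow_le_two v (by norm_num)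
      have hT : ∀ k, √(qv v : ℝ) * ‖(qv v : ℂ) ^ (-(s k))‖ ≤ κ := by
        intro k
        rw [sqrt_norm, hκ]
        exact Real.rpow_le_rpow_of_exponent_le hq1 (by linarith [hs k])
      have hmain := hC (kv v × kv v) (qv v) (trv v) (epv v) (good_v h6) κ hκ0 hκρ
        (fun k => (qv v : ℂ) ^ (-(s k))) hT
      rw [← fmean_mul_Zl n s h6] at hmain
      have e1 : κ ^ 2 / (qv v : ℝ) = (qv v : ℝ) ^ (-(3 / 2 + 2 * δ)) := by
        rw [hκ, ← Real.rpow_natCast, ← Real.rpow_mul hq0.le]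
        nth_rewrite 2 [← Real.rpow_one (qv v : ℝ)]
        rw [← Real.rpow_sub hq0]
        congr 1
        push_cast
        ring
      have e2 : κ ^ 4 = (qv v : ℝ) ^ (-(1 + 4 * δ)) := by
        rw [hκ, ← Real.rpow_natCast, ← Real.rpow_mul hq0.le]
        congr 1
        push_cast
        ring
      rw [e1, e2] at hmain
      have hne : (1 : ℂ) - 1 / (qv v : ℂ) ^ 10 ≠ 0 :=
        norm_pos_iff.1 (lt_of_lt_of_le (by norm_num) (ten_pos v))
      have h1 : hloc n s v - 1 = ((fmean (gl n s v) * Zl n s v - 1) -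
          1 / (qv v : ℂ) ^ 10 * (Zl n s v - 1)) / (1 - 1 / (qv v : ℂ) ^ 10) := by
        unfold hloc
        rw [div_mul_eq_mul_div, div_sub_one hne]
        congr 1
        ring
      rw [h1, norm_div]
      have h10 : ‖(1 : ℂ) / (qv v : ℂ) ^ 10‖ = (qv v : ℝ) ^ (-10 : ℝ) := by
        rw [norm_div, norm_one, norm_pow, Complex.norm_natCast, Real.rpow_neg hq0.le, one_div]
        norm_cast
      have h2 : ‖(fmean (gl n s v) * Zl n s v - 1) - 1 / (qv v : ℂ) ^ 10 * (Zl n s v - 1)‖ ≤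
          C * ((qv v : ℝ) ^ (-(3 / 2 + 2 * δ)) + (qv v : ℝ) ^ (-(1 + 4 * δ))) +
            (qv v : ℝ) ^ (-10 : ℝ) * M := by
        refine (norm_sub_le _ _).trans (add_le_add hmain ?_)
        rw [norm_mul, h10]
        exact mul_le_mul_of_nonneg_left hZ (by positivity)
      have h3 : 0 ≤ C * ((qv v : ℝ) ^ (-(3 / 2 + 2 * δ)) + (qv v : ℝ) ^ (-(1 + 4 * δ))) +
            (qv v : ℝ) ^ (-10 : ℝ) * M := by positivity
      have h4 := ten_pos v
      rw [div_le_iff₀ (by linarith)]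
      nlinarith

end

end Pool.Agent.T6.H9.MV
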