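import Mathlib

/-!
# Definitions for the mean values of L-functions of elliptic curves over number fields

Owner helper9.
-/

set_option autoImplicit false

open NumberField IsDedekindDomain

namespace Pool.Agent.T6.H9.MeanL

variable {K : Type} [Field K] [NumberField K]

/-- The number of solutions modulo `v` of the affine equation `y² = x³ + a x + b`, where
`p = (a, b)`. -/
noncomputable def pts (p : 𝓞 K × 𝓞 K) (v : HeightOneSpectrum (𝓞 K)) : ℕ :=
  Nat.card {P : (𝓞 K ⧸ v.asIdeal) × (𝓞 K ⧸ v.asIdeal) //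
    P.2 ^ 2 = P.1 ^ 3 + Ideal.Quotient.mk v.asIdeal p.1 * P.1 + Ideal.Quotient.mk v.asIdeal p.2}

open Classical in
/-- The Euler factor at `v` of the L-function (away from `6`) of `y² = x³ + a x + b`: with
`q = N v` and `a_v = q - #{affine solutions modulo v}` it is
`(1 - a_v q^{-s} + q^{1-2s})⁻¹` if `v ∤ 4a³ + 27b²`, and `(1 - a_v q^{-s})⁻¹` if
`v ∣ 4a³ + 27b²`; the factors at the primes dividing `6` are omitted. -/
noncomputable def factor (p : 𝓞 K × 𝓞 K) (v : HeightOneSpectrum (𝓞 K)) (s : ℂ) : ℂ :=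
  if (6 : 𝓞 K) ∈ v.asIdeal then 1 else
    (1 - (((Ideal.absNorm v.asIdeal : ℤ) - (pts p v : ℤ) : ℤ) : ℂ) *
        (Ideal.absNorm v.asIdeal : ℂ) ^ (-s) +
      if 4 * p.1 ^ 3 + 27 * p.2 ^ 2 ∈ v.asIdeal then 0 else
        (Ideal.absNorm v.asIdeal : ℂ) ^ (1 - 2 * s))⁻¹

/-- The L-function (without the Euler factors above `6`) of the elliptic curve
`y² = x³ + a x + b` over `K`, `p = (a, b)`. -/
noncomputable def Lfun (p : 𝓞 K × 𝓞 K) (s : ℂ) : ℂ :=
  ∏' v : HeightOneSpectrum (𝓞 K), factor p v s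

/-- The family of all elliptic curves `y² = x³ + a x + b` over `K` with `a`, `b` algebraic integers
whose coordinates with respect to the integral basis `ω` are bounded by `X`, `Y`, and with no
prime `v` such that `v⁴ ∣ a` and `v⁶ ∣ b`. -/
def Fam {ι : Type} [Fintype ι] (ω : Module.Basis ι ℤ (𝓞 K)) (X Y : ℕ) :
    Set (𝓞 K × 𝓞 K) :=
  {p | (∀ i, |ω.repr p.1 i| ≤ X) ∧ (∀ i, |ω.repr p.2 i| ≤ Y) ∧ 4 * p.1 ^ 3 + 27 * p.2 ^ 2 ≠ 0 ∧
    ∀ v : HeightOneSpectrum (𝓞 K), ¬ (p.1 ∈ v.asIdeal ^ 4 ∧ p.2 ∈ v.asIdeal ^ 6)}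

/-- The mean of a function over a finite set. -/
noncomputable def mean {α : Type} (S : Set α) (F : α → ℂ) : ℂ :=
  (∑ᶠ p ∈ S, F p) / (S.ncard : ℂ)

end Pool.Agent.T6.H9.MeanL
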