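import Pool.Agent.T6.H9.MV.Prod
import Pool.Agent.T6.H9.MV.Sieve

/-!
# Means over the family of all minimal models

Owner helper9.
-/

set_option autoImplicit false
set_option linter.unusedSectionVars false
set_option linter.unusedVariables false
set_option linter.style.haveILetI false

open Filter Topology Finset NumberField IsDedekindDomain

namespace Pool.Agent.T6.H9.MV

section

variable {K : Type} [Field K] [NumberField K]

/-- the residue field -/
abbrev kv (v : HeightOneSpectrum (𝓞 K)) : Type := 𝓞 K ⧸ v.asIdeal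

/-- reduction of the coefficients modulo `v` -/
def red (v : HeightOneSpectrum (𝓞 K)) (p : 𝓞 K × 𝓞 K) : kv v × kv v :=
  (Ideal.Quotient.mk v.asIdeal p.1, Ideal.Quotient.mk v.asIdeal p.2)

/-- the discriminant `4 a³ + 27 b²` (up to the factor `-16`) -/
def disc (p : 𝓞 K × 𝓞 K) : 𝓞 K := 4 * p.1 ^ 3 + 27 * p.2 ^ 2

/-- non-minimality at `v` -/
def NonMin (v : HeightOneSpectrum (𝓞 K)) (p : 𝓞 K × 𝓞 K) : Prop :=
  p.1 ∈ v.asIdeal ^ 4 ∧ p.2 ∈ v.asIdeal ^ 6

/-- the ring in which the local condition lives -/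
abbrev Qv (v : HeightOneSpectrum (𝓞 K)) : Type :=
  (𝓞 K ⧸ v.asIdeal ^ 4) × (𝓞 K ⧸ v.asIdeal ^ 6)

instance (v : HeightOneSpectrum (𝓞 K)) : Finite (kv v) :=
  Ideal.finiteQuotientOfFreeOfNeBot v.asIdeal v.ne_bot

lemma finite_pow (v : HeightOneSpectrum (𝓞 K)) (n : ℕ) : Finite (𝓞 K ⧸ v.asIdeal ^ n) :=
  Ideal.finiteQuotientOfFreeOfNeBot _ (pow_ne_zero n v.ne_bot)

instance (v : HeightOneSpectrum (𝓞 K)) : Finite (Qv v) := by
  haveI := finite_pow v 4
  haveI := finite_pow v 6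
  infer_instance

lemma card_kv (v : HeightOneSpectrum (𝓞 K)) : Nat.card (kv v) = qv v := by
  rw [qv, Ideal.absNorm_apply, Submodule.cardQuot_apply]

lemma card_pow (v : HeightOneSpectrum (𝓞 K)) (n : ℕ) :
    Nat.card (𝓞 K ⧸ v.asIdeal ^ n) = qv v ^ n := by
  rw [← Submodule.cardQuot_apply, ← Ideal.absNorm_apply, map_pow]

/-- class of the coefficients in `Qv` -/
def cl (v : HeightOneSpectrum (𝓞 K)) : 𝓞 K × 𝓞 K →+ Qv v where
  toFun p := (Ideal.Quotient.mk _ p.1, Ideal.Quotient.mk _ p.2)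
  map_zero' := rfl
  map_add' _ _ := rfl

lemma cl_eq_zero (v : HeightOneSpectrum (𝓞 K)) (p : 𝓞 K × 𝓞 K) : cl v p = 0 ↔ NonMin v p := by
  change ((Ideal.Quotient.mk _ p.1, Ideal.Quotient.mk _ p.2) : Qv v) = (0, 0) ↔ _
  rw [Prod.mk.injEq, Ideal.Quotient.eq_zero_iff_mem, Ideal.Quotient.eq_zero_iff_mem]
  rfl

lemma pow_le_self' (v : HeightOneSpectrum (𝓞 K)) {n : ℕ} (hn : n ≠ 0) :
    v.asIdeal ^ n ≤ v.asIdeal := Ideal.pow_le_self hn

/-- the projection to the residue field -/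
def prQ (v : HeightOneSpectrum (𝓞 K)) : Qv v →+ kv v × kv v :=
  AddMonoidHom.prodMap (Ideal.Quotient.factor (pow_le_self' v (by norm_num : 4 ≠ 0))).toAddMonoidHom
    (Ideal.Quotient.factor (pow_le_self' v (by norm_num : 6 ≠ 0))).toAddMonoidHom

lemma prQ_cl (v : HeightOneSpectrum (𝓞 K)) (p : 𝓞 K × 𝓞 K) : prQ v (cl v p) = red v p := rfl

lemma red_surj (v : HeightOneSpectrum (𝓞 K)) : Function.Surjective (red v) := by
  rintro ⟨a, b⟩
  obtain ⟨x, rfl⟩ := Ideal.Quotient.mk_surjective a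
  obtain ⟨y, rfl⟩ := Ideal.Quotient.mk_surjective b
  exact ⟨(x, y), rfl⟩

lemma prQ_surj (v : HeightOneSpectrum (𝓞 K)) : Function.Surjective (prQ v) := by
  intro t
  obtain ⟨p, rfl⟩ := red_surj v t
  exact ⟨cl v p, prQ_cl v p⟩

variable {ι : Type} [Fintype ι] [DecidableEq ι]

/-- the pair of integers with given coordinates -/
noncomputable def pt (ω : Module.Basis ι ℤ (𝓞 K)) : (ι ⊕ ι → ℤ) →+ 𝓞 K × 𝓞 K where
  toFun x := (el ω fun i => x (Sum.inl i), el ω fun i => x (Sum.inr i))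
  map_zero' := by
    refine Prod.ext ?_ ?_
    · exact map_zero ω.equivFun.symm
    · exact map_zero ω.equivFun.symm
  map_add' x y := by
    refine Prod.ext ?_ ?_
    · exact map_add ω.equivFun.symm _ _
    · exact map_add ω.equivFun.symm _ _

lemma pt_fst (ω : Module.Basis ι ℤ (𝓞 K)) (x : ι ⊕ ι → ℤ) :
    (pt ω x).1 = el ω fun i => x (Sum.inl i) := rfl
lemma pt_snd (ω : Module.Basis ι ℤ (𝓞 K)) (x : ι ⊕ ι → ℤ) :
    (pt ω x).2 = el ω fun i => x (Sum.inr i) := rfl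

lemma pt_surj (ω : Module.Basis ι ℤ (𝓞 K)) : Function.Surjective (pt ω) := by
  intro p
  refine ⟨Sum.elim (ω.equivFun p.1) (ω.equivFun p.2), ?_⟩
  refine Prod.ext ?_ ?_
  · exact ω.equivFun.symm_apply_apply p.1
  · exact ω.equivFun.symm_apply_apply p.2

lemma pt_inj (ω : Module.Basis ι ℤ (𝓞 K)) : Function.Injective (pt ω) := by
  intro x y h
  have h1 := ω.equivFun.symm.injective (congrArg Prod.fst h)
  have h2 := ω.equivFun.symm.injective (congrArg Prod.snd h)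
  funext j
  rcases j with j | j
  · exact congrFun h1 j
  · exact congrFun h2 j

/-- the reduction to finitely many primes -/
noncomputable def phiD (ω : Module.Basis ι ℤ (𝓞 K)) (D : Finset (HeightOneSpectrum (𝓞 K))) :
    (ι ⊕ ι → ℤ) →+ (∀ v : D, Qv v.1) :=
  (AddMonoidHom.pi fun v : D => cl v.1).comp (pt ω)

lemma phiD_apply (ω : Module.Basis ι ℤ (𝓞 K)) (D : Finset (HeightOneSpectrum (𝓞 K)))
    (x : ι ⊕ ι → ℤ) (v : D) : phiD ω D x v = cl v.1 (pt ω x) := rfl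

lemma phiD_surj (ω : Module.Basis ι ℤ (𝓞 K)) (D : Finset (HeightOneSpectrum (𝓞 K))) :
    Function.Surjective (phiD ω D) := by
  classical
  intro c
  have hprime : ∀ v ∈ D, Prime v.asIdeal := fun v _ => v.prime
  have hcop : ∀ᵉ (v ∈ D) (w ∈ D), v ≠ w → v.asIdeal ≠ w.asIdeal := by
    intro v _ w _ hvw h
    exact hvw (HeightOneSpectrum.ext h)
  obtain ⟨a, ha⟩ := IsDedekindDomain.exists_representative_mod_finset (s := D)
    (fun v => v.asIdeal) (fun _ => 4) hprime hcop (fun v => (c v).1)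
  obtain ⟨b, hb⟩ := IsDedekindDomain.exists_representative_mod_finset (s := D)
    (fun v => v.asIdeal) (fun _ => 6) hprime hcop (fun v => (c v).2)
  obtain ⟨x, hx⟩ := pt_surj ω (a, b)
  refine ⟨x, ?_⟩
  funext v
  rw [phiD_apply, hx]
  refine Prod.ext ?_ ?_
  · exact ha v.1 v.2
  · exact hb v.1 v.2

/-- the box of the pairs -/
noncomputable abbrev bx (ι : Type) [Fintype ι] [DecidableEq ι] (B : ℕ × ℕ) : Finset (ι ⊕ ι → ℤ) :=
  box (Sum.elim (fun _ => B.1) (fun _ => B.2))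

lemma tendsto_elim : Tendsto (fun B : ℕ × ℕ => (Sum.elim (fun _ => B.1) (fun _ => B.2) :
    ι ⊕ ι → ℕ)) atTop atTop := by
  refine tendsto_atTop.2 fun b => ?_
  refine (eventually_ge_atTop (∑ j, b j, ∑ j, b j)).mono fun B hB => ?_
  intro j
  have h1 : b j ≤ ∑ j, b j := Finset.single_le_sum (f := b) (fun _ _ => Nat.zero_le _)
    (Finset.mem_univ j)
  rcases j with j | j
  · exact h1.trans hB.1
  · exact h1.trans hB.2

open Classical in
/-- the indicator of minimality at `v` -/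
noncomputable def wv (v : HeightOneSpectrum (𝓞 K)) (p : 𝓞 K × 𝓞 K) : ℂ :=
  if NonMin v p then 0 else 1

lemma red_of_nonMin {v : HeightOneSpectrum (𝓞 K)} {p : 𝓞 K × 𝓞 K} (h : NonMin v p) :
    red v p = 0 := by
  refine Prod.ext ?_ ?_
  · exact Ideal.Quotient.eq_zero_iff_mem.2 (pow_le_self' v (by norm_num) h.1)
  · exact Ideal.Quotient.eq_zero_iff_mem.2 (pow_le_self' v (by norm_num) h.2)

/-- **Step A**: means of finite products of local functions. -/
theorem tendsto_finite (ω : Module.Basis ι ℤ (𝓞 K))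
    (g : ∀ v : HeightOneSpectrum (𝓞 K), kv v × kv v → ℂ) (h0 : ∀ v, g v 0 = 1)
    (D : Finset (HeightOneSpectrum (𝓞 K))) :
    Tendsto (fun B : ℕ × ℕ => avg (bx ι B)
      (fun x => ∏ v ∈ D, (wv v (pt ω x) * g v (red v (pt ω x))))) atTop
      (𝓝 (∏ v ∈ D, (fmean (g v) - 1 / (qv v : ℂ) ^ 10))) := by
  classical
  let G : ∀ v : HeightOneSpectrum (𝓞 K), Qv v → ℂ := fun v c => g v (prQ v c) - if c = 0 then 1 else 0
  have hG : ∀ v p, wv v p * g v (red v p) = G v (cl v p) := by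
    intro v p
    simp only [G]
    rw [prQ_cl]
    unfold wv
    by_cases h : NonMin v p
    · rw [if_pos h, if_pos ((cl_eq_zero v p).2 h), red_of_nonMin h, h0]
      ring
    · rw [if_neg h, if_neg (fun h' => h ((cl_eq_zero v p).1 h'))]
      ring
  have hm : ∀ v, fmean (G v) = fmean (g v) - 1 / (qv v : ℂ) ^ 10 := by
    intro v
    have h1 : fmean (G v) = fmean (fun c => g v (prQ v c)) -
        fmean (fun c : Qv v => if c = 0 then (1 : ℂ) else 0) := fmean_sub _ _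
    have h2 : fmean (fun c : Qv v => if c = 0 then (1 : ℂ) else 0) = 1 / (Nat.card (Qv v) : ℂ) := by
      have := fmean_ite (0 : Qv v)
      convert this
    rw [h1, h2, fmean_comp (prQ v) (prQ_surj v) (g v)]
    congr 2
    rw [Nat.card_prod, card_pow, card_pow, ← pow_add]
    push_cast
    rfl
  have h1 := tendsto_avg_hom' (phiD ω D) (phiD_surj ω D) (fun c => ∏ v : D, G v.1 (c v))
  rw [fmean_pi (fun v : D => G v.1)] at h1
  have h2 := h1.comp (tendsto_elim (ι := ι))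
  have h3 : ∏ v : D, fmean (G v.1) = ∏ v ∈ D, (fmean (g v) - 1 / (qv v : ℂ) ^ 10) := by
    rw [← Finset.prod_coe_sort D (fun v => fmean (g v) - 1 / (qv v : ℂ) ^ 10)]
    exact Finset.prod_congr rfl fun v _ => hm v.1
  rw [h3] at h2
  refine h2.congr fun B => ?_
  simp only [Function.comp_apply]
  unfold avg
  congr 1
  refine Finset.sum_congr rfl fun x _ => ?_
  beta_reduce
  rw [← Finset.prod_coe_sort D (fun v => wv v (pt ω x) * g v (red v (pt ω x)))]
  refine Finset.prod_congr rfl fun v _ => ?_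
  rw [hG, phiD_apply]

/-! ### the exceptional sets -/

lemma card_bx (B : ℕ × ℕ) : (bx ι B).card =
    (2 * B.1 + 1) ^ Fintype.card ι * (2 * B.2 + 1) ^ Fintype.card ι := by
  rw [bx, card_box_nat, Fintype.prod_sum_type]
  simp

lemma card_bxi (X : ℕ) : (box (fun _ : ι => X)).card = (2 * X + 1) ^ Fintype.card ι := by
  rw [card_box_nat]
  simp

lemma inl_mem {B : ℕ × ℕ} {x : ι ⊕ ι → ℤ} (hx : x ∈ bx ι B) :
    (fun i => x (Sum.inl i)) ∈ box (fun _ : ι => B.1) :=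
  mem_box.2 fun i => mem_box.1 hx (Sum.inl i)

lemma inr_mem {B : ℕ × ℕ} {x : ι ⊕ ι → ℤ} (hx : x ∈ bx ι B) :
    (fun i => x (Sum.inr i)) ∈ box (fun _ : ι => B.2) :=
  mem_box.2 fun i => mem_box.1 hx (Sum.inr i)

lemma sum_ext {x y : ι ⊕ ι → ℤ} (h1 : (fun i => x (Sum.inl i)) = fun i => y (Sum.inl i))
    (h2 : (fun i => x (Sum.inr i)) = fun i => y (Sum.inr i)) : x = y := by
  funext j
  rcases j with j | j
  · exact congrFun h1 j
  · exact congrFun h2 j

open Classical in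
/-- pairs with `a = 0` -/
noncomputable def E1 (ι : Type) [Fintype ι] [DecidableEq ι] (B : ℕ × ℕ) : Finset (ι ⊕ ι → ℤ) :=
  (bx ι B).filter fun x => (fun i => x (Sum.inl i)) = 0

open Classical in
/-- pairs with `b = 0` -/
noncomputable def E2 (ι : Type) [Fintype ι] [DecidableEq ι] (B : ℕ × ℕ) : Finset (ι ⊕ ι → ℤ) :=
  (bx ι B).filter fun x => (fun i => x (Sum.inr i)) = 0

open Classical in
/-- pairs with discriminant zero -/
noncomputable def E3 (ω : Module.Basis ι ℤ (𝓞 K)) (B : ℕ × ℕ) : Finset (ι ⊕ ι → ℤ) :=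
  (bx ι B).filter fun x => disc (pt ω x) = 0

open Classical in
/-- pairs with a common prime divisor outside `D` -/
noncomputable def Bad (ω : Module.Basis ι ℤ (𝓞 K)) (D : Finset (HeightOneSpectrum (𝓞 K)))
    (B : ℕ × ℕ) : Finset (ι ⊕ ι → ℤ) :=
  (bx ι B).filter fun x => (fun i => x (Sum.inl i)) ≠ 0 ∧ (fun i => x (Sum.inr i)) ≠ 0 ∧
    ∃ v : HeightOneSpectrum (𝓞 K), v ∉ D ∧ (pt ω x).1 ∈ v.asIdeal ∧ (pt ω x).2 ∈ v.asIdeal

lemma card_E1 (B : ℕ × ℕ) : (E1 ι B).card ≤ (2 * B.2 + 1) ^ Fintype.card ι := by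
  classical
  rw [← card_bxi (ι := ι)]
  refine Finset.card_le_card_of_injOn (fun x => fun i => x (Sum.inr i)) ?_ ?_
  · intro x hx
    exact inr_mem (Finset.mem_filter.1 (Finset.mem_coe.1 hx)).1
  · intro x hx y hy h
    have h1 := (Finset.mem_filter.1 (Finset.mem_coe.1 hx)).2
    have h2 := (Finset.mem_filter.1 (Finset.mem_coe.1 hy)).2
    exact sum_ext (h1.trans h2.symm) h

lemma card_E2 (B : ℕ × ℕ) : (E2 ι B).card ≤ (2 * B.1 + 1) ^ Fintype.card ι := by
  classical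
  rw [← card_bxi (ι := ι)]
  refine Finset.card_le_card_of_injOn (fun x => fun i => x (Sum.inl i)) ?_ ?_
  · intro x hx
    exact inl_mem (Finset.mem_filter.1 (Finset.mem_coe.1 hx)).1
  · intro x hx y hy h
    have h1 := (Finset.mem_filter.1 (Finset.mem_coe.1 hx)).2
    have h2 := (Finset.mem_filter.1 (Finset.mem_coe.1 hy)).2
    exact sum_ext h (h1.trans h2.symm)

lemma card_E3 (ω : Module.Basis ι ℤ (𝓞 K)) (B : ℕ × ℕ) :
    (E3 ω B).card ≤ 2 * (2 * B.1 + 1) ^ Fintype.card ι := by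
  classical
  have h27 : (27 : 𝓞 K) ≠ 0 := by norm_num
  have h1 : (E3 ω B).card ≤ 2 * ((E3 ω B).image fun x => fun i => x (Sum.inl i)).card := by
    refine Finset.card_le_mul_card_image _ 2 fun a ha => ?_
    rw [Finset.mem_image] at ha
    obtain ⟨x₀, hx₀, rfl⟩ := ha
    have hx₀' := (Finset.mem_filter.1 hx₀).2
    have hsub : ((E3 ω B).filter fun x => (fun i => x (Sum.inl i)) = fun i => x₀ (Sum.inl i)) ⊆
        {x₀, Sum.elim (fun i => x₀ (Sum.inl i)) (fun i => - x₀ (Sum.inr i))} := by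
      intro x hx
      rw [Finset.mem_filter] at hx
      obtain ⟨hx1, hx2⟩ := hx
      have hx1' := (Finset.mem_filter.1 hx1).2
      rw [Finset.mem_insert, Finset.mem_singleton]
      unfold disc at hx1' hx₀'
      have h3 : (pt ω x).1 = (pt ω x₀).1 := by rw [pt_fst, pt_fst, hx2]
      rw [h3] at hx1'
      have h4 : 27 * ((pt ω x).2 - (pt ω x₀).2) * ((pt ω x).2 + (pt ω x₀).2) = 0 := by
        linear_combination hx1' - hx₀'
      rcases mul_eq_zero.1 h4 with h5 | h5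
      · left
        have h6 := sub_eq_zero.1 ((mul_eq_zero.1 h5).resolve_left h27)
        exact pt_inj ω (Prod.ext h3 h6)
      · right
        have h6 : (pt ω x).2 = -(pt ω x₀).2 := eq_neg_of_add_eq_zero_left h5
        apply pt_inj ω
        refine Prod.ext h3 ?_
        rw [h6]
        change _ = el ω (fun i => - x₀ (Sum.inr i))
        rw [pt_snd]
        exact (map_neg ω.equivFun.symm _).symm
    exact (Finset.card_le_card hsub).trans Finset.card_le_two
  refine h1.trans (Nat.mul_le_mul_left 2 ?_)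
  rw [← card_bxi (ι := ι)]
  refine Finset.card_le_card fun a ha => ?_
  rw [Finset.mem_image] at ha
  obtain ⟨x, hx, rfl⟩ := ha
  exact inl_mem (Finset.mem_filter.1 hx).1

lemma tendsto_ratio {d : ℕ} (hd : 0 < d) :
    Tendsto (fun X : ℕ => (1 : ℝ) / (2 * X + 1) ^ d) atTop (𝓝 0) := by
  have h1 : Tendsto (fun X : ℕ => (2 * (X : ℝ) + 1) ^ d) atTop atTop :=
    (tendsto_pow_atTop hd.ne').comp tendsto_two_mul_add_one
  exact tendsto_const_nhds.div_atTop h1

lemma card_pos_basis (ω : Module.Basis ι ℤ (𝓞 K)) : 0 < Fintype.card ι := by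
  rw [card_eq_finrank ω]
  exact Module.finrank_pos

/-- the exceptional sets are negligible -/
lemma tendsto_E (ω : Module.Basis ι ℤ (𝓞 K)) :
    Tendsto (fun B : ℕ × ℕ => (((E1 ι B).card + (E2 ι B).card + (E3 ω B).card : ℕ) : ℝ) /
      (bx ι B).card) atTop (𝓝 0) := by
  set d := Fintype.card ι with hd
  have hd0 : 0 < d := card_pos_basis ω
  have h1 : Tendsto (fun B : ℕ × ℕ => (1 : ℝ) / (2 * B.1 + 1) ^ d) atTop (𝓝 0) := by
    have : Tendsto (fun B : ℕ × ℕ => B.1) atTop atTop := by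
      rw [← prod_atTop_atTop_eq]
      exact tendsto_fst
    exact (tendsto_ratio hd0).comp this
  have h2 : Tendsto (fun B : ℕ × ℕ => (1 : ℝ) / (2 * B.2 + 1) ^ d) atTop (𝓝 0) := by
    have : Tendsto (fun B : ℕ × ℕ => B.2) atTop atTop := by
      rw [← prod_atTop_atTop_eq]
      exact tendsto_snd
    exact (tendsto_ratio hd0).comp this
  have h3 := h1.add (h2.const_mul 3)
  simp only [mul_zero, add_zero] at h3
  refine squeeze_zero (fun B => by positivity) (fun B => ?_) h3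
  have e1 := card_E1 (ι := ι) B
  have e2 := card_E2 (ι := ι) B
  have e3 := card_E3 ω B
  rw [card_bx, ← hd]
  rw [← hd] at e1 e2 e3
  have p1 : (0 : ℝ) < (2 * B.1 + 1) ^ d := by positivity
  have p2 : (0 : ℝ) < (2 * B.2 + 1) ^ d := by positivity
  push_cast
  rw [div_le_iff₀ (by positivity)]
  have h4 : (1 / (2 * (B.1 : ℝ) + 1) ^ d + 3 * (1 / (2 * (B.2 : ℝ) + 1) ^ d)) *
      ((2 * (B.1 : ℝ) + 1) ^ d * (2 * (B.2 : ℝ) + 1) ^ d) =
      (2 * (B.2 : ℝ) + 1) ^ d + 3 * (2 * (B.1 : ℝ) + 1) ^ d := by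
    field_simp
  rw [h4]
  have e1' : ((E1 ι B).card : ℝ) ≤ (2 * (B.2 : ℝ) + 1) ^ d := by exact_mod_cast e1
  have e2' : ((E2 ι B).card : ℝ) ≤ (2 * (B.1 : ℝ) + 1) ^ d := by exact_mod_cast e2
  have e3' : ((E3 ω B).card : ℝ) ≤ 2 * (2 * (B.1 : ℝ) + 1) ^ d := by exact_mod_cast e3
  linarith

/-- `∑ q_v⁻²` over the primes outside `D` -/
noncomputable def tail2 (D : Finset (HeightOneSpectrum (𝓞 K))) : ℝ :=
  ∑' v : HeightOneSpectrum (𝓞 K), (qv v : ℝ) ^ (-2 : ℝ) - ∑ v ∈ D, (qv v : ℝ) ^ (-2 : ℝ)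

lemma tendsto_tail2 : Tendsto (tail2 : Finset (HeightOneSpectrum (𝓞 K)) → ℝ) atTop (𝓝 0) := by
  have h := (summable_qv (K := K) (by norm_num : (1 : ℝ) < 2)).hasSum.const_sub
    (∑' v : HeightOneSpectrum (𝓞 K), (qv v : ℝ) ^ (-2 : ℝ))
  rw [sub_self] at h
  exact h

lemma tail2_nonneg (D : Finset (HeightOneSpectrum (𝓞 K))) : 0 ≤ tail2 D := by
  unfold tail2
  have := (summable_qv (K := K) (by norm_num : (1 : ℝ) < 2)).sum_le_tsum D
    fun _ _ => by positivity
  linarith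

lemma card_Bad (ω : Module.Basis ι ℤ (𝓞 K)) : ∃ C : ℝ, 0 ≤ C ∧
    ∀ (D : Finset (HeightOneSpectrum (𝓞 K))) (B : ℕ × ℕ),
      ((Bad ω D B).card : ℝ) ≤ C * tail2 D * (bx ι B).card := by
  classical
  obtain ⟨C, hC, hb⟩ := exists_norm_bound ω
  set d := Fintype.card ι with hd
  refine ⟨(C : ℝ) ^ 2 * 4 ^ d, by positivity, fun D B => ?_⟩
  -- a choice of the prime
  have hch : ∀ x ∈ Bad ω D B, ∃ v : HeightOneSpectrum (𝓞 K), v ∉ D ∧ (pt ω x).1 ∈ v.asIdeal ∧
      (pt ω x).2 ∈ v.asIdeal := fun x hx => (Finset.mem_filter.1 hx).2.2.2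
  by_cases hne : (Bad ω D B).Nonempty
  swap
  · rw [Finset.not_nonempty_iff_eq_empty.1 hne, Finset.card_empty, Nat.cast_zero]
    have : 0 ≤ tail2 D := tail2_nonneg D
    positivity
  have hex : ∃ f : (ι ⊕ ι → ℤ) → HeightOneSpectrum (𝓞 K), ∀ x ∈ Bad ω D B, f x ∉ D ∧
      (pt ω x).1 ∈ (f x).asIdeal ∧ (pt ω x).2 ∈ (f x).asIdeal := by
    obtain ⟨x₀, hx₀⟩ := hne
    refine ⟨fun x => if hx : x ∈ Bad ω D B then (hch x hx).choose else (hch x₀ hx₀).choose,
      fun x hx => ?_⟩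
    beta_reduce
    rw [dif_pos hx]
    exact (hch x hx).choose_spec
  obtain ⟨f, hf⟩ := hex
  set V := (Bad ω D B).image f with hV
  have h1 : (Bad ω D B).card = ∑ v ∈ V, ((Bad ω D B).filter fun x => f x = v).card :=
    Finset.card_eq_sum_card_image f _
  have h2 : ∀ v ∈ V, (((Bad ω D B).filter fun x => f x = v).card : ℝ) ≤
      (C : ℝ) ^ 2 * 4 ^ d * (bx ι B).card * (qv v : ℝ) ^ (-2 : ℝ) := by
    intro v hv
    rw [hV, Finset.mem_image] at hv
    obtain ⟨x₀, hx₀, rfl⟩ := hv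
    have hx₀' := (Finset.mem_filter.1 hx₀)
    have hq1 : qv (f x₀) ≤ C * B.1 ^ d :=
      qv_le_of_mem ω hb (mem_box.1 (inl_mem hx₀'.1)) hx₀'.2.1 (hf x₀ hx₀).2.1
    have hq2 : qv (f x₀) ≤ C * B.2 ^ d :=
      qv_le_of_mem ω hb (mem_box.1 (inr_mem hx₀'.1)) hx₀'.2.2.1 (hf x₀ hx₀).2.2
    have hc1 := cntv_le ω hC hb hq1
    have hc2 := cntv_le ω hC hb hq2
    rw [← hd] at hc1 hc2
    have h3 : ((Bad ω D B).filter fun x => f x = f x₀).card ≤
        cntv ω B.1 (f x₀) * cntv ω B.2 (f x₀) := by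
      unfold cntv
      rw [← Finset.card_product]
      refine Finset.card_le_card_of_injOn
        (fun x => (fun i => x (Sum.inl i), fun i => x (Sum.inr i))) ?_ ?_
      · intro x hx
        rw [Finset.mem_coe, Finset.mem_filter] at hx
        have hx1 := Finset.mem_filter.1 hx.1
        have hx2 := hf x hx.1
        rw [hx.2] at hx2
        rw [Finset.mem_coe, Finset.mem_product, Finset.mem_filter, Finset.mem_filter]
        exact ⟨⟨inl_mem hx1.1, hx2.2.1⟩, ⟨inr_mem hx1.1, hx2.2.2⟩⟩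
      · intro x _ y _ h
        exact sum_ext (congrArg Prod.fst h) (congrArg Prod.snd h)
    have hq0 : (0 : ℝ) < qv (f x₀) := by exact_mod_cast Nat.pos_of_ne_zero (qv_ne_zero _)
    have h4 : qv (f x₀) ^ 2 * ((Bad ω D B).filter fun x => f x = f x₀).card ≤
        C ^ 2 * 4 ^ d * (bx ι B).card := by
      calc qv (f x₀) ^ 2 * ((Bad ω D B).filter fun x => f x = f x₀).card
          ≤ qv (f x₀) ^ 2 * (cntv ω B.1 (f x₀) * cntv ω B.2 (f x₀)) := Nat.mul_le_mul_left _ h3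
        _ = (qv (f x₀) * cntv ω B.1 (f x₀)) * (qv (f x₀) * cntv ω B.2 (f x₀)) := by ring
        _ ≤ (C * (4 * B.1) ^ d) * (C * (4 * B.2) ^ d) := Nat.mul_le_mul hc1 hc2
        _ ≤ (C * (2 * (2 * B.1 + 1)) ^ d) * (C * (2 * (2 * B.2 + 1)) ^ d) := by
          have u1 : 4 * B.1 ≤ 2 * (2 * B.1 + 1) := by omega
          have u2 : 4 * B.2 ≤ 2 * (2 * B.2 + 1) := by omega
          exact Nat.mul_le_mul (Nat.mul_le_mul_left _ (Nat.pow_le_pow_left u1 _))
            (Nat.mul_le_mul_left _ (Nat.pow_le_pow_left u2 _))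
        _ = C ^ 2 * 4 ^ d * (bx ι B).card := by
          rw [card_bx, ← hd, mul_pow, mul_pow]
          have : (4 : ℕ) ^ d = 2 ^ d * 2 ^ d := by rw [← mul_pow]; norm_num
          rw [this]
          ring
    have h5 : (qv (f x₀) : ℝ) ^ 2 * (((Bad ω D B).filter fun x => f x = f x₀).card : ℝ) ≤
        (C : ℝ) ^ 2 * 4 ^ d * (bx ι B).card := by exact_mod_cast h4
    have h6 : (qv (f x₀) : ℝ) ^ (-2 : ℝ) = ((qv (f x₀) : ℝ) ^ 2)⁻¹ := by
      rw [Real.rpow_neg hq0.le]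
      norm_cast
    rw [h6, ← div_eq_mul_inv, le_div_iff₀ (by positivity), mul_comm]
    exact h5
  have h3 : ((Bad ω D B).card : ℝ) ≤
      ∑ v ∈ V, (C : ℝ) ^ 2 * 4 ^ d * (bx ι B).card * (qv v : ℝ) ^ (-2 : ℝ) := by
    rw [h1]
    push_cast
    exact Finset.sum_le_sum h2
  rw [← Finset.mul_sum] at h3
  have h4 : ∑ v ∈ V, (qv v : ℝ) ^ (-2 : ℝ) ≤ tail2 D := by
    unfold tail2
    have hdis : Disjoint V D := by
      rw [Finset.disjoint_left]
      intro v hv hvD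
      rw [hV, Finset.mem_image] at hv
      obtain ⟨x, hx, rfl⟩ := hv
      exact (hf x hx).1 hvD
    have h5 : ∑ v ∈ V, (qv v : ℝ) ^ (-2 : ℝ) + ∑ v ∈ D, (qv v : ℝ) ^ (-2 : ℝ) ≤
        ∑' v : HeightOneSpectrum (𝓞 K), (qv v : ℝ) ^ (-2 : ℝ) := by
      rw [← Finset.sum_union hdis]
      exact (summable_qv (by norm_num)).sum_le_tsum _ fun _ _ => by positivity
    linarith
  refine h3.trans ?_
  have : (C : ℝ) ^ 2 * 4 ^ d * (bx ι B).card * ∑ v ∈ V, (qv v : ℝ) ^ (-2 : ℝ) ≤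
      (C : ℝ) ^ 2 * 4 ^ d * (bx ι B).card * tail2 D := by gcongr
  refine this.trans (le_of_eq ?_)
  ring

/-! ### the limit -/

open Classical in
/-- the indicator of the family: nonzero discriminant and minimal at every prime -/
noncomputable def Wt (p : 𝓞 K × 𝓞 K) : ℂ :=
  if disc p ≠ 0 ∧ ∀ v : HeightOneSpectrum (𝓞 K), ¬ NonMin v p then 1 else 0

lemma norm_Wt_le (p : 𝓞 K × 𝓞 K) : ‖Wt p‖ ≤ 1 := by
  unfold Wt
  split_ifs <;> simp

lemma norm_wv_le (v : HeightOneSpectrum (𝓞 K)) (p : 𝓞 K × 𝓞 K) : ‖wv v p‖ ≤ 1 := by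
  unfold wv
  split_ifs <;> simp

/-- outside the exceptional sets only the primes in `D` matter -/
lemma Wt_eq (ω : Module.Basis ι ℤ (𝓞 K)) {D : Finset (HeightOneSpectrum (𝓞 K))} {B : ℕ × ℕ}
    {x : ι ⊕ ι → ℤ} (hx : x ∈ bx ι B) (h1 : x ∉ E1 ι B) (h2 : x ∉ E2 ι B) (h3 : x ∉ E3 ω B)
    (h4 : x ∉ Bad ω D B) : Wt (pt ω x) = ∏ v ∈ D, wv v (pt ω x) := by
  classical
  have g1 : (fun i => x (Sum.inl i)) ≠ 0 := fun h => h1 (Finset.mem_filter.2 ⟨hx, h⟩)
  have g2 : (fun i => x (Sum.inr i)) ≠ 0 := fun h => h2 (Finset.mem_filter.2 ⟨hx, h⟩)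
  have g3 : disc (pt ω x) ≠ 0 := fun h => h3 (Finset.mem_filter.2 ⟨hx, h⟩)
  have g4 : ∀ v : HeightOneSpectrum (𝓞 K), v ∉ D → ¬ NonMin v (pt ω x) := by
    intro v hv hn
    exact h4 (Finset.mem_filter.2 ⟨hx, g1, g2, v, hv, pow_le_self' v (by norm_num) hn.1,
      pow_le_self' v (by norm_num) hn.2⟩)
  unfold Wt
  by_cases h : ∀ v ∈ D, ¬ NonMin v (pt ω x)
  · rw [if_pos ⟨g3, fun v => by
      by_cases hv : v ∈ D
      · exact h v hv
      · exact g4 v hv⟩]
    symm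
    refine Finset.prod_eq_one fun v hv => ?_
    unfold wv
    rw [if_neg (h v hv)]
  · push Not at h
    obtain ⟨v, hv, hn⟩ := h
    rw [if_neg (fun h' => h'.2 v hn)]
    symm
    refine Finset.prod_eq_zero hv ?_
    unfold wv
    rw [if_pos hn]

/-- **The mean over the family** of an Euler product whose factors depend on the reductions of the
coefficients. -/
theorem tendsto_family (ω : Module.Basis ι ℤ (𝓞 K))
    (g : ∀ v : HeightOneSpectrum (𝓞 K), kv v × kv v → ℂ) (h0 : ∀ v, g v 0 = 1)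
    {β : HeightOneSpectrum (𝓞 K) → ℝ} (hβ : Summable β) (hg : ∀ v t, ‖g v t - 1‖ ≤ β v) :
    Tendsto (fun B : ℕ × ℕ => avg (bx ι B)
      (fun x => Wt (pt ω x) * ∏' v, g v (red v (pt ω x)))) atTop
      (𝓝 (∏' v, (fmean (g v) - 1 / (qv v : ℂ) ^ 10))) := by
  classical
  have hsum10 : Summable (fun v : HeightOneSpectrum (𝓞 K) => 1 / (qv v : ℝ) ^ 10) := by
    have := summable_qv (K := K) (by norm_num : (1 : ℝ) < 10)
    refine this.congr fun v => ?_
    have hq0 : (0 : ℝ) < qv v := by exact_mod_cast Nat.pos_of_ne_zero (qv_ne_zero _)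
    rw [Real.rpow_neg hq0.le, one_div]
    norm_cast
  have hm : ∀ v : HeightOneSpectrum (𝓞 K), ‖(fmean (g v) - 1 / (qv v : ℂ) ^ 10) - 1‖ ≤
      β v + 1 / (qv v : ℝ) ^ 10 := by
    intro v
    have h1 : (fmean (g v) - 1 / (qv v : ℂ) ^ 10) - 1 =
        (fmean (g v) - 1) - 1 / (qv v : ℂ) ^ 10 := by ring
    rw [h1]
    refine (norm_sub_le _ _).trans (add_le_add (norm_fmean_sub_one_le (hg v)) (le_of_eq ?_))
    rw [norm_div, norm_one, norm_pow, Complex.norm_natCast]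
  have hL := (multipliable_of_bound (hβ.add hsum10) hm).hasProd
  obtain ⟨C, hC0, hC⟩ := card_Bad ω
  set S : ℝ := Real.exp (∑' v, β v) with hS
  have hS0 : 0 ≤ S := (Real.exp_pos _).le
  refine tendsto_of_approx (FD := fun D B => avg (bx ι B)
    (fun x => ∏ v ∈ D, (wv v (pt ω x) * g v (red v (pt ω x)))))
    (L := fun D => ∏ v ∈ D, (fmean (g v) - 1 / (qv v : ℂ) ^ 10)) ?_
    (fun D => tendsto_finite ω g h0 D) hL
  intro ε hε
  have e1 : ∀ᶠ D in atTop, errP β D < ε / 3 :=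
    (tendsto_errP hβ).eventually (gt_mem_nhds (by positivity))
  have e2 : ∀ᶠ D : Finset (HeightOneSpectrum (𝓞 K)) in atTop, 2 * S * (C * tail2 D) < ε / 3 := by
    have h1 : Tendsto (fun D : Finset (HeightOneSpectrum (𝓞 K)) => 2 * S * (C * tail2 D)) atTop
        (𝓝 (2 * S * (C * 0))) := (tendsto_tail2.const_mul C).const_mul (2 * S)
    rw [mul_zero, mul_zero] at h1
    exact h1.eventually (gt_mem_nhds (by positivity))
  filter_upwards [e1, e2] with D hD1 hD2
  have e3 : ∀ᶠ B : ℕ × ℕ in atTop, 2 * S * ((((E1 ι B).card + (E2 ι B).card + (E3 ω B).card : ℕ) :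
      ℝ) / (bx ι B).card) < ε / 3 := by
    have h1 := (tendsto_E ω).const_mul (2 * S)
    rw [mul_zero] at h1
    exact h1.eventually (gt_mem_nhds (by positivity))
  filter_upwards [e3] with B hB
  have hcard : (0 : ℝ) < (bx ι B).card := by exact_mod_cast card_box_pos _
  have herr0 : 0 ≤ errP β D :=
    (norm_nonneg _).trans (norm_tprod_sub_prod_le hβ (fun v => hg v 0) D)
  -- pointwise bound
  have hpt : ∀ x ∈ bx ι B, ‖Wt (pt ω x) * ∏' v, g v (red v (pt ω x)) -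
      ∏ v ∈ D, (wv v (pt ω x) * g v (red v (pt ω x)))‖ ≤
      errP β D + 2 * S * ((if x ∈ E1 ι B then 1 else 0) + (if x ∈ E2 ι B then 1 else 0) +
        (if x ∈ E3 ω B then 1 else 0) + (if x ∈ Bad ω D B then 1 else 0)) := by
    intro x hx
    have hgx : ∀ v, ‖g v (red v (pt ω x)) - 1‖ ≤ β v := fun v => hg v _
    have hG : ‖∏' v, g v (red v (pt ω x))‖ ≤ S := norm_tprod_le hβ hgx
    have hGD : ‖∏ v ∈ D, g v (red v (pt ω x))‖ ≤ S := norm_prod_le hβ hgx D
    rw [Finset.prod_mul_distrib]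
    have hwD : ‖∏ v ∈ D, wv v (pt ω x)‖ ≤ 1 := by
      rw [norm_prod]
      exact Finset.prod_le_one (fun _ _ => norm_nonneg _) fun v _ => norm_wv_le v _
    by_cases hex : x ∈ E1 ι B ∨ x ∈ E2 ι B ∨ x ∈ E3 ω B ∨ x ∈ Bad ω D B
    · have h1 : (1 : ℝ) ≤ (if x ∈ E1 ι B then 1 else 0) + (if x ∈ E2 ι B then 1 else 0) +
          (if x ∈ E3 ω B then 1 else 0) + (if x ∈ Bad ω D B then 1 else 0) := by
        have p1 : (0 : ℝ) ≤ (if x ∈ E1 ι B then 1 else 0) := by split_ifs <;> norm_num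
        have p2 : (0 : ℝ) ≤ (if x ∈ E2 ι B then 1 else 0) := by split_ifs <;> norm_num
        have p3 : (0 : ℝ) ≤ (if x ∈ E3 ω B then 1 else 0) := by split_ifs <;> norm_num
        have p4 : (0 : ℝ) ≤ (if x ∈ Bad ω D B then 1 else 0) := by split_ifs <;> norm_num
        rcases hex with h | h | h | h
        · rw [if_pos h]; linarith
        · rw [if_pos h]; linarith
        · rw [if_pos h]; linarith
        · rw [if_pos h]; linarith
      have h2 : ‖Wt (pt ω x) * ∏' v, g v (red v (pt ω x)) -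
          (∏ v ∈ D, wv v (pt ω x)) * ∏ v ∈ D, g v (red v (pt ω x))‖ ≤ 2 * S := by
        refine (norm_sub_le _ _).trans ?_
        rw [norm_mul, norm_mul]
        have a1 : ‖Wt (pt ω x)‖ * ‖∏' v, g v (red v (pt ω x))‖ ≤ 1 * S :=
          mul_le_mul (norm_Wt_le _) hG (norm_nonneg _) zero_le_one
        have a2 : ‖∏ v ∈ D, wv v (pt ω x)‖ * ‖∏ v ∈ D, g v (red v (pt ω x))‖ ≤ 1 * S :=
          mul_le_mul hwD hGD (norm_nonneg _) zero_le_one
        linarith
      have h3 : 2 * S * 1 ≤ 2 * S * ((if x ∈ E1 ι B then 1 else 0) +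
          (if x ∈ E2 ι B then 1 else 0) +
          (if x ∈ E3 ω B then 1 else 0) + (if x ∈ Bad ω D B then 1 else 0)) :=
        mul_le_mul_of_nonneg_left h1 (by positivity)
      linarith
    · push Not at hex
      rw [if_neg hex.1, if_neg hex.2.1, if_neg hex.2.2.1, if_neg hex.2.2.2,
        ← Wt_eq ω hx hex.1 hex.2.1 hex.2.2.1 hex.2.2.2, ← mul_sub, norm_mul]
      have h1 := norm_tprod_sub_prod_le hβ hgx D
      have h2 : ‖Wt (pt ω x)‖ * ‖∏' v, g v (red v (pt ω x)) - ∏ v ∈ D, g v (red v (pt ω x))‖ ≤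
          1 * errP β D := mul_le_mul (norm_Wt_le _) h1 (norm_nonneg _) zero_le_one
      linarith
  have hsub : ∀ E : Finset (ι ⊕ ι → ℤ), ∑ x ∈ bx ι B, (if x ∈ E then (1 : ℝ) else 0) ≤ E.card := by
    intro E
    rw [Finset.sum_boole]
    have : ((bx ι B).filter fun x => x ∈ E).card ≤ E.card :=
      Finset.card_le_card fun x hx => (Finset.mem_filter.1 hx).2
    exact_mod_cast this
  have htot : ∑ x ∈ bx ι B, (errP β D + 2 * S * ((if x ∈ E1 ι B then 1 else 0) +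
      (if x ∈ E2 ι B then 1 else 0) + (if x ∈ E3 ω B then 1 else 0) +
      (if x ∈ Bad ω D B then 1 else 0))) ≤
      (bx ι B).card * errP β D + 2 * S * (((E1 ι B).card + (E2 ι B).card + (E3 ω B).card : ℕ) +
        (Bad ω D B).card) := by
    rw [Finset.sum_add_distrib, Finset.sum_const, nsmul_eq_mul, ← Finset.mul_sum]
    simp only [Finset.sum_add_distrib]
    have s1 := hsub (E1 ι B)
    have s2 := hsub (E2 ι B)
    have s3 := hsub (E3 ω B)
    have s4 := hsub (Bad ω D B)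
    push_cast
    gcongr
  have hmain : ‖avg (bx ι B) (fun x => Wt (pt ω x) * ∏' v, g v (red v (pt ω x))) -
      avg (bx ι B) (fun x => ∏ v ∈ D, (wv v (pt ω x) * g v (red v (pt ω x))))‖ ≤
      ((bx ι B).card * errP β D + 2 * S * (((E1 ι B).card + (E2 ι B).card + (E3 ω B).card : ℕ) +
        (Bad ω D B).card)) / (bx ι B).card := by
    unfold avg
    rw [← sub_div, ← Finset.sum_sub_distrib, norm_div, Complex.norm_natCast]
    refine div_le_div_of_nonneg_right ?_ hcard.le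
    exact (norm_sum_le _ _).trans ((Finset.sum_le_sum hpt).trans htot)
  refine hmain.trans ?_
  have hbad := hC D B
  have h1 : ((bx ι B).card * errP β D + 2 * S * (((E1 ι B).card + (E2 ι B).card +
      (E3 ω B).card : ℕ) + (Bad ω D B).card)) / ((bx ι B).card : ℝ) ≤
      errP β D + 2 * S * ((((E1 ι B).card + (E2 ι B).card + (E3 ω B).card : ℕ) : ℝ) /
        (bx ι B).card) + 2 * S * (C * tail2 D) := by
    rw [div_le_iff₀ hcard]
    have h2 : (errP β D + 2 * S * ((((E1 ι B).card + (E2 ι B).card + (E3 ω B).card : ℕ) : ℝ) /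
        (bx ι B).card) + 2 * S * (C * tail2 D)) * (bx ι B).card =
        (bx ι B).card * errP β D + 2 * S * (((E1 ι B).card + (E2 ι B).card +
        (E3 ω B).card : ℕ) : ℝ) + 2 * S * (C * tail2 D * (bx ι B).card) := by
      field_simp
    rw [h2]
    have h3 : 2 * S * ((Bad ω D B).card : ℝ) ≤ 2 * S * (C * tail2 D * (bx ι B).card) := by
      gcongr
    linarith
  refine h1.trans ?_
  linarith

end

end Pool.Agent.T6.H9.MV
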