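import Pool.Agent.T6.H9.MV.Taylor

/-!
# The local estimate

The mean over all reduced curves of a product of powers of local factors, times the local factors
of the zeta functions, is `1 + O(κ²/q + κ⁴)`.

Owner helper9.
-/

set_option autoImplicit false
set_option linter.unusedSectionVars false

open Filter Topology Finset Asymptotics

namespace Pool.Agent.T6.H9.MV

variable {r : ℕ}

/-- exponents of the zeta factors: `n_j n_k` for `j ≠ k`, and `n_k (n_k - 1) / 2` for `j = k` -/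
def ex (n : Fin r → ℤ) (p : Fin r × Fin r) : ℤ :=
  if p.1 = p.2 then n p.1 * (n p.1 - 1) / 2 else n p.1 * n p.2

/-- the pairs `j ≤ k` -/
def prs (r : ℕ) : Finset (Fin r × Fin r) := Finset.univ.filter fun p => p.1 ≤ p.2

lemma ex_diag (n : ℤ) : ((n * (n - 1) / 2 : ℤ) : ℂ) = ((n : ℂ) ^ 2 - n) / 2 := by
  have h : (2 : ℤ) ∣ n * (n - 1) := by
    rcases Int.even_or_odd n with h | h
    · exact Dvd.dvd.mul_right h.two_dvd _
    · exact Dvd.dvd.mul_left (Int.even_sub_one.2 (Int.not_even_iff_odd.2 h)).two_dvd _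
  rw [Int.cast_div h (by norm_num)]
  push_cast
  ring

lemma quad_identity (n : Fin r → ℤ) (x : Fin r → ℂ) :
    ∑ p ∈ prs r, (ex n p : ℂ) * (x p.1 * x p.2) =
      ((∑ k, n k * x k) ^ 2 - ∑ k, n k * x k ^ 2) / 2 := by
  classical
  set g : Fin r × Fin r → ℂ := fun p => (n p.1 * x p.1) * (n p.2 * x p.2) with hg
  have h1 : (∑ k, n k * x k) ^ 2 = ∑ p : Fin r × Fin r, g p := by
    rw [sq, Finset.sum_mul_sum, ← Finset.sum_product']
    rfl
  have h2 : ∑ p : Fin r × Fin r, g p =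
      ∑ p : Fin r × Fin r with p.1 < p.2, g p + (∑ p : Fin r × Fin r with p.1 = p.2, g p +
        ∑ p : Fin r × Fin r with p.2 < p.1, g p) := by
    rw [← Finset.sum_filter_add_sum_filter_not _ (fun p : Fin r × Fin r => p.1 < p.2)]
    congr 1
    rw [← Finset.sum_filter_add_sum_filter_not _ (fun p : Fin r × Fin r => p.1 = p.2)]
    congr 1
    · refine Finset.sum_congr ?_ fun _ _ => rfl
      ext p
      simp only [Finset.mem_filter, Finset.mem_univ, true_and, not_lt]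
      constructor
      · exact fun h => h.2
      · exact fun h => ⟨h.ge, h⟩
    · refine Finset.sum_congr ?_ fun _ _ => rfl
      ext p
      simp only [Finset.mem_filter, Finset.mem_univ, true_and, not_lt]
      constructor
      · exact fun h => lt_of_le_of_ne h.1 (Ne.symm h.2)
      · exact fun h => ⟨h.le, (ne_of_lt h).symm⟩
  have h3 : ∑ p : Fin r × Fin r with p.2 < p.1, g p = ∑ p : Fin r × Fin r with p.1 < p.2, g p := by
    refine Finset.sum_nbij' Prod.swap Prod.swap ?_ ?_ ?_ ?_ ?_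
    · intro p hp; simpa using hp
    · intro p hp; simpa using hp
    · intro p _; rfl
    · intro p _; rfl
    · intro p _; simp only [hg, Prod.fst_swap, Prod.snd_swap]; ring
  have h4 : ∀ f : Fin r × Fin r → ℂ, ∑ p : Fin r × Fin r with p.1 = p.2, f p = ∑ k, f (k, k) := by
    intro f
    refine Finset.sum_nbij' (fun p => p.1) (fun k => (k, k)) ?_ ?_ ?_ ?_ ?_
    · intro p _; exact Finset.mem_univ _
    · intro k _; simp
    · rintro ⟨a, b⟩ hp
      simp only [Finset.mem_filter, Finset.mem_univ, true_and] at hp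
      rw [hp]
    · intro k _; rfl
    · rintro ⟨a, b⟩ hp
      simp only [Finset.mem_filter, Finset.mem_univ, true_and] at hp
      rw [hp]
  have h5 : ∑ p ∈ prs r, (ex n p : ℂ) * (x p.1 * x p.2) =
      ∑ p : Fin r × Fin r with p.1 < p.2, g p + ∑ k, (ex n (k, k) : ℂ) * (x k * x k) := by
    unfold prs
    rw [← Finset.sum_filter_add_sum_filter_not _ (fun p : Fin r × Fin r => p.1 < p.2),
      Finset.filter_filter, Finset.filter_filter]
    congr 1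
    · have : (Finset.univ.filter fun p : Fin r × Fin r => p.1 ≤ p.2 ∧ p.1 < p.2) =
          Finset.univ.filter fun p : Fin r × Fin r => p.1 < p.2 := by
        ext p
        simp only [Finset.mem_filter, Finset.mem_univ, true_and]
        exact ⟨fun h => h.2, fun h => ⟨h.le, h⟩⟩
      rw [this]
      refine Finset.sum_congr rfl fun p hp => ?_
      have hp' : p.1 ≠ p.2 := (Finset.mem_filter.1 hp).2.ne
      rw [hg, ex, if_neg hp']
      push_cast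
      ring
    · have : (Finset.univ.filter fun p : Fin r × Fin r => p.1 ≤ p.2 ∧ ¬ p.1 < p.2) =
          Finset.univ.filter fun p : Fin r × Fin r => p.1 = p.2 := by
        ext p
        simp only [Finset.mem_filter, Finset.mem_univ, true_and, not_lt]
        exact ⟨fun h => le_antisymm h.1 h.2, fun h => ⟨h.le, h.ge⟩⟩
      rw [this]
      exact h4 fun p => (ex n p : ℂ) * (x p.1 * x p.2)
  rw [h5, h1, h2, h3, h4]
  have h6 : ∑ k, (ex n (k, k) : ℂ) * (x k * x k) =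
      (∑ k, g (k, k) - ∑ k, n k * x k ^ 2) / 2 := by
    rw [← Finset.sum_sub_distrib, Finset.sum_div]
    refine Finset.sum_congr rfl fun k _ => ?_
    simp only [ex, if_true, hg]
    rw [ex_diag]
    ring
  rw [h6]
  ring

/-- the local polynomial `1 - a T + e q T²` -/
noncomputable def LD (q a e : ℝ) (T : ℂ) : ℂ := 1 - a * T + e * q * T ^ 2

lemma one_sub_bounds {z : ℂ} {ρ : ℝ} (hz : ‖z‖ ≤ ρ) : 1 - ρ ≤ ‖1 - z‖ ∧ ‖1 - z‖ ≤ 1 + ρ := by
  constructor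
  · have := norm_sub_norm_le (1 : ℂ) z
    rw [norm_one] at this
    linarith
  · have := norm_sub_le (1 : ℂ) z
    rw [norm_one] at this
    linarith

lemma LD_bounds {q a e ρ : ℝ} {T : ℂ} (hq : 0 < q) (h : |a| ≤ 2 * √q)
    (he : e = 1 ∨ (e = 0 ∧ |a| ≤ √q)) (hT : √q * ‖T‖ ≤ ρ) (hρ : ρ < 1) :
    (1 - ρ) ^ 2 ≤ ‖LD q a e T‖ ∧ ‖LD q a e T‖ ≤ (1 + ρ) ^ 2 := by
  have hρ0 : 0 ≤ ρ := le_trans (by positivity) hT
  rcases he with he | ⟨he, ha⟩
  · have h1 : a ^ 2 ≤ 4 * q := by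
      have h2 : |a| ^ 2 ≤ (2 * √q) ^ 2 := pow_le_pow_left₀ (abs_nonneg _) h 2
      rw [sq_abs, mul_pow, Real.sq_sqrt hq.le] at h2
      linarith
    set s : ℝ := √(4 * q - a ^ 2) with hs
    have hs2 : s ^ 2 = 4 * q - a ^ 2 := Real.sq_sqrt (by linarith)
    set z : ℂ := ⟨a / 2, s / 2⟩ with hz
    have hns : Complex.normSq z = q := by
      rw [Complex.normSq_apply, hz]
      nlinarith
    have hnz : ‖z‖ = √q := by rw [← hns, Complex.normSq_eq_norm_sq, Real.sqrt_sq (norm_nonneg _)]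
    set z' : ℂ := (starRingEnd ℂ) z with hz'
    have hnz' : ‖z'‖ = √q := by rw [hz', RCLike.norm_conj, hnz]
    have hadd : z + z' = a := by
      rw [hz', Complex.add_conj, hz]
      push_cast
      ring
    have hmul : z * z' = q := by
      rw [hz', Complex.mul_conj, hns]
    have hfac : LD q a e T = (1 - z * T) * (1 - z' * T) := by
      unfold LD
      rw [he]
      have h2 : (1 - z * T) * (1 - z' * T) = 1 - (z + z') * T + (z * z') * T ^ 2 := by ring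
      rw [h2, hadd, hmul]
      push_cast
      ring
    have hzT : ‖z * T‖ ≤ ρ := by rw [norm_mul, hnz]; exact hT
    have hzT' : ‖z' * T‖ ≤ ρ := by rw [norm_mul, hnz']; exact hT
    obtain ⟨b1, b2⟩ := one_sub_bounds hzT
    obtain ⟨b3, b4⟩ := one_sub_bounds hzT'
    rw [hfac, norm_mul]
    constructor
    · rw [sq]
      exact mul_le_mul b1 b3 (by linarith) (norm_nonneg _)
    · rw [sq]
      exact mul_le_mul b2 b4 (norm_nonneg _) (by linarith)
  · have hfac : LD q a e T = 1 - (a : ℂ) * T := by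
      unfold LD
      rw [he]
      simp
    have haT : ‖(a : ℂ) * T‖ ≤ ρ := by
      rw [norm_mul, Complex.norm_real, Real.norm_eq_abs]
      exact (mul_le_mul_of_nonneg_right ha (norm_nonneg _)).trans hT
    obtain ⟨b1, b2⟩ := one_sub_bounds haT
    rw [hfac]
    constructor
    · nlinarith
    · nlinarith

lemma norm_zpow_le {z : ℂ} {Λ : ℝ} (h1 : Λ⁻¹ ≤ ‖z‖) (h2 : ‖z‖ ≤ Λ) (hΛ : 1 ≤ Λ) (n : ℤ) :
    ‖z ^ n‖ ≤ Λ ^ n.natAbs := by
  have hz : 0 < ‖z‖ := lt_of_lt_of_le (by positivity) h1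
  cases n with
  | ofNat n =>
    simp only [Int.ofNat_eq_natCast, zpow_natCast, Int.natAbs_natCast, norm_pow]
    gcongr
  | negSucc n =>
    rw [zpow_negSucc, norm_inv, norm_pow, Int.natAbs_negSucc, ← inv_pow]
    gcongr
    rw [inv_le_comm₀ hz (by linarith)]
    exact h1

/-- the local function whose mean is taken -/
noncomputable def Phi (n : Fin r → ℤ) (q a e : ℝ) (T : Fin r → ℂ) : ℂ :=
  (∏ k, LD q a e (T k) ^ (-n k)) * ∏ p ∈ prs r, (1 - q * (T p.1 * T p.2)) ^ ex n p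

/-- the data of the family of reduced curves over a finite field with `q` elements -/
structure Good {Ω : Type} [Fintype Ω] (q : ℝ) (tr ε : Ω → ℝ) : Prop where
  hq : 1 < q
  bound : ∀ ω, |tr ω| ≤ 2 * √q
  eps : ∀ ω, ε ω = 1 ∨ (ε ω = 0 ∧ |tr ω| ≤ √q)
  sym : ∃ τ : Ω ≃ Ω, ∀ ω, tr (τ ω) = - tr ω ∧ ε (τ ω) = ε ω
  m2 : ∑ ω, tr ω ^ 2 = (q - 1) * Fintype.card Ω
  me : ∑ ω, ε ω = (1 - 1 / q) * Fintype.card Ω

/-- the size bound -/
noncomputable def Lam (ρ : ℝ) : ℝ := max 4 ((1 - ρ) ^ 2)⁻¹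

lemma one_le_Lam (ρ : ℝ) : 1 ≤ Lam ρ := le_max_of_le_left (by norm_num)

/-- total exponent -/
def Nt (n : Fin r → ℤ) : ℕ := ∑ k, (n k).natAbs

/-- total exponent -/
def Np (n : Fin r → ℤ) : ℕ := ∑ p ∈ prs r, (ex n p).natAbs

lemma Lam_inv_le {ρ : ℝ} (hρ : ρ < 1) : (Lam ρ)⁻¹ ≤ (1 - ρ) ^ 2 := by
  have h1 : 0 < (1 - ρ) ^ 2 := by
    have : 0 < 1 - ρ := by linarith
    positivity
  rw [inv_le_comm₀ (by linarith [one_le_Lam ρ]) h1]
  exact le_max_right _ _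

lemma LD_Lam {q a e ρ : ℝ} {T : ℂ} (hq : 0 < q) (h : |a| ≤ 2 * √q)
    (he : e = 1 ∨ (e = 0 ∧ |a| ≤ √q)) (hT : √q * ‖T‖ ≤ ρ) (hρ : ρ < 1) :
    (Lam ρ)⁻¹ ≤ ‖LD q a e T‖ ∧ ‖LD q a e T‖ ≤ Lam ρ := by
  have hρ0 : 0 ≤ ρ := le_trans (by positivity) hT
  obtain ⟨h1, h2⟩ := LD_bounds hq h he hT hρ
  refine ⟨(Lam_inv_le hρ).trans h1, h2.trans ?_⟩
  refine le_max_of_le_left ?_
  nlinarith

lemma pair_Lam {q ρ : ℝ} {T T' : ℂ} (hq : 0 < q) (hT : √q * ‖T‖ ≤ ρ) (hT' : √q * ‖T'‖ ≤ ρ)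
    (hρ : ρ < 1) :
    (Lam ρ)⁻¹ ≤ ‖1 - (q : ℂ) * (T * T')‖ ∧ ‖1 - (q : ℂ) * (T * T')‖ ≤ Lam ρ := by
  have hρ0 : 0 ≤ ρ := le_trans (by positivity) hT
  have h1 : ‖(q : ℂ) * (T * T')‖ ≤ ρ ^ 2 := by
    rw [norm_mul, norm_mul, Complex.norm_real, Real.norm_eq_abs, abs_of_pos hq]
    have h2 : q * (‖T‖ * ‖T'‖) = (√q * ‖T‖) * (√q * ‖T'‖) := by
      have := Real.mul_self_sqrt hq.le
      calc q * (‖T‖ * ‖T'‖) = (√q * √q) * (‖T‖ * ‖T'‖) := by rw [this]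
        _ = _ := by ring
    rw [h2, sq]
    exact mul_le_mul hT hT' (by positivity) hρ0
  obtain ⟨b1, b2⟩ := one_sub_bounds h1
  constructor
  · refine (Lam_inv_le hρ).trans (le_trans ?_ b1)
    nlinarith
  · refine b2.trans (le_max_of_le_left ?_)
    nlinarith

lemma norm_Phi_le {n : Fin r → ℤ} {q a e ρ : ℝ} {T : Fin r → ℂ} (hq : 0 < q) (h : |a| ≤ 2 * √q)
    (he : e = 1 ∨ (e = 0 ∧ |a| ≤ √q)) (hT : ∀ k, √q * ‖T k‖ ≤ ρ) (hρ : ρ < 1) :
    ‖Phi n q a e T‖ ≤ Lam ρ ^ (Nt n + Np n) := by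
  unfold Phi
  rw [norm_mul, norm_prod, norm_prod, pow_add]
  have hL := one_le_Lam ρ
  have h1 : ∏ k, ‖LD q a e (T k) ^ (-n k)‖ ≤ Lam ρ ^ Nt n := by
    rw [Nt, ← Finset.prod_pow_eq_pow_sum]
    refine Finset.prod_le_prod (fun _ _ => norm_nonneg _) fun k _ => ?_
    obtain ⟨b1, b2⟩ := LD_Lam hq h he (hT k) hρ
    have := norm_zpow_le b1 b2 hL (-n k)
    rwa [Int.natAbs_neg] at this
  have h2 : ∏ p ∈ prs r, ‖(1 - (q : ℂ) * (T p.1 * T p.2)) ^ ex n p‖ ≤ Lam ρ ^ Np n := by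
    rw [Np, ← Finset.prod_pow_eq_pow_sum]
    refine Finset.prod_le_prod (fun _ _ => norm_nonneg _) fun p _ => ?_
    obtain ⟨b1, b2⟩ := pair_Lam hq (hT p.1) (hT p.2) hρ
    exact norm_zpow_le b1 b2 hL _
  exact mul_le_mul h1 h2 (Finset.prod_nonneg fun _ _ => norm_nonneg _) (by positivity)

lemma LD_neg (q a e : ℝ) (T : ℂ) : LD q (-a) e T = LD q a e (-T) := by
  unfold LD
  push_cast
  ring

lemma Phi_neg (n : Fin r → ℤ) (q a e : ℝ) (T : Fin r → ℂ) :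
    Phi n q (-a) e T = Phi n q a e (fun k => - T k) := by
  unfold Phi
  simp only [LD_neg, neg_mul_neg]

/-- the mean of the local function -/
noncomputable def EPhi {Ω : Type} [Fintype Ω] (n : Fin r → ℤ) (q : ℝ) (tr ε : Ω → ℝ)
    (T : Fin r → ℂ) : ℂ := (∑ ω, Phi n q (tr ω) (ε ω) T) / (Fintype.card Ω : ℂ)

lemma LD_jet (q a e : ℝ) (T : ℂ) :
    Jet (fun w => LD q a e (w * T)) (-(a * T)) (e * q * T ^ 2 - (a * T) ^ 2 / 2) := by
  have h := Jet.quad (a * T) (e * q * T ^ 2)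
  have h1 : (fun w : ℂ => LD q a e (w * T)) = fun w => 1 - (a * T) * w + (e * q * T ^ 2) * w ^ 2 := by
    funext w
    unfold LD
    ring
  rw [h1]
  exact h

lemma LD_tendsto (q a e : ℝ) (T : ℂ) : Tendsto (fun w => LD q a e (w * T)) (𝓝 0) (𝓝 1) := by
  have h : Continuous fun w => LD q a e (w * T) := by
    unfold LD
    fun_prop
  have := h.tendsto 0
  simpa [LD] using this

lemma pair_jet (q : ℝ) (T T' : ℂ) :
    Jet (fun w => 1 - (q : ℂ) * ((w * T) * (w * T'))) 0 (-(q * (T * T'))) := by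
  have h := Jet.quad 0 (-(q * (T * T')))
  have h1 : (fun w : ℂ => 1 - (q : ℂ) * ((w * T) * (w * T'))) =
      fun w => 1 - 0 * w + (-(q * (T * T'))) * w ^ 2 := by
    funext w
    ring
  rw [h1]
  simpa using h

lemma pair_tendsto (q : ℝ) (T T' : ℂ) :
    Tendsto (fun w => 1 - (q : ℂ) * ((w * T) * (w * T'))) (𝓝 0) (𝓝 1) := by
  have h : Continuous fun w => 1 - (q : ℂ) * ((w * T) * (w * T')) := by fun_prop
  have := h.tendsto 0
  simpa using this

/-- `∑ n_k T_k` -/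
noncomputable def s1 (n : Fin r → ℤ) (T : Fin r → ℂ) : ℂ := ∑ k, n k * T k
/-- `∑ n_k T_k²` -/
noncomputable def s2 (n : Fin r → ℤ) (T : Fin r → ℂ) : ℂ := ∑ k, n k * T k ^ 2

lemma Phi_jet (n : Fin r → ℤ) (q a e : ℝ) (T : Fin r → ℂ) :
    Jet (fun w => Phi n q a e (fun k => w * T k)) (a * s1 n T)
      ((a ^ 2 / 2 - e * q) * s2 n T - q * ((s1 n T ^ 2 - s2 n T) / 2)) := by
  have h1 : Jet (fun w => ∏ k, LD q a e (w * T k) ^ (-n k))
      (∑ k, ((-n k : ℤ) : ℂ) * (-(a * T k)))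
      (∑ k, ((-n k : ℤ) : ℂ) * (e * q * T k ^ 2 - (a * T k) ^ 2 / 2)) :=
    Jet.prod _ fun k _ => (LD_jet q a e (T k)).zpow (LD_tendsto q a e (T k)) (-n k)
  have h2 : Jet (fun w => ∏ p ∈ prs r, (1 - (q : ℂ) * ((w * T p.1) * (w * T p.2))) ^ ex n p)
      (∑ p ∈ prs r, ((ex n p : ℤ) : ℂ) * 0)
      (∑ p ∈ prs r, ((ex n p : ℤ) : ℂ) * (-(q * (T p.1 * T p.2)))) :=
    Jet.prod _ fun p _ => (pair_jet q (T p.1) (T p.2)).zpow (pair_tendsto q (T p.1) (T p.2)) _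
  have h3 := h1.mul h2
  have hA : (∑ k, ((-n k : ℤ) : ℂ) * (-(a * T k))) + (∑ p ∈ prs r, ((ex n p : ℤ) : ℂ) * 0) =
      a * s1 n T := by
    simp only [mul_zero, Finset.sum_const_zero, add_zero]
    rw [s1, Finset.mul_sum]
    refine Finset.sum_congr rfl fun k _ => ?_
    push_cast
    ring
  have hB : (∑ k, ((-n k : ℤ) : ℂ) * (e * q * T k ^ 2 - (a * T k) ^ 2 / 2)) +
      (∑ p ∈ prs r, ((ex n p : ℤ) : ℂ) * (-(q * (T p.1 * T p.2)))) =
      (a ^ 2 / 2 - e * q) * s2 n T - q * ((s1 n T ^ 2 - s2 n T) / 2) := by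
    have h4 : ∑ p ∈ prs r, ((ex n p : ℤ) : ℂ) * (-(q * (T p.1 * T p.2))) =
        - (q * ∑ p ∈ prs r, ((ex n p : ℤ) : ℂ) * (T p.1 * T p.2)) := by
      rw [Finset.mul_sum, ← Finset.sum_neg_distrib]
      refine Finset.sum_congr rfl fun p _ => ?_
      ring
    rw [h4, quad_identity, ← sub_eq_add_neg]
    congr 1
    rw [s2, Finset.mul_sum]
    refine Finset.sum_congr rfl fun k _ => ?_
    push_cast
    ring
  rw [hA, hB] at h3
  exact h3

lemma EPhi_bigO {Ω : Type} [Fintype Ω] [Nonempty Ω] {n : Fin r → ℤ} {q : ℝ} {tr ε : Ω → ℝ}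
    (h : Good q tr ε) (T : Fin r → ℂ) :
    (fun w => EPhi n q tr ε (fun k => w * T k) - (1 - (s1 n T ^ 2 - s2 n T) / 2 * w ^ 2)) =O[𝓝 0]
      fun w => w ^ 3 := by
  have hc : (Fintype.card Ω : ℂ) ≠ 0 := by exact_mod_cast Fintype.card_ne_zero
  have hq0 : (q : ℂ) ≠ 0 := by
    have := h.hq
    exact_mod_cast (by linarith : q ≠ 0)
  have h1 : (fun w => ∑ ω, (Phi n q (tr ω) (ε ω) (fun k => w * T k) -
      (1 + (tr ω * s1 n T) * w + ((tr ω * s1 n T) ^ 2 / 2 + ((tr ω ^ 2 / 2 - ε ω * q) * s2 n T -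
        q * ((s1 n T ^ 2 - s2 n T) / 2))) * w ^ 2))) =O[𝓝 0] fun w : ℂ => w ^ 3 :=
    IsBigO.fun_sum fun ω _ => Phi_jet n q (tr ω) (ε ω) T
  have h2 := h1.const_mul_left ((Fintype.card Ω : ℂ)⁻¹)
  refine h2.congr_left fun w => ?_
  -- moments
  have hm1 : ∑ ω, (tr ω : ℂ) = 0 := by
    obtain ⟨τ, hτ⟩ := h.sym
    have h3 : ∑ ω, (tr ω : ℂ) = ∑ ω, -(tr ω : ℂ) := by
      rw [← Equiv.sum_comp τ]
      refine Finset.sum_congr rfl fun ω _ => ?_
      rw [(hτ ω).1]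
      push_cast
      rfl
    rw [Finset.sum_neg_distrib] at h3
    exact self_eq_neg.1 h3
  have hm2 : ∑ ω, (tr ω : ℂ) ^ 2 = (q - 1) * Fintype.card Ω := by exact_mod_cast h.m2
  have hme : ∑ ω, (ε ω : ℂ) = (1 - 1 / q) * Fintype.card Ω := by
    have h5 := congrArg (fun x : ℝ => (x : ℂ)) h.me
    push_cast at h5
    exact h5
  have h4 : ∑ ω, (1 + (tr ω * s1 n T) * w + ((tr ω * s1 n T) ^ 2 / 2 +
      ((tr ω ^ 2 / 2 - ε ω * q) * s2 n T - q * ((s1 n T ^ 2 - s2 n T) / 2))) * w ^ 2) =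
      Fintype.card Ω + (∑ ω, (tr ω : ℂ)) * (s1 n T * w) + (∑ ω, (tr ω : ℂ) ^ 2) *
        ((s1 n T ^ 2 / 2 + s2 n T / 2) * w ^ 2) - (∑ ω, (ε ω : ℂ)) * (q * s2 n T * w ^ 2) -
        Fintype.card Ω * (q * ((s1 n T ^ 2 - s2 n T) / 2) * w ^ 2) := by
    simp only [Finset.sum_mul]
    have h5 : (Fintype.card Ω : ℂ) = ∑ _ω : Ω, (1 : ℂ) := by simp
    rw [h5, Finset.sum_mul, ← Finset.sum_add_distrib, ← Finset.sum_add_distrib,
      ← Finset.sum_sub_distrib, ← Finset.sum_sub_distrib]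
    refine Finset.sum_congr rfl fun ω _ => ?_
    ring
  rw [Finset.sum_sub_distrib, h4, hm1, hm2, hme, EPhi]
  field_simp
  ring

/-- **The local estimate.** -/
theorem local_estimate (n : Fin r → ℤ) {ρ : ℝ} (hρ0 : 0 < ρ) (hρ1 : ρ < 1) :
    ∃ C : ℝ, 0 ≤ C ∧ ∀ (Ω : Type) [Fintype Ω] [Nonempty Ω] (q : ℝ) (tr ε : Ω → ℝ),
      Good q tr ε → ∀ (κ : ℝ), 0 < κ → κ ≤ ρ ^ 2 → ∀ T : Fin r → ℂ, (∀ k, √q * ‖T k‖ ≤ κ) →
        ‖EPhi n q tr ε T - 1‖ ≤ C * (κ ^ 2 / q + κ ^ 4) := by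
  set N : ℝ := ∑ k, ‖(n k : ℂ)‖ with hN
  have hN0 : 0 ≤ N := Finset.sum_nonneg fun _ _ => norm_nonneg _
  set M : ℝ := Lam ρ ^ (Nt n + Np n) + 1 + (N ^ 2 + N) with hM
  have hL := one_le_Lam ρ
  have hM0 : 0 ≤ M := by positivity
  have hρ1' : 0 < 1 - ρ := by linarith
  refine ⟨(N ^ 2 + N) + M / (ρ ^ 4 * (1 - ρ)), by positivity, ?_⟩
  intro Ω _ _ q tr ε hG κ hκ hκρ T hT
  have hq := hG.hq
  have hq0 : 0 < q := by linarith
  have hsq : 0 < √q := Real.sqrt_pos.2 hq0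
  have hc : (Fintype.card Ω : ℂ) ≠ 0 := by exact_mod_cast Fintype.card_ne_zero
  have hc' : (0 : ℝ) < (Fintype.card Ω : ℝ) := by exact_mod_cast Fintype.card_pos
  set R : ℝ := ρ / κ with hR
  have hR0 : 0 < R := by positivity
  have hRi : 1 / R ≤ ρ := by
    rw [hR, one_div_div, div_le_iff₀ hρ0, ← sq]
    exact hκρ
  have hR1 : 1 < R := by
    have h1 : 1 / R < 1 := hRi.trans_lt hρ1
    rwa [div_lt_one hR0] at h1
  set Q : ℂ := (s1 n T ^ 2 - s2 n T) / 2 with hQ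
  -- bounds for `Q`
  have hTk : ∀ k, ‖T k‖ ≤ κ / √q := by
    intro k
    rw [le_div_iff₀ hsq, mul_comm]
    exact hT k
  have hs1 : ‖s1 n T‖ ≤ N * (κ / √q) := by
    unfold s1
    refine (norm_sum_le _ _).trans ?_
    rw [hN, Finset.sum_mul]
    refine Finset.sum_le_sum fun k _ => ?_
    rw [norm_mul]
    exact mul_le_mul_of_nonneg_left (hTk k) (norm_nonneg _)
  have hs2 : ‖s2 n T‖ ≤ N * (κ / √q) ^ 2 := by
    unfold s2
    refine (norm_sum_le _ _).trans ?_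
    rw [hN, Finset.sum_mul]
    refine Finset.sum_le_sum fun k _ => ?_
    rw [norm_mul, norm_pow]
    exact mul_le_mul_of_nonneg_left (pow_le_pow_left₀ (norm_nonneg _) (hTk k) 2) (norm_nonneg _)
  have hκq : (κ / √q) ^ 2 = κ ^ 2 / q := by rw [div_pow, Real.sq_sqrt hq0.le]
  have hQb : ‖Q‖ ≤ (N ^ 2 + N) * (κ ^ 2 / q) := by
    rw [hQ, norm_div]
    have h1 : ‖s1 n T ^ 2 - s2 n T‖ ≤ (N * (κ / √q)) ^ 2 + N * (κ / √q) ^ 2 := by
      refine (norm_sub_le _ _).trans (add_le_add ?_ hs2)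
      rw [norm_pow]
      exact pow_le_pow_left₀ (norm_nonneg _) hs1 2
    rw [mul_pow, hκq] at h1
    have h2 : ‖(2 : ℂ)‖ = 2 := by simp
    rw [h2]
    have h3 : 0 ≤ N ^ 2 * (κ ^ 2 / q) + N * (κ ^ 2 / q) := by positivity
    calc ‖s1 n T ^ 2 - s2 n T‖ / 2 ≤ (N ^ 2 * (κ ^ 2 / q) + N * (κ ^ 2 / q)) / 2 := by gcongr
      _ ≤ N ^ 2 * (κ ^ 2 / q) + N * (κ ^ 2 / q) := by linarith
      _ = _ := by ring
  have hQR : ‖Q‖ * R ^ 2 ≤ N ^ 2 + N := by
    have h1 : (N ^ 2 + N) * (κ ^ 2 / q) * R ^ 2 = (N ^ 2 + N) * (ρ ^ 2 / q) := by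
      rw [hR]
      field_simp
    calc ‖Q‖ * R ^ 2 ≤ (N ^ 2 + N) * (κ ^ 2 / q) * R ^ 2 := by gcongr
      _ = (N ^ 2 + N) * (ρ ^ 2 / q) := h1
      _ ≤ (N ^ 2 + N) * 1 := by
        have : ρ ^ 2 / q ≤ 1 := by
          rw [div_le_one hq0]
          nlinarith
        gcongr
      _ = _ := mul_one _
  -- the function
  set F : ℂ → ℂ := fun w => EPhi n q tr ε (fun k => w * T k) with hF
  set G : ℂ → ℂ := fun w => F w - (1 - Q * w ^ 2) with hGd
  have hwT : ∀ w : ℂ, ‖w‖ ≤ R → ∀ k, √q * ‖w * T k‖ ≤ ρ := by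
    intro w hw k
    rw [norm_mul]
    calc √q * (‖w‖ * ‖T k‖) = ‖w‖ * (√q * ‖T k‖) := by ring
      _ ≤ R * κ := mul_le_mul hw (hT k) (by positivity) hR0.le
      _ = ρ := by rw [hR]; field_simp
  have hFb : ∀ w : ℂ, ‖w‖ ≤ R → ‖F w‖ ≤ Lam ρ ^ (Nt n + Np n) := by
    intro w hw
    rw [hF]
    simp only [EPhi]
    rw [norm_div, Complex.norm_natCast, div_le_iff₀ hc']
    refine (norm_sum_le _ _).trans ?_
    have : ∑ ω : Ω, ‖Phi n q (tr ω) (ε ω) fun k => w * T k‖ ≤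
        ∑ _ω : Ω, Lam ρ ^ (Nt n + Np n) :=
      Finset.sum_le_sum fun ω _ => norm_Phi_le hq0 (hG.bound ω) (hG.eps ω) (hwT w hw) hρ1
    refine this.trans (le_of_eq ?_)
    rw [Finset.sum_const, Finset.card_univ, nsmul_eq_mul, mul_comm]
  have hGb : ∀ z ∈ Metric.sphere (0 : ℂ) R, ‖G z‖ ≤ M := by
    intro z hz
    have hz' : ‖z‖ = R := by simpa using hz
    rw [hGd]
    have h1 : ‖F z - (1 - Q * z ^ 2)‖ ≤ ‖F z‖ + (1 + ‖Q‖ * R ^ 2) := by
      refine (norm_sub_le _ _).trans (add_le_add le_rfl ?_)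
      refine (norm_sub_le _ _).trans ?_
      rw [norm_one, norm_mul, norm_pow, hz']
    refine h1.trans ?_
    rw [hM]
    have := hFb z hz'.le
    linarith
  have hdiff : DiffContOnCl ℂ G (Metric.ball 0 R) := by
    refine DifferentiableOn.diffContOnCl ?_
    rw [closure_ball _ hR0.ne']
    intro w hw
    have hw' : ‖w‖ ≤ R := by simpa using hw
    apply DifferentiableAt.differentiableWithinAt
    have h1 : DifferentiableAt ℂ F w := by
      rw [hF]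
      unfold EPhi
      refine DifferentiableAt.div_const (DifferentiableAt.fun_sum fun ω _ => ?_) _
      unfold Phi
      have hne : (0 : ℝ) < (Lam ρ)⁻¹ := by
        have := one_le_Lam ρ
        positivity
      refine DifferentiableAt.mul (DifferentiableAt.fun_finsetProd fun k _ => ?_)
        (DifferentiableAt.fun_finsetProd fun p _ => ?_)
      · have h2 : LD q (tr ω) (ε ω) (w * T k) ≠ 0 :=
          norm_pos_iff.1 (hne.trans_le (LD_Lam hq0 (hG.bound ω) (hG.eps ω) (hwT w hw' k) hρ1).1)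
        have h3 : DifferentiableAt ℂ (fun w => LD q (tr ω) (ε ω) (w * T k)) w := by
          unfold LD
          fun_prop
        exact h3.zpow (Or.inl h2)
      · have h2 : 1 - (q : ℂ) * ((w * T p.1) * (w * T p.2)) ≠ 0 :=
          norm_pos_iff.1 (hne.trans_le (pair_Lam hq0 (hwT w hw' p.1) (hwT w hw' p.2) hρ1).1)
        have h3 : DifferentiableAt ℂ (fun w : ℂ => 1 - (q : ℂ) * ((w * T p.1) * (w * T p.2))) w := by
          fun_prop
        exact h3.zpow (Or.inl h2)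
    have h2 : DifferentiableAt ℂ (fun w : ℂ => 1 - Q * w ^ 2) w := by fun_prop
    exact h1.sub h2
  have hev : ∀ z, G (-z) = G z := by
    intro z
    rw [hGd]
    simp only [even_two, Even.neg_pow]
    congr 1
    rw [hF]
    simp only [EPhi]
    congr 1
    obtain ⟨τ, hτ⟩ := hG.sym
    rw [← Equiv.sum_comp τ]
    refine Finset.sum_congr rfl fun ω _ => ?_
    rw [(hτ ω).1, (hτ ω).2, Phi_neg]
    congr 1
    funext k
    ring
  have hO : G =O[𝓝 0] fun w => w ^ 3 := EPhi_bigO hG T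
  have hmain := even_est hR1 hdiff hGb hev hO
  have hG1 : G 1 = EPhi n q tr ε T - 1 + Q := by
    rw [hGd]
    simp only [hF, one_mul, one_pow, mul_one]
    ring
  have h1 : EPhi n q tr ε T - 1 = G 1 - Q := by rw [hG1]; ring
  have h2 : M * (1 / R) ^ 4 / (1 - 1 / R) ≤ M / (ρ ^ 4 * (1 - ρ)) * κ ^ 4 := by
    have h3 : (1 / R) ^ 4 = κ ^ 4 / ρ ^ 4 := by rw [hR, one_div_div, div_pow]
    rw [h3]
    calc M * (κ ^ 4 / ρ ^ 4) / (1 - 1 / R) ≤ M * (κ ^ 4 / ρ ^ 4) / (1 - ρ) := by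
          apply div_le_div_of_nonneg_left (by positivity) hρ1'
          linarith
      _ = _ := by field_simp
  rw [h1]
  calc ‖G 1 - Q‖ ≤ ‖G 1‖ + ‖Q‖ := norm_sub_le _ _
    _ ≤ M / (ρ ^ 4 * (1 - ρ)) * κ ^ 4 + (N ^ 2 + N) * (κ ^ 2 / q) :=
        add_le_add (hmain.trans h2) hQb
    _ ≤ _ := by
      have a1 : 0 ≤ (N ^ 2 + N) * κ ^ 4 := by positivity
      have a2 : 0 ≤ M / (ρ ^ 4 * (1 - ρ)) * (κ ^ 2 / q) := by positivity
      nlinarith

end Pool.Agent.T6.H9.MV
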