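import Pool.Agent.H341R2.WeilSharp
import Pool.Agent.T6.H9.MV.Loc

/-!
# Elliptic curves over a finite field: the moments of the trace of Frobenius

Owner helper9.
-/

set_option autoImplicit false
set_option linter.unusedSectionVars false

open Finset Polynomial

namespace Pool.Agent.T6.H9.MV

section

variable {k : Type} [Field k] [Fintype k] [DecidableEq k]

/-- the character sum of `y² = x³ + a x + b` -/
noncomputable def Sab (a b : k) : ℤ := ∑ x : k, quadraticChar k (x ^ 3 + a * x + b)

lemma two_ne (h6 : (6 : k) ≠ 0) : (2 : k) ≠ 0 := by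
  intro h; apply h6
  have : (6 : k) = 3 * 2 := by norm_num
  rw [this, h, mul_zero]

lemma three_ne (h6 : (6 : k) ≠ 0) : (3 : k) ≠ 0 := by
  intro h; apply h6
  have : (6 : k) = 2 * 3 := by norm_num
  rw [this, h, mul_zero]

lemma ringChar_ne (h6 : (6 : k) ≠ 0) : ringChar k ≠ 2 := by
  intro h
  apply two_ne h6
  have := ringChar.Nat.cast_ringChar (R := k)
  rw [h] at this
  exact_mod_cast this

lemma card_pts (h6 : (6 : k) ≠ 0) (a b : k) :
    (Nat.card {P : k × k // P.2 ^ 2 = P.1 ^ 3 + a * P.1 + b} : ℤ) = Fintype.card k + Sab a b := by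
  have hk := ringChar_ne h6
  have e : {P : k × k // P.2 ^ 2 = P.1 ^ 3 + a * P.1 + b} ≃
      (x : k) × {y : k // y ^ 2 = x ^ 3 + a * x + b} :=
    { toFun := fun p => ⟨p.1.1, ⟨p.1.2, p.2⟩⟩
      invFun := fun q => ⟨(q.1, q.2.1), q.2.2⟩
      left_inv := fun p => rfl
      right_inv := fun q => rfl }
  rw [Nat.card_congr e, Nat.card_eq_fintype_card, Fintype.card_sigma]
  push_cast
  have h1 : ∀ x : k, (Fintype.card {y : k // y ^ 2 = x ^ 3 + a * x + b} : ℤ) =
      1 + quadraticChar k (x ^ 3 + a * x + b) := by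
    intro x
    have h5 := quadraticChar_card_sqrts hk (x ^ 3 + a * x + b)
    rw [Set.toFinset_card] at h5
    rw [add_comm (1 : ℤ), ← h5]
    congr 1
  rw [Finset.sum_congr rfl fun x _ => h1 x, Finset.sum_add_distrib]
  simp [Sab]

lemma Sab_bound (h6 : (6 : k) ≠ 0) (a b : k) : |(Sab a b : ℝ)| ≤ 2 * √(Fintype.card k) := by
  set f : k[X] := X ^ 3 + C a * X + C b with hf
  have hdeg : f.natDegree = 3 := by
    rw [hf]
    compute_degree!
  have h1 := Pool.Agent.H341R2.Sharp.weil_sharp (ringChar_ne h6) f (by omega) (by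
    intro c q hq
    have hc : c ≠ 0 := by
      rintro rfl
      rw [C_0, zero_mul] at hq
      rw [hq] at hdeg
      simp at hdeg
    have hqd : 2 * q.natDegree = 3 := by
      rw [hq, natDegree_C_mul hc, natDegree_pow] at hdeg
      exact hdeg
    omega)
  rw [hdeg] at h1
  have h2 : (Sab a b : ℝ) = ∑ x : k, (quadraticChar k (f.eval x) : ℝ) := by
    rw [Sab]
    push_cast
    refine Finset.sum_congr rfl fun x _ => ?_
    congr 2
    rw [hf]
    simp
  rw [h2]
  refine h1.trans (le_of_eq ?_)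
  norm_num

lemma chi_sum (h6 : (6 : k) ≠ 0) : ∑ x : k, quadraticChar k x = 0 :=
  quadraticChar_sum_zero (ringChar_ne h6)

lemma Sab_param (h6 : (6 : k) ≠ 0) (t : k) :
    Sab (-3 * t ^ 2) (2 * t ^ 3) = - quadraticChar k (3 * t) := by
  have h1 : ∀ x : k, quadraticChar k (x ^ 3 + (-3 * t ^ 2) * x + 2 * t ^ 3) =
      quadraticChar k (x + 2 * t) - if x = t then quadraticChar k (3 * t) else 0 := by
    intro x
    have h2 : x ^ 3 + (-3 * t ^ 2) * x + 2 * t ^ 3 = (x - t) ^ 2 * (x + 2 * t) := by ring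
    rw [h2, map_mul]
    by_cases hx : x = t
    · subst hx
      rw [if_pos rfl, sub_self, zero_pow (by norm_num)]
      rw [MulChar.map_zero, zero_mul]
      have : x + 2 * x = 3 * x := by ring
      rw [this, sub_self]
    · rw [if_neg hx, sub_zero, quadraticChar_sq_one' (sub_ne_zero.2 hx), one_mul]
  rw [Sab, Finset.sum_congr rfl fun x _ => h1 x, Finset.sum_sub_distrib]
  have h3 : ∑ x : k, quadraticChar k (x + 2 * t) = 0 := by
    rw [← chi_sum h6]
    exact Equiv.sum_comp (Equiv.addRight (2 * t)) (fun x => quadraticChar k x)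
  rw [h3]
  simp

lemma disc_param (h6 : (6 : k) ≠ 0) {a b : k} (h : 4 * a ^ 3 + 27 * b ^ 2 = 0) :
    ∃ t : k, a = -3 * t ^ 2 ∧ b = 2 * t ^ 3 := by
  have h2 := two_ne h6
  have h3 := three_ne h6
  by_cases ha : a = 0
  · subst ha
    have h27 : (27 : k) ≠ 0 := by
      have : (27 : k) = 3 ^ 3 := by norm_num
      rw [this]; exact pow_ne_zero _ h3
    have hb : b = 0 := by
      have h4 : 27 * b ^ 2 = 0 := by simpa using h
      exact pow_eq_zero_iff (n := 2) (by norm_num) |>.1 ((mul_eq_zero.1 h4).resolve_left h27)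
    exact ⟨0, by simp, by simp [hb]⟩
  · have h4' : (4 : k) ≠ 0 := by
      have : (4 : k) = 2 ^ 2 := by norm_num
      rw [this]; exact pow_ne_zero _ h2
    have h8' : (8 : k) ≠ 0 := by
      have : (8 : k) = 2 ^ 3 := by norm_num
      rw [this]; exact pow_ne_zero _ h2
    refine ⟨-3 * b / (2 * a), ?_, ?_⟩
    · have h4 : a * (4 * a ^ 2) = -27 * b ^ 2 := by linear_combination h
      have h5 : a = -27 * b ^ 2 / (4 * a ^ 2) := by
        rw [eq_div_iff (by
          have : (4 : k) = 2 ^ 2 := by norm_num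
          rw [this]; exact mul_ne_zero (pow_ne_zero _ h2) (pow_ne_zero _ ha))]
        exact h4
      calc a = -27 * b ^ 2 / (4 * a ^ 2) := h5
        _ = -3 * (-3 * b / (2 * a)) ^ 2 := by
          field_simp
          ring
    · have h8 : (8 * a ^ 3 : k) ≠ 0 := by
        have : (8 : k) = 2 ^ 3 := by norm_num
        rw [this]; exact mul_ne_zero (pow_ne_zero _ h2) (pow_ne_zero _ ha)
      have h5 : b = -54 * b ^ 3 / (8 * a ^ 3) := by
        rw [eq_div_iff h8]
        linear_combination (2 * b) * h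
      calc b = -54 * b ^ 3 / (8 * a ^ 3) := h5
        _ = 2 * (-3 * b / (2 * a)) ^ 3 := by
          field_simp
          ring

lemma param_disc (t : k) : 4 * (-3 * t ^ 2) ^ 3 + 27 * (2 * t ^ 3) ^ 2 = 0 := by ring

lemma param_inj (h6 : (6 : k) ≠ 0) {t t' : k} (h1 : -3 * t ^ 2 = -3 * t' ^ 2)
    (h2 : 2 * t ^ 3 = 2 * t' ^ 3) : t = t' := by
  have h3 : t ^ 2 = t' ^ 2 := by
    have := three_ne h6
    have h4 : (-3 : k) ≠ 0 := neg_ne_zero.2 this
    exact mul_left_cancel₀ h4 h1
  have h4 : t ^ 3 = t' ^ 3 := mul_left_cancel₀ (two_ne h6) h2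
  by_cases ht : t' = 0
  · subst ht
    have : t ^ 2 = 0 := by rw [h3]; simp
    exact pow_eq_zero_iff (n := 2) (by norm_num) |>.1 this
  · have h5 : t' ^ 2 ≠ 0 := pow_ne_zero _ ht
    have h6 : t * t' ^ 2 = t' * t' ^ 2 := by
      calc t * t' ^ 2 = t * t ^ 2 := by rw [h3]
        _ = t ^ 3 := by ring
        _ = t' ^ 3 := h4
        _ = t' * t' ^ 2 := by ring
    exact mul_right_cancel₀ h5 h6

lemma Sab_sing (h6 : (6 : k) ≠ 0) {a b : k} (h : 4 * a ^ 3 + 27 * b ^ 2 = 0) :
    |(Sab a b : ℝ)| ≤ 1 := by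
  obtain ⟨t, ha, hb⟩ := disc_param h6 h
  rw [ha, hb, Sab_param h6]
  by_cases ht : 3 * t = 0
  · rw [ht, MulChar.map_zero]
    simp
  · rcases quadraticChar_dichotomy ht with h1 | h1 <;> rw [h1] <;> simp

lemma card_disc (h6 : (6 : k) ≠ 0) :
    (Finset.univ.filter fun p : k × k => 4 * p.1 ^ 3 + 27 * p.2 ^ 2 = 0).card =
      Fintype.card k := by
  rw [← Finset.card_univ (α := k)]
  symm
  refine Finset.card_bij (fun t _ => (-3 * t ^ 2, 2 * t ^ 3)) ?_ ?_ ?_
  · intro t _
    rw [Finset.mem_filter]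
    exact ⟨Finset.mem_univ _, param_disc t⟩
  · intro t _ t' _ h
    rw [Prod.mk.injEq] at h
    exact param_inj h6 h.1 h.2
  · intro p hp
    obtain ⟨t, ha, hb⟩ := disc_param h6 (Finset.mem_filter.1 hp).2
    exact ⟨t, Finset.mem_univ _, Prod.ext ha.symm hb.symm⟩

lemma Sab_twist {u : k} (hu : u ≠ 0) (a b : k) :
    Sab (u ^ 2 * a) (u ^ 3 * b) = quadraticChar k u * Sab a b := by
  unfold Sab
  rw [Finset.mul_sum]
  have h1 : ∀ x : k, quadraticChar k ((u * x) ^ 3 + (u ^ 2 * a) * (u * x) + u ^ 3 * b) =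
      quadraticChar k u * quadraticChar k (x ^ 3 + a * x + b) := by
    intro x
    have h2 : (u * x) ^ 3 + (u ^ 2 * a) * (u * x) + u ^ 3 * b =
        u ^ 2 * (u * (x ^ 3 + a * x + b)) := by ring
    rw [h2, map_mul, map_mul, quadraticChar_sq_one' hu, one_mul]
  rw [← Finset.sum_congr rfl fun x _ => h1 x]
  exact (Fintype.sum_equiv (Equiv.mulLeft₀ u hu) _ _ fun x => rfl).symm

lemma sum_Sab_sq (h6 : (6 : k) ≠ 0) :
    ∑ p : k × k, Sab p.1 p.2 ^ 2 = ((Fintype.card k : ℤ) - 1) * (Fintype.card k : ℤ) ^ 2 := by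
  have h1 : ∀ p : k × k, Sab p.1 p.2 ^ 2 = ∑ x : k, ∑ y : k,
      quadraticChar k (x ^ 3 + p.1 * x + p.2) * quadraticChar k (y ^ 3 + p.1 * y + p.2) := by
    intro p
    rw [Sab, sq, Finset.sum_mul_sum]
  rw [Finset.sum_congr rfl fun p _ => h1 p, Finset.sum_comm]
  have h2 : ∀ x : k, ∑ p : k × k, ∑ y : k,
      quadraticChar k (x ^ 3 + p.1 * x + p.2) * quadraticChar k (y ^ 3 + p.1 * y + p.2) =
      ((Fintype.card k : ℤ) - 1) * (Fintype.card k : ℤ) := by
    intro x
    rw [Finset.sum_comm]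
    have h3 : ∀ y : k, ∑ p : k × k,
        quadraticChar k (x ^ 3 + p.1 * x + p.2) * quadraticChar k (y ^ 3 + p.1 * y + p.2) =
        if y = x then ((Fintype.card k : ℤ) - 1) * (Fintype.card k : ℤ) else 0 := by
      intro y
      by_cases hy : y = x
      · subst hy
        rw [if_pos rfl, Fintype.sum_prod_type]
        have h4 : ∀ a : k, ∑ b : k,
            quadraticChar k (y ^ 3 + a * y + b) * quadraticChar k (y ^ 3 + a * y + b) =
            (Fintype.card k : ℤ) - 1 := by
          intro a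
          have h5 : ∑ b : k, quadraticChar k (y ^ 3 + a * y + b) *
              quadraticChar k (y ^ 3 + a * y + b) = ∑ c : k, quadraticChar k c *
              quadraticChar k c :=
            Equiv.sum_comp (Equiv.addLeft (y ^ 3 + a * y))
              (fun c => quadraticChar k c * quadraticChar k c)
          rw [h5]
          have h6 : ∀ c : k, quadraticChar k c * quadraticChar k c =
              1 - if c = 0 then (1 : ℤ) else 0 := by
            intro c
            by_cases hc : c = 0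
            · subst hc; simp
            · rw [if_neg hc, sub_zero, ← map_mul, ← sq, quadraticChar_sq_one' hc]
          rw [Finset.sum_congr rfl fun c _ => h6 c, Finset.sum_sub_distrib]
          simp
        rw [Finset.sum_congr rfl fun a _ => h4 a, Finset.sum_const, Finset.card_univ,
          nsmul_eq_mul, mul_comm]
      · rw [if_neg hy]
        have hxy : x - y ≠ 0 := sub_ne_zero.2 (Ne.symm hy)
        let e : k × k ≃ k × k :=
          { toFun := fun p => (x ^ 3 + p.1 * x + p.2, y ^ 3 + p.1 * y + p.2)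
            invFun := fun c => ((c.1 - c.2 - (x ^ 3 - y ^ 3)) / (x - y),
              c.1 - x ^ 3 - (c.1 - c.2 - (x ^ 3 - y ^ 3)) / (x - y) * x)
            left_inv := by
              rintro ⟨a, b⟩
              have h7 : (x ^ 3 + a * x + b - (y ^ 3 + a * y + b) - (x ^ 3 - y ^ 3)) / (x - y) =
                  a := by
                rw [div_eq_iff hxy]
                ring
              simp only
              rw [h7]
              refine Prod.ext rfl ?_
              simp only
              ring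
            right_inv := by
              rintro ⟨c, d⟩
              simp only
              set A := (c - d - (x ^ 3 - y ^ 3)) / (x - y) with hA
              have h7 : A * (x - y) = c - d - (x ^ 3 - y ^ 3) := by
                rw [hA, div_mul_cancel₀ _ hxy]
              refine Prod.ext ?_ ?_
              · simp only
                ring
              · simp only
                linear_combination -h7 }
        have h4 : ∑ p : k × k, quadraticChar k (x ^ 3 + p.1 * x + p.2) *
            quadraticChar k (y ^ 3 + p.1 * y + p.2) =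
            ∑ c : k × k, quadraticChar k c.1 * quadraticChar k c.2 :=
          Equiv.sum_comp e (fun c => quadraticChar k c.1 * quadraticChar k c.2)
        rw [h4, Fintype.sum_prod_type, ← Finset.sum_mul_sum, chi_sum h6, zero_mul]
    rw [Finset.sum_congr rfl fun y _ => h3 y]
    simp
  rw [Finset.sum_congr rfl fun x _ => h2 x, Finset.sum_const, Finset.card_univ, nsmul_eq_mul]
  ring

/-- the trace of Frobenius as a function of the coefficients -/
noncomputable def trF (p : k × k) : ℝ := -(Sab p.1 p.2 : ℝ)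

/-- the indicator of good reduction -/
noncomputable def epF (p : k × k) : ℝ := if 4 * p.1 ^ 3 + 27 * p.2 ^ 2 = 0 then 0 else 1

/-- the twist as a permutation -/
def twE (u : k) (hu : u ≠ 0) : k × k ≃ k × k where
  toFun p := (u ^ 2 * p.1, u ^ 3 * p.2)
  invFun p := ((u ^ 2)⁻¹ * p.1, (u ^ 3)⁻¹ * p.2)
  left_inv p := by
    refine Prod.ext ?_ ?_
    · exact inv_mul_cancel_left₀ (pow_ne_zero _ hu) _
    · exact inv_mul_cancel_left₀ (pow_ne_zero _ hu) _
  right_inv p := by
    refine Prod.ext ?_ ?_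
    · exact mul_inv_cancel_left₀ (pow_ne_zero _ hu) _
    · exact mul_inv_cancel_left₀ (pow_ne_zero _ hu) _

lemma twE_fst (u : k) (hu : u ≠ 0) (p : k × k) : (twE u hu p).1 = u ^ 2 * p.1 := rfl
lemma twE_snd (u : k) (hu : u ≠ 0) (p : k × k) : (twE u hu p).2 = u ^ 3 * p.2 := rfl

theorem good_fin (h6 : (6 : k) ≠ 0) :
    Good (Fintype.card k : ℝ) (trF : k × k → ℝ) (epF : k × k → ℝ) := by
  have hq1 : 1 < Fintype.card k := Fintype.one_lt_card
  have hq1' : (1 : ℝ) < (Fintype.card k : ℝ) := by exact_mod_cast hq1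
  constructor
  · exact hq1'
  · intro p
    rw [trF, abs_neg]
    exact Sab_bound h6 p.1 p.2
  · intro p
    unfold epF trF
    by_cases h : 4 * p.1 ^ 3 + 27 * p.2 ^ 2 = 0
    · right
      rw [if_pos h, abs_neg]
      exact ⟨rfl, (Sab_sing h6 h).trans (Real.one_le_sqrt.2 hq1'.le)⟩
    · left
      rw [if_neg h]
  · obtain ⟨u, hu⟩ := FiniteField.exists_nonsquare (ringChar_ne h6)
    have hu0 : u ≠ 0 := by
      rintro rfl
      exact hu (IsSquare.zero)
    have hχ : quadraticChar k u = -1 := quadraticChar_neg_one_iff_not_isSquare.2 hu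
    refine ⟨twE u hu0, fun p => ⟨?_, ?_⟩⟩
    · unfold trF
      rw [twE_fst, twE_snd, Sab_twist hu0, hχ]
      push_cast
      ring
    · unfold epF
      rw [twE_fst, twE_snd]
      have h1 : 4 * (u ^ 2 * p.1) ^ 3 + 27 * (u ^ 3 * p.2) ^ 2 =
          u ^ 6 * (4 * p.1 ^ 3 + 27 * p.2 ^ 2) := by ring
      rw [h1]
      have h2 : u ^ 6 * (4 * p.1 ^ 3 + 27 * p.2 ^ 2) = 0 ↔ 4 * p.1 ^ 3 + 27 * p.2 ^ 2 = 0 := by
        rw [mul_eq_zero]
        exact or_iff_right (pow_ne_zero _ hu0)
      simp only [h2]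
  · have h1 := sum_Sab_sq h6
    have h2 : (∑ p : k × k, (Sab p.1 p.2 : ℝ) ^ 2) =
        ((Fintype.card k : ℝ) - 1) * (Fintype.card k : ℝ) ^ 2 := by exact_mod_cast h1
    unfold trF
    simp only [neg_sq]
    rw [h2, Fintype.card_prod]
    push_cast
    ring
  · have h1 := card_disc h6
    have h2 : ∀ p : k × k, epF p = 1 - if 4 * p.1 ^ 3 + 27 * p.2 ^ 2 = 0 then (1 : ℝ) else 0 := by
      intro p
      unfold epF
      split_ifs <;> simp
    rw [Finset.sum_congr rfl fun p _ => h2 p, Finset.sum_sub_distrib, Finset.sum_boole, h1,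
      Fintype.card_prod]
    simp only [Finset.sum_const, Finset.card_univ, Fintype.card_prod, nsmul_eq_mul, mul_one]
    push_cast
    have : (Fintype.card k : ℝ) ≠ 0 := by linarith
    field_simp

end

end Pool.Agent.T6.H9.MV
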