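import Pool.Agent.T6.H9.MV.Fam
import Pool.Agent.T6.H9.MV.Fin
import Pool.Agent.T6.H9.MV.Defs

/-!
# The local factors at the primes of a number field

Owner helper9.
-/

set_option autoImplicit false
set_option linter.unusedSectionVars false
set_option linter.unusedVariables false
set_option linter.style.haveILetI false

open Filter Topology Finset NumberField IsDedekindDomain

namespace Pool.Agent.T6.H9.MV

section

variable {K : Type} [Field K] [NumberField K]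

/-- the trace of Frobenius -/
noncomputable def trv (v : HeightOneSpectrum (𝓞 K)) (t : kv v × kv v) : ℝ :=
  (qv v : ℝ) - (Nat.card {P : kv v × kv v // P.2 ^ 2 = P.1 ^ 3 + t.1 * P.1 + t.2} : ℝ)

open Classical in
/-- indicator of good reduction -/
noncomputable def epv (v : HeightOneSpectrum (𝓞 K)) (t : kv v × kv v) : ℝ :=
  if 4 * t.1 ^ 3 + 27 * t.2 ^ 2 = 0 then 0 else 1

noncomputable instance (v : HeightOneSpectrum (𝓞 K)) : Fintype (kv v) := Fintype.ofFinite _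

lemma card_kv' (v : HeightOneSpectrum (𝓞 K)) : Fintype.card (kv v) = qv v := by
  rw [← Nat.card_eq_fintype_card, card_kv]

lemma six_ne {v : HeightOneSpectrum (𝓞 K)} (h6 : (6 : 𝓞 K) ∉ v.asIdeal) : (6 : kv v) ≠ 0 := by
  intro h
  apply h6
  rw [← Ideal.Quotient.eq_zero_iff_mem]
  have h1 : Ideal.Quotient.mk v.asIdeal 6 = (6 : kv v) := map_ofNat _ 6
  rw [h1]
  exact h

theorem good_v {v : HeightOneSpectrum (𝓞 K)} (h6 : (6 : 𝓞 K) ∉ v.asIdeal) :
    Good (qv v : ℝ) (trv v) (epv v) := by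
  classical
  haveI := v.isMaximal
  letI : Field (kv v) := Ideal.Quotient.field v.asIdeal
  have h := good_fin (k := kv v) (six_ne h6)
  rw [card_kv'] at h
  have h1 : (trF : kv v × kv v → ℝ) = trv v := by
    funext t
    have h2 := card_pts (k := kv v) (six_ne h6) t.1 t.2
    rw [card_kv'] at h2
    have h3 : (Nat.card {P : kv v × kv v // P.2 ^ 2 = P.1 ^ 3 + t.1 * P.1 + t.2} : ℝ) =
        (qv v : ℝ) + (Sab t.1 t.2 : ℝ) := by exact_mod_cast h2
    unfold trF trv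
    rw [h3]
    ring
  have h2 : (epF : kv v × kv v → ℝ) = epv v := by
    funext t
    unfold epF epv
    congr
  rw [h1, h2] at h
  exact h

lemma zero_v {v : HeightOneSpectrum (𝓞 K)} (h6 : (6 : 𝓞 K) ∉ v.asIdeal) :
    trv v 0 = 0 ∧ epv v 0 = 0 := by
  classical
  haveI := v.isMaximal
  letI : Field (kv v) := Ideal.Quotient.field v.asIdeal
  constructor
  · have h2 := card_pts (k := kv v) (six_ne h6) 0 0
    have h3 := Sab_param (k := kv v) (six_ne h6) 0
    rw [card_kv'] at h2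
    have h4 : Sab (0 : kv v) 0 = 0 := by
      have h5 : (-3 * (0 : kv v) ^ 2) = 0 := by ring
      have h6 : (2 * (0 : kv v) ^ 3) = 0 := by ring
      rw [h5, h6, mul_zero, MulChar.map_zero, neg_zero] at h3
      exact h3
    rw [h4, add_zero] at h2
    have h3' : (Nat.card {P : kv v × kv v // P.2 ^ 2 = P.1 ^ 3 + 0 * P.1 + 0} : ℝ) =
        (qv v : ℝ) := by exact_mod_cast h2
    unfold trv
    change (qv v : ℝ) - (Nat.card {P : kv v × kv v // P.2 ^ 2 = P.1 ^ 3 + 0 * P.1 + 0} : ℝ) = 0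
    rw [h3', sub_self]
  · unfold epv
    rw [if_pos]
    change 4 * (0 : kv v) ^ 3 + 27 * (0 : kv v) ^ 2 = 0
    ring

open Classical in
/-- the local factor of one L-function -/
noncomputable def loc1 (v : HeightOneSpectrum (𝓞 K)) (t : kv v × kv v) (s : ℂ) : ℂ :=
  if (6 : 𝓞 K) ∈ v.asIdeal then 1 else (LD (qv v) (trv v t) (epv v t) ((qv v : ℂ) ^ (-s)))⁻¹

lemma cpow_two (v : HeightOneSpectrum (𝓞 K)) (s s' : ℂ) :
    (qv v : ℂ) * ((qv v : ℂ) ^ (-s) * (qv v : ℂ) ^ (-s')) = (qv v : ℂ) ^ (-(s + s' - 1)) := by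
  have h0 : (qv v : ℂ) ≠ 0 := by exact_mod_cast qv_ne_zero v
  rw [← Complex.cpow_add _ _ h0]
  nth_rewrite 1 [← Complex.cpow_one (qv v : ℂ)]
  rw [← Complex.cpow_add _ _ h0]
  congr 1
  ring

theorem factor_eq (p : 𝓞 K × 𝓞 K) (v : HeightOneSpectrum (𝓞 K)) (s : ℂ) :
    MeanL.factor p v s = loc1 v (red v p) s := by
  classical
  unfold MeanL.factor loc1
  by_cases h6 : (6 : 𝓞 K) ∈ v.asIdeal
  · rw [if_pos h6, if_pos h6]
  · rw [if_neg h6, if_neg h6]
    congr 1
    unfold LD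
    have h1 : ((((Ideal.absNorm v.asIdeal : ℤ) - (MeanL.pts p v : ℤ) : ℤ)) : ℂ) =
        ((trv v (red v p) : ℝ) : ℂ) := by
      unfold trv MeanL.pts
      push_cast
      rfl
    rw [h1]
    congr 1
    have h2 : (4 * p.1 ^ 3 + 27 * p.2 ^ 2 ∈ v.asIdeal) ↔
        4 * (red v p).1 ^ 3 + 27 * (red v p).2 ^ 2 = 0 := by
      rw [← Ideal.Quotient.eq_zero_iff_mem]
      have h4 : Ideal.Quotient.mk v.asIdeal 4 = (4 : kv v) := map_ofNat _ 4
      have h27 : Ideal.Quotient.mk v.asIdeal 27 = (27 : kv v) := map_ofNat _ 27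
      rw [map_add, map_mul, map_mul, map_pow, map_pow, h4, h27]
      rfl
    unfold epv
    by_cases h3 : 4 * p.1 ^ 3 + 27 * p.2 ^ 2 ∈ v.asIdeal
    · rw [if_pos h3, if_pos (h2.1 h3)]
      simp
    · rw [if_neg h3, if_neg (fun h => h3 (h2.2 h))]
      have h4 := cpow_two v s s
      rw [Complex.ofReal_one, one_mul, sq]
      have h5 : (((qv v : ℕ) : ℝ) : ℂ) = (qv v : ℂ) := by push_cast; rfl
      rw [h5, h4]
      congr 1
      ring

/-- `√q |q^{-s}| = q^{1/2 - Re s}` -/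
lemma sqrt_norm (v : HeightOneSpectrum (𝓞 K)) (s : ℂ) :
    √(qv v : ℝ) * ‖(qv v : ℂ) ^ (-s)‖ = (qv v : ℝ) ^ (1 / 2 - s.re) := by
  have h0 : (0 : ℝ) < (qv v : ℝ) := by exact_mod_cast Nat.pos_of_ne_zero (qv_ne_zero v)
  rw [Complex.norm_natCast_cpow_of_pos (Nat.pos_of_ne_zero (qv_ne_zero v)), Complex.neg_re,
    Real.sqrt_eq_rpow, ← Real.rpow_add h0]
  congr 1

lemma rpow_le_two (v : HeightOneSpectrum (𝓞 K)) {x : ℝ} (hx : x ≤ 0) :
    (qv v : ℝ) ^ x ≤ (2 : ℝ) ^ x :=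
  Real.rpow_le_rpow_of_nonpos (by norm_num) (by exact_mod_cast two_le_qv v) hx

end

end Pool.Agent.T6.H9.MV
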